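import Mathlib

namespace Pool.Agent.H48.FIrr

/-- An oriented graph on the vertex type `V`: no loops and no pair of opposite arcs. -/
structure OGraph (V : Type*) where
  Adj : V → V → Prop
  asymm : ∀ u v, Adj u v → ¬ Adj v u

/-- A (not necessarily induced) subgraph: a subset of the vertices and a subset of the arcs
among them. -/
structure OSub {V : Type*} (G : OGraph V) where
  verts : Set V
  Arc : V → V → Prop
  arc_adj : ∀ u v, Arc u v → G.Adj u v
  arc_left : ∀ u v, Arc u v → u ∈ verts
  arc_right : ∀ u v, Arc u v → v ∈ verts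

/-- The subgraph `H` is isomorphic to the oriented graph `F`. -/
def OSub.IsoTo {V W : Type*} {G : OGraph V} (H : OSub G) (F : OGraph W) : Prop :=
  ∃ e : W ≃ H.verts, ∀ a b : W, F.Adj a b ↔ H.Arc (e a) (e b)

/-- The `F`-degree of the vertex `v` of `G`: the number of subgraphs of `G` that contain `v`
and are isomorphic to `F`. -/
noncomputable def fdeg {V W : Type*} (F : OGraph W) (G : OGraph V) (v : V) : ℕ :=
  Nat.card {H : OSub G // v ∈ H.verts ∧ H.IsoTo F}

/-- `G` is `F`-irregular: distinct vertices have distinct `F`-degrees. -/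
def Irregular {V W : Type*} (F : OGraph W) (G : OGraph V) : Prop :=
  ∀ u v : V, u ≠ v → fdeg F G u ≠ fdeg F G v

/-- The underlying undirected graph is connected. -/
def WeaklyConnected {W : Type*} (F : OGraph W) : Prop :=
  (SimpleGraph.fromRel F.Adj).Connected

/-- Isomorphism of oriented graphs. -/
def Iso {V V' : Type*} (G : OGraph V) (G' : OGraph V') : Prop :=
  ∃ e : V ≃ V', ∀ u v : V, G.Adj u v ↔ G'.Adj (e u) (e v)

end Pool.Agent.H48.FIrr
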