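import Mathlib
import Pool.Agent.H48.FIrrDefs

namespace Pool.Agent.H48.FIrr

/-- Number of embeddings (injective homomorphisms) of the relation `R` into the relation `E`
whose range contains `p`. -/
noncomputable def cnt {V W : Type*} (R : W → W → Prop) (E : V → V → Prop) (p : V) : ℕ :=
  Nat.card {f : W → V // Function.Injective f ∧ (∀ a b, R a b → E (f a) (f b)) ∧ ∃ a, f a = p}

theorem OSub.ext' {V : Type*} {G : OGraph V} {H H' : OSub G} (h1 : H.verts = H'.verts)
    (h2 : H.Arc = H'.Arc) : H = H' := by
  cases H; cases H'; simp_all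

instance {V : Type*} [Finite V] (G : OGraph V) : Finite (OSub G) := by
  classical
  have : Function.Injective (fun H : OSub G => (H.verts, H.Arc)) := by
    intro H H' h
    simp only [Prod.mk.injEq] at h
    exact OSub.ext' h.1 h.2
  exact Finite.of_injective _ this

/-- The automorphisms of `F`. -/
def Aut {W : Type*} (F : OGraph W) : Type _ := {e : W ≃ W // ∀ a b, F.Adj a b ↔ F.Adj (e a) (e b)}

theorem cnt_eq {V W : Type*} [Finite V] [Finite W] (F : OGraph W) (G : OGraph V) (v : V) :
    cnt F.Adj G.Adj v = Nat.card (Aut F) * fdeg F G v := by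
  classical
  unfold cnt fdeg
  rw [← Nat.card_prod]
  symm
  let Φ : Aut F × {H : OSub G // v ∈ H.verts ∧ H.IsoTo F} →
      {f : W → V // Function.Injective f ∧ (∀ a b, F.Adj a b → G.Adj (f a) (f b)) ∧ ∃ a, f a = v} :=
    fun x => ⟨fun w => (x.2.2.2.choose (x.1.1 w) : V), by
      refine ⟨?_, ?_, ?_⟩
      · intro a b hab
        exact x.1.1.injective (x.2.2.2.choose.injective (Subtype.ext hab))
      · intro a b hab
        have h1 := (x.1.2 a b).1 hab
        have h2 := (x.2.2.2.choose_spec (x.1.1 a) (x.1.1 b)).1 h1
        exact x.2.1.arc_adj _ _ h2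
      · refine ⟨x.1.1.symm (x.2.2.2.choose.symm ⟨v, x.2.2.1⟩), ?_⟩
        simp⟩
  have hΦ : ∀ x w, (Φ x).1 w = (x.2.2.2.choose (x.1.1 w) : V) := fun x w => rfl
  refine Nat.card_eq_of_bijective Φ ⟨?_, ?_⟩
  · rintro x y hxy
    have hfun : ∀ w, (x.2.2.2.choose (x.1.1 w) : V) = (y.2.2.2.choose (y.1.1 w) : V) := by
      intro w
      have := congrArg (fun f => f.1 w) hxy
      simpa [hΦ] using this
    have hH : x.2.1 = y.2.1 := by
      apply OSub.ext'
      · ext u
        constructor
        · intro hu
          have h := hfun (x.1.1.symm (x.2.2.2.choose.symm ⟨u, hu⟩))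
          simp at h
          rw [h]
          exact Subtype.coe_prop _
        · intro hu
          have h := hfun (y.1.1.symm (y.2.2.2.choose.symm ⟨u, hu⟩))
          simp at h
          rw [← h]
          exact Subtype.coe_prop _
      · ext u u'
        constructor
        · intro hu
          have e1 := x.2.1.arc_left _ _ hu
          have e2 := x.2.1.arc_right _ _ hu
          set a := x.1.1.symm (x.2.2.2.choose.symm ⟨u, e1⟩) with ha
          set b := x.1.1.symm (x.2.2.2.choose.symm ⟨u', e2⟩) with hb
          have h1 := hfun a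
          have h2 := hfun b
          have h1' : (x.2.2.2.choose (x.1.1 a) : V) = u := by simp [ha]
          have h2' : (x.2.2.2.choose (x.1.1 b) : V) = u' := by simp [hb]
          have h3 : F.Adj a b := by
            rw [x.1.2 a b, x.2.2.2.choose_spec, h1', h2']
            exact hu
          rw [y.1.2 a b, y.2.2.2.choose_spec, ← h1, ← h2, h1', h2'] at h3
          exact h3
        · intro hu
          have e1 := y.2.1.arc_left _ _ hu
          have e2 := y.2.1.arc_right _ _ hu
          set a := y.1.1.symm (y.2.2.2.choose.symm ⟨u, e1⟩) with ha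
          set b := y.1.1.symm (y.2.2.2.choose.symm ⟨u', e2⟩) with hb
          have h1 := hfun a
          have h2 := hfun b
          have h1' : (y.2.2.2.choose (y.1.1 a) : V) = u := by simp [ha]
          have h2' : (y.2.2.2.choose (y.1.1 b) : V) = u' := by simp [hb]
          have h3 : F.Adj a b := by
            rw [y.1.2 a b, y.2.2.2.choose_spec, h1', h2']
            exact hu
          rw [x.1.2 a b, x.2.2.2.choose_spec, h1, h2, h1', h2'] at h3
          exact h3
    have hH2 : x.2 = y.2 := Subtype.ext hH
    have hA : x.1 = y.1 := by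
      apply Subtype.ext
      ext w
      have h := hfun w
      rw [hH2] at h
      exact y.2.2.2.choose.injective (Subtype.ext h)
    exact Prod.ext hA hH2
  · rintro ⟨f, hf, hE, w0, hw0⟩
    let H : OSub G :=
      { verts := Set.range f
        Arc := fun u u' => ∃ a b, F.Adj a b ∧ f a = u ∧ f b = u'
        arc_adj := by rintro u u' ⟨a, b, hab, rfl, rfl⟩; exact hE a b hab
        arc_left := by rintro u u' ⟨a, b, hab, rfl, rfl⟩; exact ⟨a, rfl⟩
        arc_right := by rintro u u' ⟨a, b, hab, rfl, rfl⟩; exact ⟨b, rfl⟩ }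
    have hHv : v ∈ H.verts := ⟨w0, hw0⟩
    have hHiso : H.IsoTo F := by
      refine ⟨Equiv.ofInjective f hf, ?_⟩
      intro a b
      constructor
      · intro hab
        exact ⟨a, b, hab, rfl, rfl⟩
      · rintro ⟨a', b', hab, h1, h2⟩
        have h1' : a' = a := hf h1
        have h2' : b' = b := hf h2
        rw [← h1', ← h2']
        exact hab
    have hval : ∀ w : W, f w ∈ H.verts := fun w => ⟨w, rfl⟩
    let g : W → W := fun w => hHiso.choose.symm ⟨f w, hval w⟩
    have hg : ∀ w, (hHiso.choose (g w) : V) = f w := by intro w; simp [g]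
    have hgb : Function.Bijective g := by
      constructor
      · intro a b hab
        have := hg a
        rw [hab, hg b] at this
        exact (hf this).symm
      · intro w
        obtain ⟨a, ha⟩ := (hHiso.choose w).2
        refine ⟨a, ?_⟩
        apply hHiso.choose.injective
        apply Subtype.ext
        rw [hg a, ha]
    refine ⟨(⟨Equiv.ofBijective g hgb, ?_⟩, ⟨H, hHv, hHiso⟩), ?_⟩
    · intro a b
      change F.Adj a b ↔ F.Adj (g a) (g b)
      rw [hHiso.choose_spec (g a) (g b), hg, hg]
      constructor
      · intro hab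
        exact ⟨a, b, hab, rfl, rfl⟩
      · rintro ⟨a', b', hab, h1, h2⟩
        rw [← hf h1, ← hf h2]
        exact hab
    · apply Subtype.ext
      funext w
      exact hg w

theorem irregular_of_cnt {V W : Type*} [Finite V] [Finite W] (F : OGraph W) (G : OGraph V)
    (h : Function.Injective (cnt F.Adj G.Adj)) : Irregular F G := by
  intro u v huv heq
  apply huv
  apply h
  rw [cnt_eq, cnt_eq, heq]

/-- Transport along an equivalence of the source. -/
theorem cnt_congr_left {V W W' : Type*} (e : W' ≃ W) (R : W → W → Prop) (R' : W' → W' → Prop)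
    (h : ∀ a b, R' a b ↔ R (e a) (e b)) (E : V → V → Prop) (p : V) :
    cnt R E p = cnt R' E p := by
  unfold cnt
  refine Nat.card_congr ?_
  refine (Equiv.subtypeEquiv (Equiv.arrowCongr e.symm (Equiv.refl V)) ?_)
  intro f
  constructor
  · rintro ⟨h1, h2, a, ha⟩
    refine ⟨?_, ?_, e.symm a, ?_⟩
    · exact h1.comp e.injective
    · intro a b hab
      exact h2 _ _ ((h a b).1 hab)
    · simpa using ha
  · rintro ⟨h1, h2, a, ha⟩
    refine ⟨?_, ?_, e a, ?_⟩
    · intro x y hxy
      have := @h1 (e.symm x) (e.symm y) (by simpa using hxy)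
      exact e.symm.injective this
    · intro a b hab
      have := h2 (e.symm a) (e.symm b) ((h _ _).2 (by simpa using hab))
      simpa using this
    · simpa using ha

/-- Transport along an equivalence of the target. -/
theorem cnt_congr_right {V V' W : Type*} (e : V ≃ V') (R : W → W → Prop) (E : V → V → Prop)
    (E' : V' → V' → Prop) (h : ∀ a b, E a b ↔ E' (e a) (e b)) (p : V) :
    cnt R E p = cnt R E' (e p) := by
  unfold cnt
  refine Nat.card_congr ?_
  refine (Equiv.subtypeEquiv (Equiv.arrowCongr (Equiv.refl W) e) ?_)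
  intro f
  constructor
  · rintro ⟨h1, h2, a, ha⟩
    refine ⟨?_, ?_, a, ?_⟩
    · exact e.injective.comp h1
    · intro a b hab
      exact (h _ _).1 (h2 _ _ hab)
    · simpa using ha
  · rintro ⟨h1, h2, a, ha⟩
    refine ⟨?_, ?_, a, ?_⟩
    · intro x y hxy
      exact h1 (by simpa using hxy)
    · intro a b hab
      exact (h _ _).2 (h2 a b hab)
    · simpa using ha

/-- Reversal of all arcs. -/
theorem cnt_swap {V W : Type*} (R : W → W → Prop) (E : V → V → Prop) (p : V) :
    cnt (fun a b => R b a) (fun u v => E v u) p = cnt R E p := by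
  unfold cnt
  refine Nat.card_congr (Equiv.subtypeEquiv (Equiv.refl _) ?_)
  intro f
  constructor
  · rintro ⟨h1, h2, h3⟩
    exact ⟨h1, fun a b hab => h2 b a hab, h3⟩
  · rintro ⟨h1, h2, h3⟩
    exact ⟨h1, fun a b hab => h2 b a hab, h3⟩

end Pool.Agent.H48.FIrr
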