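import Mathlib
import Pool.Agent.H48.FIrrCnt

namespace Pool.Agent.H48.FIrr

open Finset Function

variable {V W : Type*} [Fintype V] [Fintype W]

open Classical in
/-- The embeddings (injective homomorphisms) of `R` into `E`. -/
noncomputable def emb (R : W → W → Prop) (E : V → V → Prop) : Finset (W → V) :=
  univ.filter (fun f => Injective f ∧ ∀ a b, R a b → E (f a) (f b))

theorem mem_emb {R : W → W → Prop} {E : V → V → Prop} {f : W → V} :
    f ∈ emb R E ↔ Injective f ∧ ∀ a b, R a b → E (f a) (f b) := by
  simp [emb]

open Classical in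
theorem cnt_eq_card (R : W → W → Prop) (E : V → V → Prop) (p : V) :
    cnt R E p = ((emb R E).filter (fun f => ∃ a, f a = p)).card := by
  unfold cnt
  rw [Nat.card_eq_fintype_card, Fintype.card_subtype]
  congr 1
  ext f
  simp [mem_emb, and_assoc]

open Classical in
/-- Functions with prescribed values at `s` distinct points. -/
theorem card_prescribed (s : ℕ) (p : Fin s → V) (g : Fin s → W) (hg : Injective g) :
    (univ.filter (fun f : W → V => ∀ i, f (g i) = p i)).card * Fintype.card V ^ s
      ≤ Fintype.card V ^ Fintype.card W := by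
  have h1 : Fintype.card ({f : W → V // ∀ i, f (g i) = p i} × (Fin s → V))
      ≤ Fintype.card (W → V) := by
    refine Fintype.card_le_of_injective
      (fun x : {f : W → V // ∀ i, f (g i) = p i} × (Fin s → V) => extend g x.2 x.1.1) ?_
    rintro ⟨⟨f, hf⟩, h⟩ ⟨⟨f', hf'⟩, h'⟩ hxy
    simp only at hxy
    have e1 : h = h' := by
      funext i
      have := congrFun hxy (g i)
      rwa [hg.extend_apply, hg.extend_apply] at this
    have e2 : f = f' := by
      funext w
      by_cases hw : ∃ i, g i = w
      · obtain ⟨i, rfl⟩ := hw
        rw [hf, hf']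
      · have := congrFun hxy w
        rwa [extend_apply' _ _ _ hw, extend_apply' _ _ _ hw] at this
    simp [e1, e2]
  rw [Fintype.card_prod, Fintype.card_fun, Fintype.card_fun, Fintype.card_subtype,
    Fintype.card_fin] at h1
  exact h1

open Classical in
/-- The number of injective maps whose range contains `s` given distinct points. -/
theorem card_bound (s : ℕ) (p : Fin s → V) (hp : Injective p) :
    (univ.filter (fun f : W → V => Injective f ∧ ∀ i, ∃ a, f a = p i)).card
        * Fintype.card V ^ s
      ≤ Fintype.card W ^ s * Fintype.card V ^ Fintype.card W := by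
  have hsub : (univ.filter (fun f : W → V => Injective f ∧ ∀ i, ∃ a, f a = p i)) ⊆
      (univ : Finset (Fin s → W)).biUnion
        (fun g => univ.filter (fun f : W → V => ∀ i, f (g i) = p i)) := by
    intro f hf
    simp only [mem_filter, mem_univ, true_and] at hf
    choose g hg using hf.2
    simp only [mem_biUnion, mem_filter, mem_univ, true_and]
    exact ⟨g, hg⟩
  have h2 : ∀ g : Fin s → W, (univ.filter (fun f : W → V => ∀ i, f (g i) = p i)).card
      * Fintype.card V ^ s ≤ Fintype.card V ^ Fintype.card W := by
    intro g
    by_cases hg : Injective g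
    · exact card_prescribed s p g hg
    · have : (univ.filter (fun f : W → V => ∀ i, f (g i) = p i)) = ∅ := by
        apply Finset.filter_eq_empty_iff.2
        intro f _ hf
        apply hg
        intro i j hij
        apply hp
        rw [← hf i, ← hf j, hij]
      rw [this]
      simp
  calc _ ≤ ((univ : Finset (Fin s → W)).biUnion
        (fun g => univ.filter (fun f : W → V => ∀ i, f (g i) = p i))).card
          * Fintype.card V ^ s := Nat.mul_le_mul_right _ (card_le_card hsub)
    _ ≤ (∑ g : Fin s → W, (univ.filter (fun f : W → V => ∀ i, f (g i) = p i)).card)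
          * Fintype.card V ^ s := Nat.mul_le_mul_right _ card_biUnion_le
    _ = ∑ g : Fin s → W, (univ.filter (fun f : W → V => ∀ i, f (g i) = p i)).card
          * Fintype.card V ^ s := by rw [sum_mul]
    _ ≤ ∑ g : Fin s → W, Fintype.card V ^ Fintype.card W := sum_le_sum (fun g _ => h2 g)
    _ = _ := by simp

/-- The uniform bound for `s` points. -/
noncomputable def bd (V W : Type*) [Fintype V] [Fintype W] (s : ℕ) : ℕ :=
  Fintype.card W ^ s * Fintype.card V ^ Fintype.card W / Fintype.card V ^ s

theorem bd_mul_le (V W : Type*) [Fintype V] [Fintype W] (s : ℕ) :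
    bd V W s * Fintype.card V ^ s ≤ Fintype.card W ^ s * Fintype.card V ^ Fintype.card W :=
  Nat.div_mul_le_self _ _

open Classical in
theorem card_bound' [Nonempty V] (s : ℕ) (p : Fin s → V) (hp : Injective p) :
    (univ.filter (fun f : W → V => Injective f ∧ ∀ i, ∃ a, f a = p i)).card ≤ bd V W s := by
  unfold bd
  rw [Nat.le_div_iff_mul_le (by positivity)]
  exact card_bound s p hp

open Classical in
theorem card_bound3 [Nonempty V] (x y z : V) (hxy : x ≠ y) (hxz : x ≠ z) (hyz : y ≠ z)
    (F : Finset (W → V)) (hF : ∀ f ∈ F, Injective f ∧ (∃ a, f a = x) ∧ (∃ a, f a = y) ∧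
      (∃ a, f a = z)) : F.card ≤ bd V W 3 := by
  refine le_trans (card_le_card ?_) (card_bound' 3 ![x, y, z] ?_)
  · intro f hf
    obtain ⟨h0, h1, h2, h3⟩ := hF f hf
    simp only [mem_filter, mem_univ, true_and]
    refine ⟨h0, ?_⟩
    intro i
    fin_cases i
    · exact h1
    · exact h2
    · exact h3
  · intro i j hij
    fin_cases i <;> fin_cases j <;> simp_all

open Classical in
theorem card_bound5 [Nonempty V] (p : Fin 5 → V) (hp : Injective p)
    (F : Finset (W → V)) (hF : ∀ f ∈ F, Injective f ∧ ∀ i, ∃ a, f a = p i) :
    F.card ≤ bd V W 5 := by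
  refine le_trans (card_le_card ?_) (card_bound' 5 p hp)
  intro f hf
  simp only [mem_filter, mem_univ, true_and]
  exact hF f hf

end Pool.Agent.H48.FIrr
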