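import Mathlib
import Pool.Agent.H48.FIrrBound

namespace Pool.Agent.H48.FIrr

open Finset Function

variable {V W : Type*} [Fintype V] [Fintype W]

theorem comp_mem_emb {R : W → W → Prop} {E E' : V → V → Prop} {f : W → V}
    (hf : f ∈ emb R E) (σ : Equiv.Perm V) (h : ∀ a b, R a b → E' (σ (f a)) (σ (f b))) :
    (fun a => σ (f a)) ∈ emb R E' := by
  rw [mem_emb] at hf ⊢
  exact ⟨σ.injective.comp hf.1, h⟩

theorem comp_inj (σ : Equiv.Perm V) :
    Injective (fun (f : W → V) => (fun a => σ (f a))) := by
  intro f g hfg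
  funext a
  exact σ.injective (congrFun hfg a)

/-- `X` dominates `x`. -/
def Dom (E : V → V → Prop) (x X : V) : Prop := ∀ v, (E x v → E X v) ∧ (E v x → E v X)

/-- `f` uses at `p'` an arc that is not available at `p`. -/
def UsesD (R : W → W → Prop) (E : V → V → Prop) (p p' : V) (f : W → V) : Prop :=
  ∃ a b, R a b ∧ ((f a = p' ∧ ¬ E p (f b)) ∨ (f b = p' ∧ ¬ E (f a) p))

open Classical in
theorem level_swap (R : W → W → Prop) (E : V → V → Prop) (p p' : V) (hpp' : p ≠ p')
    (hdom : Dom E p p') (h0 : ¬ E p p)  (h1 : ¬ E p p') (h2 : ¬ E p' p) :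
    cnt R E p + ((emb R E).filter (fun f => (∃ a, f a = p') ∧ (∀ a, f a ≠ p) ∧
      UsesD R E p p' f)).card ≤ cnt R E p' := by
  rw [cnt_eq_card, cnt_eq_card]
  set X1 := (emb R E).filter (fun f => (∃ a, f a = p) ∧ (∃ a, f a = p')) with hX1
  set X2 := (emb R E).filter (fun f => (∃ a, f a = p) ∧ (∀ a, f a ≠ p')) with hX2
  set Y2 := (emb R E).filter (fun f => (∃ a, f a = p') ∧ (∀ a, f a ≠ p)) with hY2
  set H1 := (emb R E).filter (fun f => (∃ a, f a = p') ∧ (∀ a, f a ≠ p) ∧
      UsesD R E p p' f) with hH1
  have e1 : ((emb R E).filter (fun f => ∃ a, f a = p)).card = X1.card + X2.card := by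
    rw [← card_union_of_disjoint]
    · congr 1
      ext f
      simp only [hX1, hX2, mem_filter, mem_union]
      constructor
      · rintro ⟨hf, hp⟩
        by_cases h : ∃ a, f a = p'
        · exact Or.inl ⟨hf, hp, h⟩
        · exact Or.inr ⟨hf, hp, by push Not at h; exact h⟩
      · rintro (⟨hf, hp, _⟩ | ⟨hf, hp, _⟩) <;> exact ⟨hf, hp⟩
    · rw [disjoint_left]
      intro f hf hf'
      simp only [hX1, hX2, mem_filter] at hf hf'
      obtain ⟨a, ha⟩ := hf.2.2
      exact hf'.2.2 a ha
  have e2 : ((emb R E).filter (fun f => ∃ a, f a = p')).card = X1.card + Y2.card := by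
    rw [← card_union_of_disjoint]
    · congr 1
      ext f
      simp only [hX1, hY2, mem_filter, mem_union]
      constructor
      · rintro ⟨hf, hp⟩
        by_cases h : ∃ a, f a = p
        · exact Or.inl ⟨hf, h, hp⟩
        · exact Or.inr ⟨hf, hp, by push Not at h; exact h⟩
      · rintro (⟨hf, _, hp⟩ | ⟨hf, hp, _⟩) <;> exact ⟨hf, hp⟩
    · rw [disjoint_left]
      intro f hf hf'
      simp only [hX1, hY2, mem_filter] at hf hf'
      obtain ⟨a, ha⟩ := hf.2.1
      exact hf'.2.2 a ha
  have key : X2.card + H1.card ≤ Y2.card := by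
    have hdisj : Disjoint (X2.image (fun f => fun a => Equiv.swap p p' (f a))) H1 := by
      rw [disjoint_left]
      intro g hg hg'
      rw [mem_image] at hg
      obtain ⟨f, hf, rfl⟩ := hg
      simp only [hX2, mem_filter] at hf
      simp only [hH1, mem_filter] at hg'
      obtain ⟨hfe, ⟨a0, ha0⟩, hfp'⟩ := hf
      obtain ⟨_, _, _, a, b, hab, hor⟩ := hg'
      rw [mem_emb] at hfe
      have hE := hfe.2 a b hab
      rcases hor with ⟨hga, hgb⟩ | ⟨hgb, hga⟩
      · have hfa : f a = p := by
          have := congrArg (Equiv.swap p p') hga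
          simpa using this
        have hfb : f b ≠ p := by
          intro hb
          rw [hfa, hb] at hE
          exact h0 hE
        simp only [Equiv.swap_apply_of_ne_of_ne hfb (hfp' b)] at hgb
        rw [hfa] at hE
        exact hgb hE
      · have hfb : f b = p := by
          have := congrArg (Equiv.swap p p') hgb
          simpa using this
        have hfa : f a ≠ p := by
          intro hb
          rw [hfb, hb] at hE
          exact h0 hE
        simp only [Equiv.swap_apply_of_ne_of_ne hfa (hfp' a)] at hga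
        rw [hfb] at hE
        exact hga hE
    have hcard : (X2.image (fun f => fun a => Equiv.swap p p' (f a))).card = X2.card :=
      card_image_of_injective _ (comp_inj _)
    rw [← hcard, ← card_union_of_disjoint hdisj]
    apply card_le_card
    intro g hg
    rw [mem_union] at hg
    rcases hg with hg | hg
    · rw [mem_image] at hg
      obtain ⟨f, hf, rfl⟩ := hg
      simp only [hX2, mem_filter] at hf
      obtain ⟨hfe, ⟨a0, ha0⟩, hfp'⟩ := hf
      simp only [hY2, mem_filter]
      refine ⟨?_, ⟨a0, by simp [ha0]⟩, ?_⟩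
      · apply comp_mem_emb hfe
        intro a b hab
        rw [mem_emb] at hfe
        have hE := hfe.2 a b hab
        by_cases ha : f a = p
        · by_cases hb : f b = p
          · rw [ha, hb] at hE
            exact absurd hE h0
          · rw [ha, Equiv.swap_apply_left, Equiv.swap_apply_of_ne_of_ne hb (hfp' b)]
            rw [ha] at hE
            exact (hdom _).1 hE
        · by_cases hb : f b = p
          · rw [hb, Equiv.swap_apply_left, Equiv.swap_apply_of_ne_of_ne ha (hfp' a)]
            rw [hb] at hE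
            exact (hdom _).2 hE
          · rw [Equiv.swap_apply_of_ne_of_ne ha (hfp' a),
              Equiv.swap_apply_of_ne_of_ne hb (hfp' b)]
            exact hE
      · intro a ha
        have := congrArg (Equiv.swap p p') ha
        simp only [Equiv.swap_apply_self, Equiv.swap_apply_left] at this
        exact hfp' a this
    · simp only [hH1, mem_filter] at hg
      simp only [hY2, mem_filter]
      exact ⟨hg.1, hg.2.1, hg.2.2.1⟩
  omega

/-- The relation `E` with the arc `(x,z)` added. -/
def addArc (E : V → V → Prop) (x z : V) (u v : V) : Prop := E u v ∨ (u = x ∧ v = z)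

/-- `f` uses the arc `(x,z)`. -/
def Uses (R : W → W → Prop) (x z : V) (f : W → V) : Prop := ∃ a b, R a b ∧ f a = x ∧ f b = z

open Classical in
theorem double_swap (R : W → W → Prop) (E : V → V → Prop) (x z X Z : V)
    (hxX : Dom E x X) (hzZ : Dom E z Z) (hXZ : E X Z)
    (hxx : ¬ E x x) (hzz : ¬ E z z) (hzx : ¬ E z x) (hxz : x ≠ z) (hXZ' : X ≠ Z)
    (hxX' : x ≠ X) (hxZ' : x ≠ Z) (hzX' : z ≠ X) (hzZ' : z ≠ Z) :
    ((emb R (addArc E x z)).filter (fun f => Uses R x z f ∧ (∀ a, f a ≠ X) ∧
      (∀ a, f a ≠ Z))).card ≤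
    ((emb R E).filter (fun f => Uses R X Z f ∧ (∀ a, f a ≠ x) ∧ (∀ a, f a ≠ z))).card := by
  set σ : Equiv.Perm V := Equiv.swap x X * Equiv.swap z Z with hσ
  have sx : σ x = X := by
    simp [hσ, Equiv.swap_apply_of_ne_of_ne hxz hxZ']
  have sz : σ z = Z := by
    simp [hσ, Equiv.swap_apply_of_ne_of_ne (Ne.symm hxZ') (Ne.symm hXZ')]
  have so : ∀ v, v ≠ x → v ≠ z → v ≠ X → v ≠ Z → σ v = v := by
    intro v h1 h2 h3 h4
    simp [hσ, Equiv.swap_apply_of_ne_of_ne h2 h4, Equiv.swap_apply_of_ne_of_ne h1 h3]
  refine card_le_card_of_injOn (fun f => fun a => σ (f a)) ?_ ((comp_inj σ).injOn)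
  intro f hf
  simp only [coe_filter, Set.mem_setOf_eq] at hf ⊢
  obtain ⟨hfe, ⟨a0, b0, hab0, hfa0, hfb0⟩, hfX, hfZ⟩ := hf
  refine ⟨?_, ⟨a0, b0, hab0, by simp only [hfa0, sx], by simp only [hfb0, sz]⟩, ?_, ?_⟩
  · apply comp_mem_emb hfe
    intro a b hab
    rw [mem_emb] at hfe
    have hE := hfe.2 a b hab
    rcases hE with hE | ⟨ha, hb⟩
    · by_cases hax : f a = x
      · by_cases hbx : f b = x
        · rw [hax, hbx] at hE; exact absurd hE hxx
        · by_cases hbz : f b = z
          · rw [hax, hbz, sx, sz]; exact hXZ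
          · rw [hax, sx, so _ hbx hbz (hfX b) (hfZ b)]
            rw [hax] at hE
            exact (hxX _).1 hE
      · by_cases haz : f a = z
        · by_cases hbx : f b = x
          · rw [haz, hbx] at hE; exact absurd hE hzx
          · by_cases hbz : f b = z
            · rw [haz, hbz] at hE; exact absurd hE hzz
            · rw [haz, sz, so _ hbx hbz (hfX b) (hfZ b)]
              rw [haz] at hE
              exact (hzZ _).1 hE
        · rw [so _ hax haz (hfX a) (hfZ a)]
          by_cases hbx : f b = x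
          · rw [hbx, sx]
            rw [hbx] at hE
            exact (hxX _).2 hE
          · by_cases hbz : f b = z
            · rw [hbz, sz]
              rw [hbz] at hE
              exact (hzZ _).2 hE
            · rw [so _ hbx hbz (hfX b) (hfZ b)]
              exact hE
    · rw [ha, hb, sx, sz]; exact hXZ
  · intro a ha
    rw [← σ.apply_symm_apply x] at ha
    have h1 : f a = σ.symm x := σ.injective ha
    have h2 : σ.symm x = X := by
      rw [Equiv.symm_apply_eq]
      simp [hσ, Equiv.swap_apply_of_ne_of_ne (Ne.symm hzX') hXZ']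
    exact hfX a (h1.trans h2)
  · intro a ha
    rw [← σ.apply_symm_apply z] at ha
    have h1 : f a = σ.symm z := σ.injective ha
    have h2 : σ.symm z = Z := by
      rw [Equiv.symm_apply_eq]
      simp [hσ, Equiv.swap_apply_of_ne_of_ne (Ne.symm hxz) hzX']
    exact hfZ a (h1.trans h2)

end Pool.Agent.H48.FIrr
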