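import Mathlib
import Pool.Agent.H48.FIrrSwap

namespace Pool.Agent.H48.FIrr

open Finset Function

variable {V W : Type*} [Fintype V] [Fintype W]

/-- The relation `E` with the arcs in `Mo` added. -/
def addSet (E : V → V → Prop) (Mo : Finset (V × V)) (u v : V) : Prop := E u v ∨ (u, v) ∈ Mo

open Classical in
/-- One family of embeddings through an added arc `(x,z)`. -/
theorem through_bound [Nonempty V] (R : W → W → Prop) (E : V → V → Prop) (x z X Z : V)
    (hxX : Dom E x X) (hzZ : Dom E z Z) (hXZ : E X Z)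
    (hxx : ¬ E x x) (hzz : ¬ E z z) (hzx : ¬ E z x) (hxz : x ≠ z) (hXZ' : X ≠ Z)
    (hxX' : x ≠ X) (hxZ' : x ≠ Z) (hzX' : z ≠ X) (hzZ' : z ≠ Z) :
    ((emb R (addArc E x z)).filter (fun f => Uses R x z f)).card ≤ 2 * bd V W 3 +
    ((emb R E).filter (fun f => Uses R X Z f ∧ (∀ a, f a ≠ x) ∧ (∀ a, f a ≠ z))).card := by
  have hsub : (emb R (addArc E x z)).filter (fun f => Uses R x z f) ⊆
      (((emb R (addArc E x z)).filter (fun f => Uses R x z f ∧ ∃ a, f a = X)) ∪
        ((emb R (addArc E x z)).filter (fun f => Uses R x z f ∧ ∃ a, f a = Z))) ∪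
      ((emb R (addArc E x z)).filter (fun f => Uses R x z f ∧ (∀ a, f a ≠ X) ∧
        (∀ a, f a ≠ Z))) := by
    intro f hf
    rw [mem_filter] at hf
    rw [mem_union, mem_union, mem_filter, mem_filter, mem_filter]
    by_cases h1 : ∃ a, f a = X
    · exact Or.inl (Or.inl ⟨hf.1, hf.2, h1⟩)
    · by_cases h2 : ∃ a, f a = Z
      · exact Or.inl (Or.inr ⟨hf.1, hf.2, h2⟩)
      · push Not at h1 h2
        exact Or.inr ⟨hf.1, hf.2, h1, h2⟩
  have b1 : ((emb R (addArc E x z)).filter (fun f => Uses R x z f ∧ ∃ a, f a = X)).card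
      ≤ bd V W 3 := by
    refine card_bound3 x z X hxz hxX' hzX' _ ?_
    intro f hf
    rw [mem_filter, mem_emb] at hf
    obtain ⟨⟨hinj, _⟩, ⟨a, b, _, ha, hb⟩, hX⟩ := hf
    exact ⟨hinj, ⟨a, ha⟩, ⟨b, hb⟩, hX⟩
  have b2 : ((emb R (addArc E x z)).filter (fun f => Uses R x z f ∧ ∃ a, f a = Z)).card
      ≤ bd V W 3 := by
    refine card_bound3 x z Z hxz hxZ' hzZ' _ ?_
    intro f hf
    rw [mem_filter, mem_emb] at hf
    obtain ⟨⟨hinj, _⟩, ⟨a, b, _, ha, hb⟩, hX⟩ := hf
    exact ⟨hinj, ⟨a, ha⟩, ⟨b, hb⟩, hX⟩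
  have b3 := double_swap R E x z X Z hxX hzZ hXZ hxx hzz hzx hxz hXZ' hxX' hxZ' hzX' hzZ'
  have b4 := card_le_card hsub
  have b5 := card_union_le (((emb R (addArc E x z)).filter
    (fun f => Uses R x z f ∧ ∃ a, f a = X)) ∪
        ((emb R (addArc E x z)).filter (fun f => Uses R x z f ∧ ∃ a, f a = Z)))
      ((emb R (addArc E x z)).filter (fun f => Uses R x z f ∧ (∀ a, f a ≠ X) ∧
        (∀ a, f a ≠ Z)))
  have b6 := card_union_le ((emb R (addArc E x z)).filter
    (fun f => Uses R x z f ∧ ∃ a, f a = X))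
        ((emb R (addArc E x z)).filter (fun f => Uses R x z f ∧ ∃ a, f a = Z))
  omega

open Classical in
theorem level_lt_abs [Nonempty V] (R : W → W → Prop) (E : V → V → Prop)
    (Mo : Finset (V × V)) (p p' dout din : V)
    (hpp' : p ≠ p') (hdom : Dom E p p') (h0 : ¬ E p p) (h1 : ¬ E p p') (h2 : ¬ E p' p)
    (ho : E p' dout) (ho' : ¬ E p dout) (hi : E din p') (hi' : ¬ E din p)
    (hM1 : ∀ e ∈ Mo, ∀ e' ∈ Mo, e.1 = e'.1 → e = e')
    (hM2 : ∀ e ∈ Mo, ∀ e' ∈ Mo, e.2 = e'.2 → e = e')
    (hM3 : ∀ e ∈ Mo, ∀ e' ∈ Mo, e.1 ≠ e'.2)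
    (hMo : ∀ e ∈ Mo, e.1 = p → Dom E e.2 dout ∧ ¬ E e.2 e.2 ∧ ¬ E e.2 p ∧ e.2 ≠ dout ∧
      e.2 ≠ p')
    (hMi : ∀ e ∈ Mo, e.2 = p → Dom E e.1 din ∧ ¬ E e.1 e.1 ∧ ¬ E p e.1 ∧ e.1 ≠ din ∧
      e.1 ≠ p')
    (hd : dout ≠ din) (hop : dout ≠ p') (hip : din ≠ p') (hop' : dout ≠ p) (hip' : din ≠ p)
    (L : ℕ)
    (hLo : L ≤ ((emb R E).filter (fun f => Uses R p' dout f)).card)
    (hLi : L ≤ ((emb R E).filter (fun f => Uses R din p' f)).card)
    (hL : (Mo.card + 4) * bd V W 3 < L) :
    cnt R (addSet E Mo) p < cnt R E p' := by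
  set b3 := bd V W 3 with hb3
  set C := (emb R (addSet E Mo)).filter (fun f => (∃ a, f a = p) ∧ f ∉ emb R E) with hC
  set Hout := (emb R E).filter (fun f => Uses R p' dout f ∧ (∀ a, f a ≠ p)) with hHout
  set Hin := (emb R E).filter (fun f => Uses R din p' f ∧ (∀ a, f a ≠ p)) with hHin
  set H1 := (emb R E).filter (fun f => (∃ a, f a = p') ∧ (∀ a, f a ≠ p) ∧
      UsesD R E p p' f) with hH1
  have hcnt : cnt R (addSet E Mo) p = cnt R E p + C.card := by
    rw [cnt_eq_card, cnt_eq_card, ← card_union_of_disjoint]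
    · congr 1
      ext f
      simp only [hC, mem_filter, mem_union]
      constructor
      · rintro ⟨hf, hp⟩
        by_cases h : f ∈ emb R E
        · exact Or.inl ⟨h, hp⟩
        · exact Or.inr ⟨hf, hp, h⟩
      · rintro (⟨hf, hp⟩ | ⟨hf, hp, _⟩)
        · rw [mem_emb] at hf ⊢
          exact ⟨⟨hf.1, fun a b hab => Or.inl (hf.2 a b hab)⟩, hp⟩
        · exact ⟨hf, hp⟩
    · rw [disjoint_left]
      intro f hf hf'
      simp only [hC, mem_filter] at hf hf'
      exact hf'.2.2 hf.1
  have hswap := level_swap R E p p' hpp' hdom h0 h1 h2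
  rw [← hH1] at hswap
  -- bound of C
  set C1 := (Mo.filter (fun e => e.1 ≠ p ∧ e.2 ≠ p)).biUnion (fun e =>
    univ.filter (fun f : W → V => Injective f ∧ (∃ a, f a = p) ∧ (∃ a, f a = e.1) ∧
      (∃ a, f a = e.2))) with hC1
  set C2 := C.filter (fun f => ∀ a b, R a b → ¬ E (f a) (f b) → f a = p ∨ f b = p) with hC2
  have hCsub : C ⊆ C1 ∪ C2 := by
    intro f hf
    rw [mem_union]
    by_cases h : ∀ a b, R a b → ¬ E (f a) (f b) → f a = p ∨ f b = p
    · right
      rw [hC2, mem_filter]
      exact ⟨hf, h⟩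
    · left
      push Not at h
      obtain ⟨a, b, hab, hE, ha, hb⟩ := h
      simp only [hC, mem_filter, mem_emb] at hf
      have hMab : (f a, f b) ∈ Mo := by
        rcases hf.1.2 a b hab with h | h
        · exact absurd h hE
        · exact h
      rw [hC1, mem_biUnion]
      refine ⟨(f a, f b), ?_, ?_⟩
      · rw [mem_filter]; exact ⟨hMab, ha, hb⟩
      · rw [mem_filter]
        exact ⟨mem_univ _, hf.1.1, hf.2.1, ⟨a, rfl⟩, ⟨b, rfl⟩⟩
  have hC1card : C1.card ≤ Mo.card * b3 := by
    calc C1.card ≤ ∑ e ∈ Mo.filter (fun e => e.1 ≠ p ∧ e.2 ≠ p),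
          (univ.filter (fun f : W → V => Injective f ∧ (∃ a, f a = p) ∧ (∃ a, f a = e.1) ∧
            (∃ a, f a = e.2))).card := card_biUnion_le
      _ ≤ ∑ e ∈ Mo.filter (fun e => e.1 ≠ p ∧ e.2 ≠ p), b3 := by
          apply sum_le_sum
          intro e he
          rw [mem_filter] at he
          refine card_bound3 p e.1 e.2 (Ne.symm he.2.1) (Ne.symm he.2.2)
            (hM3 e he.1 e he.1) _ ?_
          intro f hf
          rw [mem_filter] at hf
          exact hf.2
      _ = (Mo.filter (fun e => e.1 ≠ p ∧ e.2 ≠ p)).card * b3 := by simp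
      _ ≤ Mo.card * b3 := Nat.mul_le_mul_right _ (card_filter_le _ _)
  have hC2card : C2.card ≤ 2 * b3 + max Hout.card Hin.card := by
    by_cases hex : ∃ e ∈ Mo, e.1 = p
    · obtain ⟨e, he, hep⟩ := hex
      obtain ⟨g1, g2, g3, g4, g5⟩ := hMo e he hep
      have hpe : p ≠ e.2 := by rw [← hep]; exact hM3 e he e he
      have hsub : C2 ⊆ (emb R (addArc E p e.2)).filter (fun f => Uses R p e.2 f) := by
        intro f hf
        simp only [hC2, hC, mem_filter, mem_emb] at hf
        obtain ⟨⟨⟨hinj, hEf⟩, hp, hnot⟩, hinc⟩ := hf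
        have hall : ∀ a b, R a b → ¬ E (f a) (f b) → f a = p ∧ f b = e.2 := by
          intro a b hab hE
          have hMab : (f a, f b) ∈ Mo := by
            rcases hEf a b hab with h | h
            · exact absurd h hE
            · exact h
          rcases hinc a b hab hE with h | h
          · have := hM1 _ hMab e he (by simp [h, hep])
            exact ⟨h, congrArg Prod.snd this⟩
          · exact absurd (hep.trans h.symm) (hM3 e he _ hMab)
        rw [mem_filter, mem_emb]
        refine ⟨⟨hinj, ?_⟩, ?_⟩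
        · intro a b hab
          by_cases hE : E (f a) (f b)
          · exact Or.inl hE
          · exact Or.inr (hall a b hab hE)
        · have : ∃ a b, R a b ∧ ¬ E (f a) (f b) := by
            by_contra hcon
            push Not at hcon
            exact hnot ⟨hinj, hcon⟩
          obtain ⟨a, b, hab, hE⟩ := this
          exact ⟨a, b, hab, hall a b hab hE⟩
      have hth := through_bound R E p e.2 p' dout hdom g1 ho h0 g2 g3 hpe
        (Ne.symm hop) hpp' (Ne.symm hop') g5 g4
      have hle : ((emb R E).filter (fun f => Uses R p' dout f ∧ (∀ a, f a ≠ p) ∧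
          (∀ a, f a ≠ e.2))).card ≤ Hout.card := by
        apply card_le_card
        intro f hf
        rw [mem_filter] at hf
        rw [hHout, mem_filter]
        exact ⟨hf.1, hf.2.1, hf.2.2.1⟩
      have := card_le_card hsub
      have hmax := le_max_left Hout.card Hin.card
      omega
    · by_cases hex2 : ∃ e ∈ Mo, e.2 = p
      · obtain ⟨e, he, hep⟩ := hex2
        obtain ⟨g1, g2, g3, g4, g5⟩ := hMi e he hep
        have hpe : e.1 ≠ p := by rw [← hep]; exact hM3 e he e he
        have hsub : C2 ⊆ (emb R (addArc E e.1 p)).filter (fun f => Uses R e.1 p f) := by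
          intro f hf
          simp only [hC2, hC, mem_filter, mem_emb] at hf
          obtain ⟨⟨⟨hinj, hEf⟩, hp, hnot⟩, hinc⟩ := hf
          have hall : ∀ a b, R a b → ¬ E (f a) (f b) → f a = e.1 ∧ f b = p := by
            intro a b hab hE
            have hMab : (f a, f b) ∈ Mo := by
              rcases hEf a b hab with h | h
              · exact absurd h hE
              · exact h
            rcases hinc a b hab hE with h | h
            · exact absurd (h.trans hep.symm) (hM3 _ hMab e he)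
            · have := hM2 _ hMab e he (by simp [h, hep])
              exact ⟨congrArg Prod.fst this, h⟩
          rw [mem_filter, mem_emb]
          refine ⟨⟨hinj, ?_⟩, ?_⟩
          · intro a b hab
            by_cases hE : E (f a) (f b)
            · exact Or.inl hE
            · exact Or.inr (hall a b hab hE)
          · have : ∃ a b, R a b ∧ ¬ E (f a) (f b) := by
              by_contra hcon
              push Not at hcon
              exact hnot ⟨hinj, hcon⟩
            obtain ⟨a, b, hab, hE⟩ := this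
            exact ⟨a, b, hab, hall a b hab hE⟩
        have hth := through_bound R E e.1 p din p' g1 hdom hi g2 h0 g3 hpe
          hip g4 g5 (Ne.symm hip') hpp'
        have hle : ((emb R E).filter (fun f => Uses R din p' f ∧ (∀ a, f a ≠ e.1) ∧
            (∀ a, f a ≠ p))).card ≤ Hin.card := by
          apply card_le_card
          intro f hf
          rw [mem_filter] at hf
          rw [hHin, mem_filter]
          exact ⟨hf.1, hf.2.1, hf.2.2.2⟩
        have := card_le_card hsub
        have hmax := le_max_right Hout.card Hin.card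
        omega
      · have : C2 = ∅ := by
          rw [hC2, filter_eq_empty_iff]
          intro f hf hinc
          simp only [hC, mem_filter, mem_emb] at hf
          obtain ⟨⟨hinj, hEf⟩, hp, hnot⟩ := hf
          apply hnot
          refine ⟨hinj, ?_⟩
          intro a b hab
          by_contra hE
          have hMab : (f a, f b) ∈ Mo := by
            rcases hEf a b hab with h | h
            · exact absurd h hE
            · exact h
          rcases hinc a b hab hE with h | h
          · exact hex ⟨_, hMab, h⟩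
          · exact hex2 ⟨_, hMab, h⟩
        rw [this]
        simp
  have hCcard : C.card ≤ Mo.card * b3 + (2 * b3 + max Hout.card Hin.card) := by
    have := card_le_card hCsub
    have h2 := card_union_le C1 C2
    omega
  -- lower bound of H1
  have hHH : Hout ∪ Hin ⊆ H1 := by
    intro f hf
    rw [mem_union, hHout, hHin, mem_filter, mem_filter] at hf
    rw [hH1, mem_filter]
    rcases hf with ⟨hf, ⟨a, b, hab, ha, hb⟩, hp⟩ | ⟨hf, ⟨a, b, hab, ha, hb⟩, hp⟩
    · refine ⟨hf, ⟨a, ha⟩, hp, a, b, hab, Or.inl ⟨ha, ?_⟩⟩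
      rw [hb]; exact ho'
    · refine ⟨hf, ⟨b, hb⟩, hp, a, b, hab, Or.inr ⟨hb, ?_⟩⟩
      rw [ha]; exact hi'
  have hinter : (Hout ∩ Hin).card ≤ b3 := by
    refine card_bound3 p' dout din (Ne.symm hop) (Ne.symm hip) hd _ ?_
    intro f hf
    rw [mem_inter, hHout, hHin, mem_filter, mem_filter, mem_emb] at hf
    obtain ⟨⟨⟨hinj, _⟩, ⟨a, b, _, ha, hb⟩, _⟩, _, ⟨a', b', _, ha', hb'⟩, _⟩ := hf
    exact ⟨hinj, ⟨a, ha⟩, ⟨b, hb⟩, ⟨a', ha'⟩⟩
  have hHout' : L ≤ Hout.card + b3 := by
    have hs : (emb R E).filter (fun f => Uses R p' dout f) ⊆ Hout ∪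
        (emb R E).filter (fun f => Uses R p' dout f ∧ ∃ a, f a = p) := by
      intro f hf
      rw [mem_filter] at hf
      rw [mem_union, hHout, mem_filter, mem_filter]
      by_cases h : ∃ a, f a = p
      · exact Or.inr ⟨hf.1, hf.2, h⟩
      · push Not at h
        exact Or.inl ⟨hf.1, hf.2, h⟩
    have hb : ((emb R E).filter (fun f => Uses R p' dout f ∧ ∃ a, f a = p)).card ≤ b3 := by
      refine card_bound3 p' dout p (Ne.symm hop) (Ne.symm hpp') hop' _ ?_
      intro f hf
      rw [mem_filter, mem_emb] at hf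
      obtain ⟨⟨hinj, _⟩, ⟨a, b, _, ha, hb⟩, hp⟩ := hf
      exact ⟨hinj, ⟨a, ha⟩, ⟨b, hb⟩, hp⟩
    have h3 := card_le_card hs
    have h4 := card_union_le Hout
      ((emb R E).filter (fun f => Uses R p' dout f ∧ ∃ a, f a = p))
    omega
  have hHin' : L ≤ Hin.card + b3 := by
    have hs : (emb R E).filter (fun f => Uses R din p' f) ⊆ Hin ∪
        (emb R E).filter (fun f => Uses R din p' f ∧ ∃ a, f a = p) := by
      intro f hf
      rw [mem_filter] at hf
      rw [mem_union, hHin, mem_filter, mem_filter]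
      by_cases h : ∃ a, f a = p
      · exact Or.inr ⟨hf.1, hf.2, h⟩
      · push Not at h
        exact Or.inl ⟨hf.1, hf.2, h⟩
    have hb : ((emb R E).filter (fun f => Uses R din p' f ∧ ∃ a, f a = p)).card ≤ b3 := by
      refine card_bound3 p' din p (Ne.symm hip) (Ne.symm hpp') hip' _ ?_
      intro f hf
      rw [mem_filter, mem_emb] at hf
      obtain ⟨⟨hinj, _⟩, ⟨a, b, _, ha, hb⟩, hp⟩ := hf
      exact ⟨hinj, ⟨b, hb⟩, ⟨a, ha⟩, hp⟩
    have h3 := card_le_card hs
    have h4 := card_union_le Hin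
      ((emb R E).filter (fun f => Uses R din p' f ∧ ∃ a, f a = p))
    omega
  have hH1card : Hout.card + Hin.card ≤ H1.card + b3 := by
    have h3 := card_le_card hHH
    have h4 := card_union_add_card_inter Hout Hin
    omega
  have hL' : Mo.card * b3 + 4 * b3 < L := by
    have : (Mo.card + 4) * b3 = Mo.card * b3 + 4 * b3 := by ring
    omega
  rcases le_total Hout.card Hin.card with hle | hle
  · rw [max_eq_right hle] at hCcard
    omega
  · rw [max_eq_left hle] at hCcard
    omega

end Pool.Agent.H48.FIrr
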