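import Mathlib
import Pool.Agent.H48.FIrrLevel

namespace Pool.Agent.H48.FIrr

open Finset Function

variable {W : Type*} [Fintype W]
variable {Γ : Type*} [AddCommGroup Γ] [Fintype Γ]

/-- The base relation on levels times phases. -/
def E0 (S al : Set Γ) (N : ℕ) (p p' : Fin N × Γ) : Prop :=
  p'.2 - p.2 ∈ S ∧ (p'.2 - p.2 ∈ al → N ≤ p.1.val + p'.1.val + 1)

theorem cnt_mono {V : Type*} [Fintype V] (R : W → W → Prop) (E E' : V → V → Prop)
    (h : ∀ u v, E u v → E' u v) (p : V) : cnt R E p ≤ cnt R E' p := by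
  classical
  rw [cnt_eq_card, cnt_eq_card]
  apply card_le_card
  intro f hf
  rw [mem_filter, mem_emb] at hf ⊢
  exact ⟨⟨hf.1.1, fun a b hab => h _ _ (hf.1.2 a b hab)⟩, hf.2⟩

theorem cnt_E0_trans (R : W → W → Prop) (S al : Set Γ) (N : ℕ) (i : Fin N) (γ γ' : Γ) :
    cnt R (E0 S al N) (i, γ) = cnt R (E0 S al N) (i, γ') := by
  have h := cnt_congr_right
    (Equiv.prodCongr (Equiv.refl (Fin N)) (Equiv.addRight (γ' - γ))) R (E0 S al N)
    (E0 S al N) (by
      intro a b
      simp [E0]) (i, γ)
  rw [h]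
  congr 1
  simp

theorem E0_dom (S al : Set Γ) (N : ℕ) (i j : Fin N) (γ : Γ) (hij : i.val ≤ j.val) :
    Dom (E0 S al N) (i, γ) (j, γ) := by
  intro v
  constructor
  · rintro ⟨h1, h2⟩
    refine ⟨h1, fun h => ?_⟩
    have := h2 h
    simp only at this ⊢
    omega
  · rintro ⟨h1, h2⟩
    refine ⟨h1, fun h => ?_⟩
    have := h2 h
    simp only at this ⊢
    omega

theorem E0_same (S al : Set Γ) (hS : ∀ s ∈ S, -s ∉ S) (N : ℕ) (p p' : Fin N × Γ)
    (h : p.2 = p'.2) : ¬ E0 S al N p p' := by
  rintro ⟨h1, _⟩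
  rw [h, sub_self] at h1
  have := hS 0 h1
  rw [neg_zero] at this
  exact this h1

/-- The canonical potential. -/
structure Canon (R : W → W → Prop) (S al : Set Γ) (α : Γ) (ψ : W → Γ) (v0 w0 : W) : Prop where
  inj : Injective ψ
  hom : ∀ a b, R a b → ψ b - ψ a ∈ S
  arc : R v0 w0
  diff : ψ w0 - ψ v0 = α
  only : ∀ a b, R a b → ψ b - ψ a ∈ al → a = v0 ∧ b = w0

open Classical in
theorem canon_lower (R : W → W → Prop) (S al : Set Γ) (N : ℕ) (α : Γ)
    (ψ : W → Γ) (v0 w0 : W) (hc : Canon R S al α ψ v0 w0) (hne : v0 ≠ w0)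
    (i j : Fin N) (γ γ' : Γ) (hγ : γ' = γ + α) (hij : N ≤ i.val + j.val + 1)
    (hk : 2 ≤ Fintype.card W) :
    N ^ (Fintype.card W - 2) ≤
      ((emb R (E0 S al N)).filter (fun f => Uses R (i, γ) (j, γ') f)).card := by
  have hN : 0 < N := lt_of_le_of_lt (Nat.zero_le _) i.2
  have key : (univ : Finset (W → Fin N)).card ≤
      (((emb R (E0 S al N)).filter (fun f => Uses R (i, γ) (j, γ') f)) ×ˢ
        (univ : Finset (Fin N × Fin N))).card := by
    refine card_le_card_of_injOn (fun l => (fun a =>
      ((if a = v0 then i else if a = w0 then j else l a), γ + (ψ a - ψ v0)), (l v0, l w0)))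
      ?_ ?_
    · intro l _
      simp only [coe_product, coe_filter, coe_univ, Set.mem_prod, Set.mem_setOf_eq,
        Set.mem_univ, and_true]
      refine ⟨?_, ?_⟩
      · rw [mem_emb]
        refine ⟨?_, ?_⟩
        · intro a b hab
          simp only [Prod.mk.injEq] at hab
          have h2 := hab.2
          apply hc.inj
          have := add_left_cancel h2
          exact sub_left_injective this
        · intro a b hab
          refine ⟨?_, ?_⟩
          · simp only
            have := hc.hom a b hab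
            have e : γ + (ψ b - ψ v0) - (γ + (ψ a - ψ v0)) = ψ b - ψ a := by abel
            rw [e]
            exact this
          · simp only
            have e : γ + (ψ b - ψ v0) - (γ + (ψ a - ψ v0)) = ψ b - ψ a := by abel
            rw [e]
            intro hal
            obtain ⟨rfl, rfl⟩ := hc.only a b hab hal
            simp only [if_true]
            rw [if_neg (Ne.symm hne)]
            exact hij
      · refine ⟨v0, w0, hc.arc, ?_, ?_⟩
        · simp
        · simp only [if_true]
          rw [if_neg (Ne.symm hne), hγ, ← hc.diff]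
    · intro l _ l' _ hll
      simp only [Prod.mk.injEq] at hll
      obtain ⟨h1, h2, h3⟩ := hll
      funext a
      by_cases ha : a = v0
      · rw [ha]; exact h2
      · by_cases ha' : a = w0
        · rw [ha']; exact h3
        · have := congrFun h1 a
          simp only [Prod.mk.injEq, if_neg ha, if_neg ha'] at this
          exact this.1
  rw [card_product, card_univ, card_univ, Fintype.card_fun, Fintype.card_prod,
    Fintype.card_fin] at key
  have hpow : N ^ Fintype.card W = N ^ (Fintype.card W - 2) * (N * N) := by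
    rw [← pow_two, ← pow_add]
    congr 1
    omega
  rw [hpow] at key
  exact Nat.le_of_mul_le_mul_right key (Nat.mul_pos hN hN)

theorem level_sep (R : W → W → Prop) (S al : Set Γ) (N : ℕ) (α : Γ)
    (hS : ∀ s ∈ S, -s ∉ S) (hα : α ∈ al) (hαS : α ∈ S)
    (ψ : W → Γ) (v0 w0 : W) (hc : Canon R S al α ψ v0 w0) (hne : v0 ≠ w0)
    (hk : 2 ≤ Fintype.card W)
    (Mo : Finset ((Fin N × Γ) × (Fin N × Γ)))
    (hM0 : ∀ e ∈ Mo, e.2.2 = e.1.2 + α ∧ e.1.1.val + e.2.1.val + 2 < N)
    (hM1 : ∀ e ∈ Mo, ∀ e' ∈ Mo, e.1 = e'.1 → e = e')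
    (hM2 : ∀ e ∈ Mo, ∀ e' ∈ Mo, e.2 = e'.2 → e = e')
    (hM3 : ∀ e ∈ Mo, ∀ e' ∈ Mo, e.1 ≠ e'.2)
    (hN : (Mo.card + 4) * bd (Fin N × Γ) W 3 < N ^ (Fintype.card W - 2))
    (i : ℕ) (hi : i + 1 < N) (γ γ' : Γ) :
    cnt R (addSet (E0 S al N) Mo) ((⟨i, by omega⟩ : Fin N), γ) <
      cnt R (addSet (E0 S al N) Mo) ((⟨i + 1, hi⟩ : Fin N), γ') := by
  have hα0 : α ≠ 0 := by
    rintro rfl
    have := hS 0 hαS
    rw [neg_zero] at this
    exact this hαS
  have hαα : α ≠ -α := by
    intro h
    have := hS α hαS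
    rw [← h] at this
    exact this hαS
  haveI : Nonempty (Fin N × Γ) := ⟨(⟨i, by omega⟩, γ)⟩
  have hmain : cnt R (addSet (E0 S al N) Mo) ((⟨i, by omega⟩ : Fin N), γ) <
      cnt R (E0 S al N) ((⟨i + 1, hi⟩ : Fin N), γ) := by
    have q1 : γ ≠ γ + α := by
      intro h
      exact hα0 (by simpa using h)
    have q2 : γ ≠ γ - α := by
      intro h
      exact hα0 (sub_eq_self.1 h.symm)
    have q3 : γ + α ≠ γ - α := by
      intro h
      rw [sub_eq_add_neg] at h
      exact hαα (add_left_cancel h)
    refine level_lt_abs R (E0 S al N) Mo ((⟨i, by omega⟩ : Fin N), γ)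
      ((⟨i + 1, hi⟩ : Fin N), γ) ((⟨N - 2 - i, by omega⟩ : Fin N), γ + α)
      ((⟨N - 2 - i, by omega⟩ : Fin N), γ - α) ?_ ?_ ?_ ?_ ?_ ?_ ?_ ?_ ?_ hM1 hM2 hM3 ?_ ?_
      ?_ ?_ ?_ ?_ ?_ (N ^ (Fintype.card W - 2)) ?_ ?_ hN
    · intro h
      have := congrArg (fun x => x.1.val) h
      simp at this
    · exact E0_dom S al N _ _ γ (by simp)
    · exact E0_same S al hS N _ _ rfl
    · exact E0_same S al hS N _ _ rfl
    · exact E0_same S al hS N _ _ rfl
    · refine ⟨by simpa using hαS, fun _ => ?_⟩
      simp only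
      omega
    · rintro ⟨_, h2⟩
      have := h2 (by simpa using hα)
      simp only at this
      omega
    · refine ⟨by simpa using hαS, fun _ => ?_⟩
      simp only
      omega
    · rintro ⟨_, h2⟩
      have := h2 (by simpa using hα)
      simp only at this
      omega
    · intro e he hep
      obtain ⟨h1, h2⟩ := hM0 e he
      obtain ⟨e1, ⟨z1, z2⟩⟩ := e
      simp only at h1 h2 hep ⊢
      subst hep
      simp only at h1 h2 ⊢
      subst h1
      refine ⟨?_, ?_, ?_, ?_, ?_⟩
      · exact E0_dom S al N _ _ _ (by simp only; omega)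
      · exact E0_same S al hS N _ _ rfl
      · rintro ⟨h3, _⟩
        simp only [sub_add_cancel_left] at h3
        exact hS α hαS h3
      · intro h
        have := congrArg (fun x => x.1.val) h
        simp only at this
        omega
      · intro h
        have := congrArg (fun x => x.2) h
        simp only at this
        exact q1 this.symm
    · intro e he hep
      obtain ⟨h1, h2⟩ := hM0 e he
      obtain ⟨⟨z1, z2⟩, e2⟩ := e
      simp only at h1 h2 hep ⊢
      subst hep
      simp only at h1 h2 ⊢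
      have hz2 : z2 = γ - α := by rw [h1]; abel
      subst hz2
      refine ⟨?_, ?_, ?_, ?_, ?_⟩
      · exact E0_dom S al N _ _ _ (by simp only; omega)
      · exact E0_same S al hS N _ _ rfl
      · rintro ⟨h3, _⟩
        simp only [sub_sub_cancel_left] at h3
        exact hS α hαS h3
      · intro h
        have := congrArg (fun x => x.1.val) h
        simp only at this
        omega
      · intro h
        have := congrArg (fun x => x.2) h
        simp only at this
        exact q2 this.symm
    · intro h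
      have := congrArg (fun x => x.2) h
      exact q3 this
    · intro h
      have := congrArg (fun x => x.2) h
      exact q1 this.symm
    · intro h
      have := congrArg (fun x => x.2) h
      exact q2 this.symm
    · intro h
      have := congrArg (fun x => x.2) h
      exact q1 this.symm
    · intro h
      have := congrArg (fun x => x.2) h
      exact q2 this.symm
    · exact canon_lower R S al N α ψ v0 w0 hc hne _ _ γ (γ + α) rfl (by simp only; omega) hk
    · exact canon_lower R S al N α ψ v0 w0 hc hne _ _ (γ - α) γ (by abel)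
        (by simp only; omega) hk
  calc _ < cnt R (E0 S al N) ((⟨i + 1, hi⟩ : Fin N), γ) := hmain
    _ = cnt R (E0 S al N) ((⟨i + 1, hi⟩ : Fin N), γ') := cnt_E0_trans R S al N _ γ γ'
    _ ≤ _ := cnt_mono R _ _ (fun u v h => Or.inl h) _

end Pool.Agent.H48.FIrr
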