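import Mathlib

namespace Pool.Agent.H48.FIrr

open Function

variable {P : ℕ} [NeZero P]

theorem vma_cast (z : ℤ) (hz : 2 * |z| < P) : ((z : ZMod P)).valMinAbs = z := by
  rw [ZMod.valMinAbs_spec]
  refine ⟨rfl, ?_, ?_⟩
  · have := neg_abs_le z
    linarith
  · have := le_abs_self z
    linarith

theorem abs_vma_add_le (a b : ZMod P) :
    |(a + b).valMinAbs| ≤ |a.valMinAbs| + |b.valMinAbs| := by
  have h := ZMod.natAbs_valMinAbs_add_le a b
  have h2 := Int.natAbs_add_le a.valMinAbs b.valMinAbs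
  rw [Int.abs_eq_natAbs, Int.abs_eq_natAbs, Int.abs_eq_natAbs]
  exact_mod_cast h.trans h2

theorem abs_vma_cast_le (z : ℤ) : |((z : ZMod P)).valMinAbs| ≤ |z| := by
  rw [Int.abs_eq_natAbs, Int.abs_eq_natAbs]
  have := ZMod.natAbs_min_of_le_div_two P ((z : ZMod P)).valMinAbs z (by simp)
    (ZMod.natAbs_valMinAbs_le _)
  exact_mod_cast this

theorem vma_neg (hP : Odd P) (a : ZMod P) : (-a).valMinAbs = -a.valMinAbs := by
  apply ZMod.valMinAbs_neg_of_ne_half
  intro h
  rw [← h] at hP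
  exact (Nat.not_odd_iff_even.2 (even_two_mul _)) hP

theorem abs_vma_neg (a : ZMod P) : |(-a).valMinAbs| = |a.valMinAbs| := by
  rw [Int.abs_eq_natAbs, Int.abs_eq_natAbs, ZMod.natAbs_valMinAbs_neg]

theorem two_vma_le (a : ZMod P) : 2 * |a.valMinAbs| ≤ P := by
  have := ZMod.natAbs_valMinAbs_le a
  rw [Int.abs_eq_natAbs]
  have h2 : 2 * (P / 2) ≤ P := Nat.mul_div_le P 2
  have : 2 * a.valMinAbs.natAbs ≤ P := by omega
  exact_mod_cast this

/-- difference of small residues -/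
theorem vma_sub (a b : ZMod P) (K : ℤ) (ha : |a.valMinAbs| ≤ K) (hb : |b.valMinAbs| ≤ K)
    (hK : 4 * K < P) : (a - b).valMinAbs = a.valMinAbs - b.valMinAbs := by
  rw [ZMod.valMinAbs_spec]
  refine ⟨by simp, ?_, ?_⟩
  · have h1 := neg_abs_le a.valMinAbs
    have h2 := le_abs_self b.valMinAbs
    linarith
  · have h1 := le_abs_self a.valMinAbs
    have h2 := neg_abs_le b.valMinAbs
    linarith

/-- The weight: a lexicographic order on `ZMod P × ZMod P`. -/
def wt (g : ZMod P × ZMod P) : ℤ := g.1.valMinAbs + P * g.2.valMinAbs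

theorem wt_neg (hP : Odd P) (g : ZMod P × ZMod P) : wt (-g) = - wt g := by
  unfold wt
  rw [Prod.fst_neg, Prod.snd_neg, vma_neg hP, vma_neg hP]
  ring

theorem wt_ne_zero (hP : Odd P) (g : ZMod P × ZMod P) (hg : g ≠ 0) : wt g ≠ 0 := by
  intro h
  unfold wt at h
  have h1 := two_vma_le g.1
  have hP0 : (0 : ℤ) < P := by
    have : 0 < P := Nat.pos_of_ne_zero (NeZero.ne P)
    exact_mod_cast this
  have h3 : 2 * |g.1.valMinAbs| ≠ P := by
    intro h4
    have : (2 * g.1.valMinAbs.natAbs : ℤ) = P := by rw [← Int.abs_eq_natAbs]; exact h4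
    have h5 : 2 * g.1.valMinAbs.natAbs = P := by exact_mod_cast this
    rw [← h5] at hP
    exact (Nat.not_odd_iff_even.2 (even_two_mul _)) hP
  have h2 : g.2.valMinAbs = 0 := by
    by_contra h2
    have h5 : 1 ≤ |g.2.valMinAbs| := Int.one_le_abs h2
    have h6 : g.1.valMinAbs = - (P * g.2.valMinAbs) := by linarith
    have h7 : |g.1.valMinAbs| = P * |g.2.valMinAbs| := by
      rw [h6, abs_neg, abs_mul, abs_of_pos hP0]
    nlinarith
  rw [h2] at h
  have h1' : g.1.valMinAbs = 0 := by linarith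
  apply hg
  rw [ZMod.valMinAbs_eq_zero] at h1' h2
  exact Prod.ext h1' h2

theorem wt_sub (a b : ZMod P × ZMod P) (K : ℤ) (ha : |a.1.valMinAbs| ≤ K)
    (ha' : |a.2.valMinAbs| ≤ K) (hb : |b.1.valMinAbs| ≤ K) (hb' : |b.2.valMinAbs| ≤ K)
    (hK : 4 * K < P) : wt (a - b) = wt a - wt b := by
  unfold wt
  rw [Prod.fst_sub, Prod.snd_sub, vma_sub _ _ K ha hb hK, vma_sub _ _ K ha' hb' hK]
  ring

theorem pow_sidon_aux (a b c d : ℕ) (h : 2 ^ a + 2 ^ b = 2 ^ c + 2 ^ d) (h1 : a ≤ b)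
    (h2 : c ≤ d) : a = c ∧ b = d := by
  have key : ∀ a b c d : ℕ, 2 ^ a + 2 ^ b = 2 ^ c + 2 ^ d → a ≤ b → c ≤ d → a < c → False := by
    intro a b c d h h1 h2 h3
    obtain ⟨s, rfl⟩ := Nat.exists_eq_add_of_lt h3
    obtain ⟨r, rfl⟩ := Nat.exists_eq_add_of_le h1
    obtain ⟨t, rfl⟩ := Nat.exists_eq_add_of_le h2
    have e : 2 ^ a * (1 + 2 ^ r) = 2 ^ a * (2 ^ (s + 1) * (1 + 2 ^ t)) := by
      rw [show a + s + 1 + t = a + (s + 1) + t by ring] at h
      rw [show a + s + 1 = a + (s + 1) by ring] at h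
      rw [pow_add, pow_add _ (a + (s + 1)), pow_add] at h
      linarith
    have e2 : 1 + 2 ^ r = 2 ^ (s + 1) * (1 + 2 ^ t) :=
      Nat.eq_of_mul_eq_mul_left (by positivity) e
    rcases Nat.eq_zero_or_pos r with rfl | hr
    · have h4 : 1 ≤ 2 ^ t := Nat.one_le_two_pow
      have h5 : 2 ≤ 2 ^ (s + 1) := by
        rw [pow_succ]
        have : 1 ≤ 2 ^ s := Nat.one_le_two_pow
        omega
      have h6 : 2 * (1 + 1) ≤ 2 ^ (s + 1) * (1 + 2 ^ t) := Nat.mul_le_mul h5 (by omega)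
      rw [← e2] at h6
      norm_num at h6
    · have h7 : 2 ∣ 2 ^ (s + 1) * (1 + 2 ^ t) := Dvd.dvd.mul_right (dvd_pow_self 2 (by omega)) _
      rw [← e2] at h7
      have h8 : 2 ∣ 2 ^ r := dvd_pow_self 2 (by omega)
      omega
  rcases lt_trichotomy a c with h3 | h3 | h3
  · exact (key a b c d h h1 h2 h3).elim
  · subst h3
    refine ⟨rfl, ?_⟩
    have : 2 ^ b = 2 ^ d := by omega
    exact Nat.pow_right_injective (le_refl 2) this
  · exact (key c d a b h.symm h2 h1 h3).elim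

theorem pow_sidon (a b c d : ℕ) (h : 2 ^ a + 2 ^ b = 2 ^ c + 2 ^ d) :
    (a = c ∧ b = d) ∨ (a = d ∧ b = c) := by
  rcases le_total a b with h1 | h1 <;> rcases le_total c d with h2 | h2
  · exact Or.inl (pow_sidon_aux a b c d h h1 h2)
  · exact Or.inr (pow_sidon_aux a b d c (by omega) h1 h2)
  · have := pow_sidon_aux b a c d (by omega) h1 h2
    exact Or.inr ⟨this.2, this.1⟩
  · have := pow_sidon_aux b a d c (by omega) h1 h2
    exact Or.inl ⟨this.2, this.1⟩

/-- Potentials with small steps along a walk. -/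
theorem walk_bound {W : Type*} (G : SimpleGraph W) (g : W → ZMod P) (C : ℤ)
    (hg : ∀ a b, G.Adj a b → |(g b - g a).valMinAbs| ≤ C) {a b : W} (p : G.Walk a b) :
    |(g b - g a).valMinAbs| ≤ C * p.length := by
  induction p with
  | nil => simp
  | @cons a c b h p ih =>
    have e : g b - g a = (g b - g c) + (g c - g a) := by ring
    rw [e]
    have h1 := abs_vma_add_le (g b - g c) (g c - g a)
    have h2 := hg _ _ h
    rw [SimpleGraph.Walk.length_cons]
    push_cast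
    linarith

theorem dist_bound {W : Type*} (G : SimpleGraph W) (hG : G.Connected)
    (g : W → ZMod P) (C : ℤ)
    (hg : ∀ a b, G.Adj a b → |(g b - g a).valMinAbs| ≤ C) (a b : W) :
    |(g b - g a).valMinAbs| ≤ C * G.dist a b := by
  obtain ⟨p, hp⟩ := hG.exists_walk_length_eq_dist a b
  rw [← hp]
  exact walk_bound G g C hg p

theorem dist_le_card {W : Type*} [Fintype W] (G : SimpleGraph W) (hG : G.Connected) (a b : W) :
    G.dist a b ≤ Fintype.card W := by
  obtain ⟨p, hp, hl⟩ := hG.exists_path_of_dist a b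
  rw [← hl]
  exact hp.length_lt.le

end Pool.Agent.H48.FIrr
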