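import Mathlib
import Pool.Agent.H48.FIrrBase
import Pool.Agent.H48.FIrrZMod

namespace Pool.Agent.H48.FIrr

open Function

variable {W : Type*} [Fintype W]

/-- A configuration. -/
structure Config {Γ : Type*} [AddCommGroup Γ] (R : W → W → Prop) (S al : Set Γ) (α : Γ)
    (ψ : W → Γ) (v w y : W) : Prop where
  hom : ∀ a b, R a b → ψ b - ψ a ∈ S
  arc : R v w
  diff : ψ w - ψ v = α
  vy : (R v y ∧ ψ y - ψ v ∈ al) ∨ (R y v ∧ ψ v - ψ y ∈ al)
  yw : y ≠ w
  wy : (R w y → ψ y - ψ w ∉ al) ∧ (R y w → ψ w - ψ y ∉ al)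

/-- The Sidon potential. -/
def ph (idx : W → ℕ) (a : W) : ℤ := 2 ^ idx a

/-- The types of arcs. -/
def SS (P : ℕ) (R : W → W → Prop) (idx : W → ℕ) : Set (ZMod P × ZMod P) :=
  {s | ∃ a b, R a b ∧ s.1 = ((ph idx b - ph idx a : ℤ) : ZMod P) ∧
    (s.2 = 0 ∨ s.2 = 1 ∨ s.2 = -1)}

/-- The type of the arc from `x` to `y`. -/
def ty (P : ℕ) (idx : W → ℕ) (x y : W) : ZMod P × ZMod P :=
  (((ph idx y - ph idx x : ℤ) : ZMod P), 0)

open Classical in
/-- The staircase types. -/
noncomputable def alS (P : ℕ) (R : W → W → Prop) (idx : W → ℕ) (v0 w0 y0 : W) :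
    Set (ZMod P × ZMod P) :=
  {ty P idx v0 w0, if R v0 y0 then ty P idx v0 y0 else ty P idx y0 v0}

section

variable {P : ℕ} [NeZero P] (R : W → W → Prop) (idx : W → ℕ)

theorem ph_abs (hidx : ∀ a, idx a < Fintype.card W) (a b : W) :
    |ph idx b - ph idx a| ≤ 2 ^ Fintype.card W := by
  have h1 : (0 : ℤ) < 2 ^ idx a := by positivity
  have h2 : (0 : ℤ) < 2 ^ idx b := by positivity
  have h3 : (2 : ℤ) ^ idx a ≤ 2 ^ Fintype.card W :=
    pow_le_pow_right₀ (by norm_num) (hidx a).le
  have h4 : (2 : ℤ) ^ idx b ≤ 2 ^ Fintype.card W :=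
    pow_le_pow_right₀ (by norm_num) (hidx b).le
  unfold ph
  rw [abs_le]
  constructor <;> linarith

variable (hinj : Injective idx) (hidx : ∀ a, idx a < Fintype.card W)
  (hP : 4 * (2 ^ Fintype.card W * (Fintype.card W + 1)) < P) (hPo : Odd P)

include hinj hidx hP in
theorem diff_inj (a b c d : W) (hab : a ≠ b)
    (h : ((ph idx b - ph idx a : ℤ) : ZMod P) = ((ph idx d - ph idx c : ℤ) : ZMod P)) :
    a = c ∧ b = d := by
  have hb : ∀ x y, 2 * |ph idx y - ph idx x| < (P : ℤ) := by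
    intro x y
    have h1 := ph_abs idx hidx x y
    have h2 : (4 * (2 ^ Fintype.card W * (Fintype.card W + 1)) : ℤ) < P := by exact_mod_cast hP
    have h3 : (0 : ℤ) < 2 ^ Fintype.card W := by positivity
    have h4 : (0 : ℤ) ≤ Fintype.card W := by positivity
    nlinarith
  have e : ph idx b - ph idx a = ph idx d - ph idx c := by
    rw [← vma_cast (P := P) (ph idx b - ph idx a) (hb _ _), h, vma_cast _ (hb _ _)]
  unfold ph at e
  have e2 : (2 : ℤ) ^ idx b + 2 ^ idx c = 2 ^ idx d + 2 ^ idx a := by linarith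
  have e3 : 2 ^ idx b + 2 ^ idx c = 2 ^ idx d + 2 ^ idx a := by exact_mod_cast e2
  rcases pow_sidon _ _ _ _ e3 with ⟨h1, h2⟩ | ⟨h1, h2⟩
  · exact ⟨(hinj h2).symm, hinj h1⟩
  · exact absurd (hinj h1).symm hab

include hinj hidx hP in
theorem SS_neg (hR : ∀ a b, R a b → ¬ R b a) : ∀ s ∈ SS P R idx, -s ∉ SS P R idx := by
  rintro s ⟨a, b, hab, h1, _⟩ ⟨c, d, hcd, h2, _⟩
  have hne : b ≠ a := by
    rintro rfl
    exact hR _ _ hab hab
  rw [Prod.fst_neg, h1] at h2
  have h3 : ((ph idx a - ph idx b : ℤ) : ZMod P) = ((ph idx d - ph idx c : ℤ) : ZMod P) := by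
    rw [← h2]; push_cast; ring
  obtain ⟨rfl, rfl⟩ := diff_inj idx hinj hidx hP b a c d hne h3
  exact hR _ _ hab hcd

theorem ty_mem_SS (x y : W) (h : R x y) : ty P idx x y ∈ SS P R idx :=
  ⟨x, y, h, rfl, Or.inl rfl⟩

theorem alS_snd (v0 w0 y0 : W) : ∀ s ∈ alS P R idx v0 w0 y0, s.2 = 0 := by
  intro s hs
  unfold alS at hs
  rcases hs with rfl | rfl
  · rfl
  · split_ifs <;> rfl

theorem one_ne_zero' (hP : 4 * (2 ^ Fintype.card W * (Fintype.card W + 1)) < P) :
    (1 : ZMod P) ≠ 0 := by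
  haveI : Fact (1 < P) := ⟨by
    have : 1 ≤ 2 ^ Fintype.card W := Nat.one_le_two_pow
    nlinarith⟩
  exact one_ne_zero

open Classical in
include hinj hidx hP in
theorem canon_exists (hR : ∀ a b, R a b → ¬ R b a) (v0 w0 y0 : W) (h1 : R v0 w0)
    (h2 : R v0 y0 ∨ R y0 v0) (hyw : y0 ≠ w0) :
    Canon R (SS P R idx) (alS P R idx v0 w0 y0) (ty P idx v0 w0)
      (fun a => (((ph idx a : ℤ) : ZMod P), if a = y0 then 1 else 0)) v0 w0 := by
  have hirr : ∀ a, ¬ R a a := fun a h => hR a a h h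
  have h10 : (1 : ZMod P) ≠ 0 := one_ne_zero' (W := W) hP
  have hvy : v0 ≠ y0 := by
    rintro rfl
    exact hirr _ (h2.elim id id)
  have hvw : v0 ≠ w0 := by
    rintro rfl
    exact hirr _ h1
  constructor
  · intro a b hab
    simp only [Prod.mk.injEq] at hab
    by_contra hne
    have hA : (((ph idx b - ph idx a : ℤ)) : ZMod P) = ((ph idx a - ph idx a : ℤ) : ZMod P) := by
      push_cast
      rw [hab.1]
    have := diff_inj idx hinj hidx hP a b a a hne hA
    exact hne this.2.symm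
  · intro a b hab
    refine ⟨a, b, hab, ?_, ?_⟩
    · simp
    · simp only [Prod.snd_sub]
      split_ifs <;> simp
  · exact h1
  · ext
    · simp [ty]
    · simp only [Prod.snd_sub, ty, if_neg hvy, if_neg (Ne.symm hyw)]
      simp
  · intro a b hab hal
    have hne : a ≠ b := by
      rintro rfl
      exact hirr _ hab
    rcases hal with hal | hal
    · have := congrArg Prod.fst hal
      simp only [Prod.fst_sub, ty] at this
      have hA : (((ph idx b - ph idx a : ℤ)) : ZMod P) =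
          ((ph idx w0 - ph idx v0 : ℤ) : ZMod P) := by
        rw [← this]; push_cast; ring
      have := diff_inj idx hinj hidx hP a b v0 w0 hne hA
      exact this
    · exfalso
      have hal' : _ = _ := hal
      by_cases hv : R v0 y0
      · rw [if_pos hv] at hal'
        have h3 := congrArg Prod.fst hal'
        have h4 := congrArg Prod.snd hal'
        simp only [Prod.fst_sub, Prod.snd_sub, ty] at h3 h4
        have hA : (((ph idx b - ph idx a : ℤ)) : ZMod P) =
            ((ph idx y0 - ph idx v0 : ℤ) : ZMod P) := by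
          rw [← h3]; push_cast; ring
        obtain ⟨rfl, rfl⟩ := diff_inj idx hinj hidx hP a b v0 y0 hne hA
        rw [if_pos rfl, if_neg hvy, sub_zero] at h4
        exact h10 h4
      · rw [if_neg hv] at hal'
        have h3 := congrArg Prod.fst hal'
        have h4 := congrArg Prod.snd hal'
        simp only [Prod.fst_sub, Prod.snd_sub, ty] at h3 h4
        have hA : (((ph idx b - ph idx a : ℤ)) : ZMod P) =
            ((ph idx v0 - ph idx y0 : ℤ) : ZMod P) := by
          rw [← h3]; push_cast; ring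
        obtain ⟨rfl, rfl⟩ := diff_inj idx hinj hidx hP a b y0 v0 hne hA
        rw [if_pos rfl, if_neg hvy, zero_sub, neg_eq_zero] at h4
        exact h10 h4

open Classical in
include hinj hidx hP in
theorem config_exists (hR : ∀ a b, R a b → ¬ R b a) (v0 w0 y0 : W) (h1 : R v0 w0)
    (h2 : R v0 y0 ∨ R y0 v0) (hyw : y0 ≠ w0) :
    Config R (SS P R idx) (alS P R idx v0 w0 y0) (ty P idx v0 w0)
      (fun a => (((ph idx a : ℤ) : ZMod P), 0)) v0 w0 y0 := by
  have hirr : ∀ a, ¬ R a a := fun a h => hR a a h h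
  have hvy : v0 ≠ y0 := by
    rintro rfl
    exact hirr _ (h2.elim id id)
  have hvw : v0 ≠ w0 := by
    rintro rfl
    exact hirr _ h1
  have hty : ∀ a b : W, ((fun a => (((ph idx a : ℤ) : ZMod P), (0 : ZMod P))) b -
      (fun a => (((ph idx a : ℤ) : ZMod P), (0 : ZMod P))) a) = ty P idx a b := by
    intro a b
    simp [ty]
  have htyinj : ∀ a b c d : W, a ≠ b → ty P idx a b = ty P idx c d → a = c ∧ b = d := by
    intro a b c d hne h
    exact diff_inj idx hinj hidx hP a b c d hne (congrArg Prod.fst h)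
  have key : ∀ a b : W, a ≠ b → ty P idx a b ∈ alS P R idx v0 w0 y0 →
      (a = v0 ∧ b = w0) ∨ (a = v0 ∧ b = y0) ∨ (a = y0 ∧ b = v0) := by
    intro a b hne h
    rcases h with h | h
    · exact Or.inl (htyinj _ _ _ _ hne h)
    · have h' : _ = _ := h
      split_ifs at h' with hv
      · exact Or.inr (Or.inl (htyinj _ _ _ _ hne h'))
      · exact Or.inr (Or.inr (htyinj _ _ _ _ hne h'))
  constructor
  · intro a b hab
    rw [hty]
    exact ty_mem_SS R idx a b hab
  · exact h1
  · rw [hty]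
  · by_cases hv : R v0 y0
    · left
      refine ⟨hv, ?_⟩
      rw [hty]
      right
      simp [if_pos hv]
    · right
      refine ⟨h2.resolve_left hv, ?_⟩
      rw [hty]
      right
      simp [if_neg hv]
  · exact hyw
  · constructor
    · intro _ h
      rw [hty] at h
      rcases key _ _ (Ne.symm hyw) h with ⟨h3, _⟩ | ⟨h3, _⟩ | ⟨h3, _⟩
      · exact hvw h3.symm
      · exact hvw h3.symm
      · exact hyw h3.symm
    · intro _ h
      rw [hty] at h
      rcases key _ _ hyw h with ⟨h3, _⟩ | ⟨h3, _⟩ | ⟨_, h3⟩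
      · exact hvy h3.symm
      · exact hvy h3.symm
      · exact hvw h3.symm

end

end Pool.Agent.H48.FIrr
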