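import Mathlib
import Pool.Agent.H48.FIrrConfig

namespace Pool.Agent.H48.FIrr

open Function

variable {W : Type*} [Fintype W] {P : ℕ} [NeZero P] (R : W → W → Prop) (idx : W → ℕ)

theorem fromRel_adj' {R : W → W → Prop} {a b : W} (h : (SimpleGraph.fromRel R).Adj a b) :
    R a b ∨ R b a := ((SimpleGraph.fromRel_adj R a b).1 h).2

theorem adj_of_rel {R : W → W → Prop} (hR : ∀ a b, R a b → ¬ R b a) {a b : W}
    (h : R a b ∨ R b a) : (SimpleGraph.fromRel R).Adj a b := by
  rw [SimpleGraph.fromRel_adj]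
  refine ⟨?_, h⟩
  rintro rfl
  rcases h with h | h <;> exact hR _ _ h h

theorem hom_step (hidx : ∀ a, idx a < Fintype.card W) (ψ : W → ZMod P × ZMod P)
    (hψ : ∀ a b, R a b → ψ b - ψ a ∈ SS P R idx) (a b : W)
    (hab : (SimpleGraph.fromRel R).Adj a b) :
    |((ψ b).1 - (ψ a).1).valMinAbs| ≤ 2 ^ Fintype.card W ∧
      |((ψ b).2 - (ψ a).2).valMinAbs| ≤ 1 := by
  have key : ∀ a b, R a b → |((ψ b).1 - (ψ a).1).valMinAbs| ≤ 2 ^ Fintype.card W ∧
      |((ψ b).2 - (ψ a).2).valMinAbs| ≤ 1 := by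
    intro a b hab
    obtain ⟨c, d, _, h1, h2⟩ := hψ a b hab
    rw [Prod.fst_sub] at h1
    rw [Prod.snd_sub] at h2
    constructor
    · rw [h1]
      exact (abs_vma_cast_le _).trans (ph_abs idx hidx c d)
    · rcases h2 with h2 | h2 | h2
      · rw [h2]; simp
      · rw [h2]
        have := abs_vma_cast_le (P := P) 1
        simpa using this
      · rw [h2]
        have := abs_vma_cast_le (P := P) (-1)
        simpa using this
  rcases fromRel_adj' hab with h | h
  · exact key a b h
  · have := key b a h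
    rw [← neg_sub (ψ a).1 (ψ b).1, ← neg_sub (ψ a).2 (ψ b).2, abs_vma_neg, abs_vma_neg]
    exact this

theorem hom_bound (hidx : ∀ a, idx a < Fintype.card W)
    (hconn : (SimpleGraph.fromRel R).Connected) (ψ : W → ZMod P × ZMod P)
    (hψ : ∀ a b, R a b → ψ b - ψ a ∈ SS P R idx) (a b : W) :
    |(ψ b - ψ a).1.valMinAbs| ≤ 2 ^ Fintype.card W * Fintype.card W ∧
    |(ψ b - ψ a).2.valMinAbs| ≤ (SimpleGraph.fromRel R).dist a b := by
  have h1 := dist_bound (SimpleGraph.fromRel R) hconn (fun a => (ψ a).1) (2 ^ Fintype.card W)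
    (fun a b hab => (hom_step R idx hidx ψ hψ a b hab).1) a b
  have h2 := dist_bound (SimpleGraph.fromRel R) hconn (fun a => (ψ a).2) 1
    (fun a b hab => (hom_step R idx hidx ψ hψ a b hab).2) a b
  have h3 := dist_le_card (SimpleGraph.fromRel R) hconn a b
  constructor
  · rw [Prod.fst_sub]
    refine h1.trans ?_
    have : ((SimpleGraph.fromRel R).dist a b : ℤ) ≤ Fintype.card W := by exact_mod_cast h3
    exact mul_le_mul_of_nonneg_left this (by positivity)
  · rw [Prod.snd_sub]
    linarith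

/-- Distance of `u` to `{v, w, y}`. -/
noncomputable def dm (R : W → W → Prop) (u v w y : W) : ℕ :=
  min ((SimpleGraph.fromRel R).dist v u)
    (min ((SimpleGraph.fromRel R).dist w u) ((SimpleGraph.fromRel R).dist y u))

theorem config_snd {al : Set (ZMod P × ZMod P)} {α : ZMod P × ZMod P}
    (hal : ∀ s ∈ al, s.2 = 0) (hα : α.2 = 0) {S : Set (ZMod P × ZMod P)}
    {ψ : W → ZMod P × ZMod P} {v w y : W} (hc : Config R S al α ψ v w y) :
    (ψ w).2 = (ψ v).2 ∧ (ψ y).2 = (ψ v).2 := by
  constructor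
  · have := congrArg Prod.snd hc.diff
    rw [Prod.snd_sub, hα] at this
    exact sub_eq_zero.1 this
  · rcases hc.vy with ⟨_, h⟩ | ⟨_, h⟩
    · have := hal _ h
      rw [Prod.snd_sub] at this
      exact sub_eq_zero.1 this
    · have := hal _ h
      rw [Prod.snd_sub] at this
      exact (sub_eq_zero.1 this).symm

theorem lift_config (hR : ∀ a b, R a b → ¬ R b a)
    (hconn : (SimpleGraph.fromRel R).Connected)
    {al : Set (ZMod P × ZMod P)} {α : ZMod P × ZMod P}
    (hal : ∀ s ∈ al, s.2 = 0) (hα : α.2 = 0)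
    {ψ : W → ZMod P × ZMod P} {v w y : W} (hc : Config R (SS P R idx) al α ψ v w y) (u : W) :
    Config R (SS P R idx) al α
      (fun a => ((ψ a).1, ((dm R u v w y - (SimpleGraph.fromRel R).dist a u : ℕ) : ZMod P)))
      v w y := by
  set G := SimpleGraph.fromRel R with hG
  have hv : dm R u v w y - G.dist v u = 0 :=
    Nat.sub_eq_zero_of_le (min_le_left _ _)
  have hw : dm R u v w y - G.dist w u = 0 :=
    Nat.sub_eq_zero_of_le ((min_le_right _ _).trans (min_le_left _ _))
  have hy : dm R u v w y - G.dist y u = 0 :=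
    Nat.sub_eq_zero_of_le ((min_le_right _ _).trans (min_le_right _ _))
  obtain ⟨e1, e2⟩ := config_snd R hal hα hc
  have d1 : ((ψ w).1, ((dm R u v w y - G.dist w u : ℕ) : ZMod P)) -
      ((ψ v).1, ((dm R u v w y - G.dist v u : ℕ) : ZMod P)) = ψ w - ψ v := by
    rw [hw, hv]
    ext
    · simp
    · simp [e1]
  have d2 : ((ψ y).1, ((dm R u v w y - G.dist y u : ℕ) : ZMod P)) -
      ((ψ v).1, ((dm R u v w y - G.dist v u : ℕ) : ZMod P)) = ψ y - ψ v := by
    rw [hy, hv]
    ext
    · simp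
    · simp [e2]
  have d3 : ((ψ y).1, ((dm R u v w y - G.dist y u : ℕ) : ZMod P)) -
      ((ψ w).1, ((dm R u v w y - G.dist w u : ℕ) : ZMod P)) = ψ y - ψ w := by
    rw [hy, hw]
    ext
    · simp
    · simp [e2, e1]
  constructor
  · intro a b hab
    obtain ⟨c, d, hcd, h1, _⟩ := hc.hom a b hab
    refine ⟨c, d, hcd, ?_, ?_⟩
    · simpa using h1
    · simp only [Prod.snd_sub]
      have hadj : G.Adj a b := adj_of_rel hR (Or.inl hab)
      have hd1 : G.dist a u ≤ G.dist b u + 1 := by
        have := hconn.dist_triangle (u := a) (v := b) (w := u)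
        rw [SimpleGraph.dist_eq_one_iff_adj.2 hadj] at this
        omega
      have hd2 : G.dist b u ≤ G.dist a u + 1 := by
        have := hconn.dist_triangle (u := b) (v := a) (w := u)
        rw [SimpleGraph.dist_eq_one_iff_adj.2 hadj.symm] at this
        omega
      have h3 : dm R u v w y - G.dist b u = dm R u v w y - G.dist a u ∨
          dm R u v w y - G.dist b u = dm R u v w y - G.dist a u + 1 ∨
          dm R u v w y - G.dist b u + 1 = dm R u v w y - G.dist a u := by
        omega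
      rcases h3 with h3 | h3 | h3
      · left; rw [h3]; simp
      · right; left; rw [h3]; push_cast; ring
      · right; right; rw [← h3]; push_cast; ring
  · exact hc.arc
  · exact d1.trans hc.diff
  · rcases hc.vy with ⟨h1, h2⟩ | ⟨h1, h2⟩
    · left
      refine ⟨h1, ?_⟩
      rw [d2]; exact h2
    · right
      refine ⟨h1, ?_⟩
      rw [← neg_sub, d2, neg_sub]; exact h2
  · exact hc.yw
  · constructor
    · intro h
      rw [d3]; exact hc.wy.1 h
    · intro h
      rw [← neg_sub, d3, neg_sub]; exact hc.wy.2 h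

theorem natCast_vma (d : ℕ) (hd : 2 * d < P) : ((d : ZMod P)).valMinAbs = d := by
  have := vma_cast (P := P) (d : ℤ) (by
    rw [abs_of_nonneg (by positivity)]
    exact_mod_cast hd)
  simpa using this

theorem lift_wt (hR : ∀ a b, R a b → ¬ R b a)
    (hconn : (SimpleGraph.fromRel R).Connected)
    (hP : 4 * (2 ^ Fintype.card W * (Fintype.card W + 1)) < P)
    (ψ : W → ZMod P × ZMod P) (u v w y : W) :
    wt ((fun a => ((ψ a).1, ((dm R u v w y - (SimpleGraph.fromRel R).dist a u : ℕ) : ZMod P))) u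
      - (fun a => ((ψ a).1, ((dm R u v w y - (SimpleGraph.fromRel R).dist a u : ℕ) : ZMod P))) v)
    = (ψ u - ψ v).1.valMinAbs + P * (dm R u v w y : ℤ) := by
  have hv : dm R u v w y - (SimpleGraph.fromRel R).dist v u = 0 :=
    Nat.sub_eq_zero_of_le (min_le_left _ _)
  have hd : dm R u v w y ≤ Fintype.card W :=
    (min_le_left _ _).trans (dist_le_card _ hconn v u)
  have h1 : 1 ≤ 2 ^ Fintype.card W := Nat.one_le_two_pow
  have hd2 : 2 * dm R u v w y < P := by nlinarith
  unfold wt
  simp only [Prod.fst_sub, Prod.snd_sub, hv, SimpleGraph.dist_self, Nat.sub_zero,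
    Nat.cast_zero, sub_zero]
  rw [natCast_vma _ hd2]

theorem best_config (hinj : Injective idx) (hidx : ∀ a, idx a < Fintype.card W)
    (hP : 4 * (2 ^ Fintype.card W * (Fintype.card W + 1)) < P) (hPo : Odd P)
    (hR : ∀ a b, R a b → ¬ R b a)
    (hconn : (SimpleGraph.fromRel R).Connected) (v0 w0 y0 : W) (h1 : R v0 w0)
    (h2 : R v0 y0 ∨ R y0 v0) (hyw : y0 ≠ w0) (hk : 4 ≤ Fintype.card W) :
    ∃ (ψ : W → ZMod P × ZMod P) (v w y u : W),
      Config R (SS P R idx) (alS P R idx v0 w0 y0) (ty P idx v0 w0) ψ v w y ∧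
      (ψ u).2 ≠ (ψ v).2 ∧
      (∀ b, R u b ∨ R b u → (ψ b).2 ≠ (ψ u).2) ∧
      ∀ Δ : ZMod P × ZMod P, 0 < wt Δ → ∀ (ψ' : W → ZMod P × ZMod P) (v' w' y' : W),
        Config R (SS P R idx) (alS P R idx v0 w0 y0) (ty P idx v0 w0) ψ' v' w' y' →
        ∀ b, ψ' b - ψ' v' ≠ (ψ u - ψ v) + Δ := by
  classical
  set S := SS P R idx with hS
  set al := alS P R idx v0 w0 y0 with hal
  set α := ty P idx v0 w0 with hα
  set G := SimpleGraph.fromRel R with hG
  have hal2 : ∀ s ∈ al, s.2 = 0 := alS_snd R idx v0 w0 y0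
  have hα2 : α.2 = 0 := rfl
  have hirr : ∀ a, ¬ R a a := fun a h => hR a a h h
  have hpow : 1 ≤ 2 ^ Fintype.card W := Nat.one_le_two_pow
  have hPpos : (0 : ℤ) < P := by
    have : 0 < P := Nat.pos_of_ne_zero (NeZero.ne P)
    exact_mod_cast this
  -- the finite set of configurations with a point
  let C : Finset ((W → ZMod P × ZMod P) × W × W × W × W) :=
    Finset.univ.filter (fun c => Config R S al α c.1 c.2.1 c.2.2.1 c.2.2.2.1)
  have hC0 := config_exists R idx hinj hidx hP hR v0 w0 y0 h1 h2 hyw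
  -- a vertex outside {v0,w0,y0}
  obtain ⟨u0, hu0⟩ : ∃ u0, u0 ∉ ({v0, w0, y0} : Finset W) := by
    by_contra hcon
    push Not at hcon
    have : Fintype.card W ≤ ({v0, w0, y0} : Finset W).card := by
      rw [← Finset.card_univ]
      exact Finset.card_le_card (fun a _ => hcon a)
    have h3 := Finset.card_le_three (a := v0) (b := w0) (c := y0)
    omega
  simp only [Finset.mem_insert, Finset.mem_singleton, not_or] at hu0
  set ψ0 : W → ZMod P × ZMod P := fun a => (((ph idx a : ℤ) : ZMod P), 0) with hψ0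
  have hCne : C.Nonempty := ⟨(ψ0, v0, w0, y0, u0), by
    simp only [C, Finset.mem_filter, Finset.mem_univ, true_and]
    exact hC0⟩
  obtain ⟨⟨ψ, v, w, y, u⟩, hmem, hmax⟩ :=
    C.exists_max_image (fun c => wt (c.1 c.2.2.2.2 - c.1 c.2.1)) hCne
  simp only [C, Finset.mem_filter, Finset.mem_univ, true_and] at hmem hmax
  have hmax' : ∀ (ψ' : W → ZMod P × ZMod P) (v' w' y' u' : W), Config R S al α ψ' v' w' y' →
      wt (ψ' u' - ψ' v') ≤ wt (ψ u - ψ v) := by
    intro ψ' v' w' y' u' hc
    exact hmax (ψ', v', w', y', u') hc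
  -- the lifted configuration
  set ψ1 : W → ZMod P × ZMod P := fun a =>
    ((ψ a).1, ((dm R u v w y - G.dist a u : ℕ) : ZMod P)) with hψ1
  have hc1 : Config R S al α ψ1 v w y := lift_config R idx hR hconn hal2 hα2 hmem u
  have hw1 : wt (ψ1 u - ψ1 v) = (ψ u - ψ v).1.valMinAbs + P * (dm R u v w y : ℤ) :=
    lift_wt R hR hconn hP ψ u v w y
  obtain ⟨es1, es2⟩ := config_snd R hal2 hα2 hmem
  -- the second coordinate is bounded by the distance
  have hsnd : (ψ u - ψ v).2.valMinAbs ≤ (dm R u v w y : ℤ) := by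
    have hb : ∀ x, (ψ x).2 = (ψ v).2 → (ψ u - ψ v).2.valMinAbs ≤ (G.dist x u : ℤ) := by
      intro x hx
      have := (hom_bound R idx hidx hconn ψ hmem.hom x u).2
      rw [Prod.snd_sub, hx, ← Prod.snd_sub] at this
      exact (le_abs_self _).trans this
    unfold dm
    push_cast
    exact le_min (hb v rfl) (le_min (hb w es1) (hb y es2))
  have hwge : wt (ψ u - ψ v) ≤ wt (ψ1 u - ψ1 v) := by
    rw [hw1]
    unfold wt
    have := mul_le_mul_of_nonneg_left hsnd hPpos.le
    linarith
  -- the distance is positive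
  have hdpos : 1 ≤ dm R u v w y := by
    by_contra hd
    have hd0 : dm R u v w y = 0 := by omega
    rw [hd0] at hw1
    -- compare with the canonical configuration
    have hd0pos : 1 ≤ dm R u0 v0 w0 y0 := by
      unfold dm
      have a1 := hconn.pos_dist_of_ne (Ne.symm hu0.1)
      have a2 := hconn.pos_dist_of_ne (Ne.symm hu0.2.1)
      have a3 := hconn.pos_dist_of_ne (Ne.symm hu0.2.2)
      exact le_min a1 (le_min a2 a3)
    have hc2 := lift_config R idx hR hconn hal2 hα2 hC0 u0
    have hw2 := lift_wt R hR hconn hP ψ0 u0 v0 w0 y0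
    have hm := hmax' _ _ _ _ u0 hc2
    rw [hw2] at hm
    have h5 := two_vma_le (ψ u - ψ v).1
    have h6 := two_vma_le (ψ0 u0 - ψ0 v0).1
    have h7 := neg_abs_le (ψ0 u0 - ψ0 v0).1.valMinAbs
    have h8 := le_abs_self (ψ u - ψ v).1.valMinAbs
    have h9 : (1 : ℤ) ≤ (dm R u0 v0 w0 y0 : ℤ) := by exact_mod_cast hd0pos
    have h10 := mul_le_mul_of_nonneg_left h9 hPpos.le
    -- strictness by a parity argument
    have h11 : 2 * |(ψ u - ψ v).1.valMinAbs| ≠ P := by
      intro h
      have e : (2 * (ψ u - ψ v).1.valMinAbs.natAbs : ℤ) = P := by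
        rw [← Int.abs_eq_natAbs]; exact h
      have e2 : 2 * (ψ u - ψ v).1.valMinAbs.natAbs = P := by exact_mod_cast e
      rw [← e2] at hPo
      exact (Nat.not_odd_iff_even.2 (even_two_mul _)) hPo
    have h12 : 2 * |(ψ u - ψ v).1.valMinAbs| < P := lt_of_le_of_ne h5 h11
    push_cast at hw1
    have h13 : wt (ψ u - ψ v) ≤ (ψ u - ψ v).1.valMinAbs := by
      rw [hw1] at hwge
      linarith
    linarith
  have hdcard : dm R u v w y ≤ Fintype.card W :=
    (min_le_left _ _).trans (dist_le_card _ hconn v u)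
  have hd2P : 2 * dm R u v w y < P := by nlinarith
  have h10 : (1 : ZMod P) ≠ 0 := one_ne_zero' (W := W) hP
  have hv0 : dm R u v w y - G.dist v u = 0 := Nat.sub_eq_zero_of_le (min_le_left _ _)
  refine ⟨ψ1, v, w, y, u, hc1, ?_, ?_, ?_⟩
  · simp only [hψ1, hv0, SimpleGraph.dist_self, Nat.sub_zero, Nat.cast_zero]
    intro h
    have := congrArg ZMod.valMinAbs h
    rw [natCast_vma _ hd2P, ZMod.valMinAbs_zero] at this
    have : dm R u v w y = 0 := by exact_mod_cast this
    omega
  · intro b hb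
    have hadj : G.Adj b u := adj_of_rel hR (hb.symm)
    have hd1 : G.dist b u = 1 := SimpleGraph.dist_eq_one_iff_adj.2 hadj
    simp only [hψ1, hd1, SimpleGraph.dist_self, Nat.sub_zero]
    obtain ⟨d, hd⟩ := Nat.exists_eq_add_of_le hdpos
    rw [hd, show 1 + d - 1 = d by omega]
    push_cast
    intro h
    apply h10
    have : (1 : ZMod P) = (1 + (d : ZMod P)) - d := by ring
    rw [this, ← h, sub_self]
  · intro Δ hΔ ψ' v' w' y' hc' b heq
    have hle := hmax' ψ' v' w' y' b hc'
    have hΔeq : Δ = (ψ' b - ψ' v') - (ψ1 u - ψ1 v) := by rw [heq]; abel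
    set K : ℤ := 2 ^ Fintype.card W * Fintype.card W with hK
    have hcK : (Fintype.card W : ℤ) ≤ K := by
      rw [hK]
      have : (1 : ℤ) ≤ 2 ^ Fintype.card W := by exact_mod_cast hpow
      nlinarith
    have hPK : 4 * K < P := by
      have : (4 * (2 ^ Fintype.card W * (Fintype.card W + 1)) : ℤ) < P := by exact_mod_cast hP
      have h3 : (0 : ℤ) < 2 ^ Fintype.card W := by positivity
      rw [hK]
      nlinarith
    have q1 := hom_bound R idx hidx hconn ψ' hc'.hom v' b
    have q2 := hom_bound R idx hidx hconn ψ1 hc1.hom v u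
    have q3 : ((SimpleGraph.fromRel R).dist v' b : ℤ) ≤ K := by
      have : ((SimpleGraph.fromRel R).dist v' b : ℤ) ≤ Fintype.card W := by
        exact_mod_cast dist_le_card _ hconn v' b
      linarith
    have q4 : ((SimpleGraph.fromRel R).dist v u : ℤ) ≤ K := by
      have : ((SimpleGraph.fromRel R).dist v u : ℤ) ≤ Fintype.card W := by
        exact_mod_cast dist_le_card _ hconn v u
      linarith
    have hwt := wt_sub (ψ' b - ψ' v') (ψ1 u - ψ1 v) K q1.1 (q1.2.trans q3) q2.1
      (q2.2.trans q4) hPK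
    rw [← hΔeq] at hwt
    linarith

end Pool.Agent.H48.FIrr
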