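import Mathlib
import Pool.Agent.H48.FIrrSwap

namespace Pool.Agent.H48.FIrr

open Finset Function

variable {V W : Type*} [Fintype V] [Fintype W]

open Classical in
theorem cnt_addArc (R : W → W → Prop) (E : V → V → Prop) (x z : V) (hxz : ¬ E x z) (u : V) :
    cnt R (addArc E x z) u = cnt R E u +
      ((emb R (addArc E x z)).filter (fun f => Uses R x z f ∧ ∃ a, f a = u)).card := by
  rw [cnt_eq_card, cnt_eq_card, ← card_union_of_disjoint]
  · congr 1
    ext f
    simp only [mem_filter, mem_union, mem_emb]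
    constructor
    · rintro ⟨⟨hf, hE⟩, hu⟩
      by_cases h : Uses R x z f
      · exact Or.inr ⟨⟨hf, hE⟩, h, hu⟩
      · left
        refine ⟨⟨hf, ?_⟩, hu⟩
        intro a b hab
        rcases hE a b hab with h1 | ⟨h1, h2⟩
        · exact h1
        · exact absurd ⟨a, b, hab, h1, h2⟩ h
    · rintro (⟨⟨hf, hE⟩, hu⟩ | ⟨⟨hf, hE⟩, _, hu⟩)
      · exact ⟨⟨hf, fun a b hab => Or.inl (hE a b hab)⟩, hu⟩
      · exact ⟨⟨hf, hE⟩, hu⟩
  · rw [disjoint_left]
    intro f hf hf'
    simp only [mem_filter, mem_emb] at hf hf'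
    obtain ⟨_, ⟨a, b, hab, h1, h2⟩, _⟩ := hf'
    have := hf.1.2 a b hab
    rw [h1, h2] at this
    exact hxz this

/-- `f` uses at `x''` an arc of `E` other than the one to `z` that is not available at `x`. -/
def UD (R : W → W → Prop) (E : V → V → Prop) (x x'' z : V) (f : W → V) : Prop :=
  ∃ a b, R a b ∧ ((f a = x'' ∧ f b ≠ z ∧ ¬ E x (f b)) ∨ (f b = x'' ∧ ¬ E (f a) x))

open Classical in
theorem move_one (R : W → W → Prop) (E : V → V → Prop) (x x'' z u : V)
    (hdom : Dom E x x'') (h1 : ¬ E x x) (h2 : ¬ E x x'') (h3 : ¬ E x'' x) (h4 : ¬ E x'' x'')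
    (hxz : x ≠ z) (hxz'' : x'' ≠ z) (hux : u ≠ x) (hux'' : u ≠ x'') :
    ((emb R (addArc E x'' z)).filter (fun f => Uses R x'' z f ∧ ∃ a, f a = u)).card ≤
    ((emb R (addArc E x z)).filter (fun f => Uses R x z f ∧ ∃ a, f a = u)).card +
    ((emb R (addArc E x'' z)).filter (fun f => (Uses R x'' z f ∧ ∃ a, f a = u) ∧
      UD R E x x'' z f)).card := by
  have hsplit : ((emb R (addArc E x'' z)).filter (fun f => Uses R x'' z f ∧ ∃ a, f a = u)).card
      = ((emb R (addArc E x'' z)).filter (fun f => (Uses R x'' z f ∧ ∃ a, f a = u) ∧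
          ¬ UD R E x x'' z f)).card
        + ((emb R (addArc E x'' z)).filter (fun f => (Uses R x'' z f ∧ ∃ a, f a = u) ∧
          UD R E x x'' z f)).card := by
    have hh := card_filter_add_card_filter_not
      (s := (emb R (addArc E x'' z)).filter (fun f => Uses R x'' z f ∧ ∃ a, f a = u))
      (fun f => UD R E x x'' z f)
    rw [filter_filter, filter_filter] at hh
    omega
  rw [hsplit]
  apply Nat.add_le_add_right
  refine card_le_card_of_injOn (fun f => fun a => Equiv.swap x x'' (f a)) ?_
    ((comp_inj _).injOn)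
  intro f hf
  simp only [coe_filter, Set.mem_setOf_eq] at hf ⊢
  obtain ⟨hfe, ⟨⟨a0, b0, hab0, hfa0, hfb0⟩, c0, hc0⟩, hnd⟩ := hf
  refine ⟨?_, ⟨a0, b0, hab0, by simp [hfa0], ?_⟩, c0, ?_⟩
  · apply comp_mem_emb hfe
    intro a b hab
    rw [mem_emb] at hfe
    have hE := hfe.2 a b hab
    have hnd' : ∀ a b, R a b → ¬ ((f a = x'' ∧ f b ≠ z ∧ ¬ E x (f b)) ∨
        (f b = x'' ∧ ¬ E (f a) x)) := by
      intro a b hab h
      exact hnd ⟨a, b, hab, h⟩
    have hn := hnd' a b hab
    push Not at hn
    rcases hE with hE | ⟨ha, hb⟩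
    · by_cases ha'' : f a = x''
      · have hb1 : f b ≠ x'' := by
          intro h; rw [ha'', h] at hE; exact h4 hE
        have hb2 : f b ≠ x := by
          intro h; rw [ha'', h] at hE; exact h3 hE
        rw [ha'', Equiv.swap_apply_right, Equiv.swap_apply_of_ne_of_ne hb2 hb1]
        by_cases hbz : f b = z
        · exact Or.inr ⟨rfl, hbz⟩
        · exact Or.inl (hn.1 ha'' hbz)
      · by_cases hax : f a = x
        · have hb1 : f b ≠ x'' := by
            intro h; rw [hax, h] at hE; exact h2 hE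
          have hb2 : f b ≠ x := by
            intro h; rw [hax, h] at hE; exact h1 hE
          rw [hax, Equiv.swap_apply_left, Equiv.swap_apply_of_ne_of_ne hb2 hb1]
          rw [hax] at hE
          exact Or.inl ((hdom _).1 hE)
        · rw [Equiv.swap_apply_of_ne_of_ne hax ha'']
          by_cases hb'' : f b = x''
          · rw [hb'', Equiv.swap_apply_right]
            exact Or.inl (hn.2 hb'')
          · by_cases hbx : f b = x
            · rw [hbx, Equiv.swap_apply_left]
              rw [hbx] at hE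
              exact Or.inl ((hdom _).2 hE)
            · rw [Equiv.swap_apply_of_ne_of_ne hbx hb'']
              exact Or.inl hE
    · rw [ha, hb, Equiv.swap_apply_right, Equiv.swap_apply_of_ne_of_ne (Ne.symm hxz)
        (Ne.symm hxz'')]
      exact Or.inr ⟨rfl, rfl⟩
  · simp only [hfb0]
    exact Equiv.swap_apply_of_ne_of_ne (Ne.symm hxz) (Ne.symm hxz'')
  · simp only [hc0]
    exact Equiv.swap_apply_of_ne_of_ne hux hux''

open Classical in
theorem move_two (R : W → W → Prop) (E : V → V → Prop) (x x'' z u : V)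
    (hdom : Dom E x x'') (h1 : ¬ E x x) (h2 : ¬ E x x'') (h3 : ¬ E x'' x) (h4 : ¬ E x'' x'')
    (hxz : x ≠ z) (hxz'' : x'' ≠ z) (hxx : x ≠ x'') (hux : u ≠ x) (hux'' : u ≠ x'') :
    ((emb R (addArc E x z)).filter (fun f => Uses R x z f ∧ ∃ a, f a = u)).card +
    ((emb R (addArc E x'' z)).filter (fun f => (Uses R x'' z f ∧ ∃ a, f a = u) ∧
      UD R E x x'' z f)).card ≤
    ((emb R (addArc E x'' z)).filter (fun f => Uses R x'' z f ∧ ∃ a, f a = u)).card +
    ((emb R (addArc E x z)).filter (fun f => (Uses R x z f ∧ ∃ a, f a = u) ∧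
      UsesD R E x x'' f)).card := by
  have hsplit : ((emb R (addArc E x'' z)).filter (fun f => Uses R x'' z f ∧ ∃ a, f a = u)).card
      = ((emb R (addArc E x'' z)).filter (fun f => (Uses R x'' z f ∧ ∃ a, f a = u) ∧
          ¬ UD R E x x'' z f)).card
        + ((emb R (addArc E x'' z)).filter (fun f => (Uses R x'' z f ∧ ∃ a, f a = u) ∧
          UD R E x x'' z f)).card := by
    have hh := card_filter_add_card_filter_not
      (s := (emb R (addArc E x'' z)).filter (fun f => Uses R x'' z f ∧ ∃ a, f a = u))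
      (fun f => UD R E x x'' z f)
    rw [filter_filter, filter_filter] at hh
    omega
  have hsplit2 : ((emb R (addArc E x z)).filter (fun f => Uses R x z f ∧ ∃ a, f a = u)).card
      = ((emb R (addArc E x z)).filter (fun f => (Uses R x z f ∧ ∃ a, f a = u) ∧
          ¬ UsesD R E x x'' f)).card
        + ((emb R (addArc E x z)).filter (fun f => (Uses R x z f ∧ ∃ a, f a = u) ∧
          UsesD R E x x'' f)).card := by
    have hh := card_filter_add_card_filter_not
      (s := (emb R (addArc E x z)).filter (fun f => Uses R x z f ∧ ∃ a, f a = u))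
      (fun f => UsesD R E x x'' f)
    rw [filter_filter, filter_filter] at hh
    omega
  have key : ((emb R (addArc E x z)).filter (fun f => (Uses R x z f ∧ ∃ a, f a = u) ∧
          ¬ UsesD R E x x'' f)).card ≤
      ((emb R (addArc E x'' z)).filter (fun f => (Uses R x'' z f ∧ ∃ a, f a = u) ∧
          ¬ UD R E x x'' z f)).card := by
    refine card_le_card_of_injOn (fun f => fun a => Equiv.swap x x'' (f a)) ?_
      ((comp_inj _).injOn)
    intro f hf
    simp only [coe_filter, Set.mem_setOf_eq] at hf ⊢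
    obtain ⟨hfe, ⟨⟨a0, b0, hab0, hfa0, hfb0⟩, c0, hc0⟩, hnd⟩ := hf
    have hnd' : ∀ a b, R a b → ¬ ((f a = x'' ∧ ¬ E x (f b)) ∨
        (f b = x'' ∧ ¬ E (f a) x)) := by
      intro a b hab h
      exact hnd ⟨a, b, hab, h⟩
    refine ⟨?_, ⟨⟨a0, b0, hab0, by simp [hfa0], ?_⟩, c0, ?_⟩, ?_⟩
    · apply comp_mem_emb hfe
      intro a b hab
      rw [mem_emb] at hfe
      have hE := hfe.2 a b hab
      have hn := hnd' a b hab
      push Not at hn
      rcases hE with hE | ⟨ha, hb⟩
      · by_cases ha'' : f a = x''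
        · have hb1 : f b ≠ x'' := by
            intro h; rw [ha'', h] at hE; exact h4 hE
          have hb2 : f b ≠ x := by
            intro h; rw [ha'', h] at hE; exact h3 hE
          rw [ha'', Equiv.swap_apply_right, Equiv.swap_apply_of_ne_of_ne hb2 hb1]
          exact Or.inl (hn.1 ha'')
        · by_cases hax : f a = x
          · have hb1 : f b ≠ x'' := by
              intro h; rw [hax, h] at hE; exact h2 hE
            have hb2 : f b ≠ x := by
              intro h; rw [hax, h] at hE; exact h1 hE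
            rw [hax, Equiv.swap_apply_left, Equiv.swap_apply_of_ne_of_ne hb2 hb1]
            rw [hax] at hE
            exact Or.inl ((hdom _).1 hE)
          · rw [Equiv.swap_apply_of_ne_of_ne hax ha'']
            by_cases hb'' : f b = x''
            · rw [hb'', Equiv.swap_apply_right]
              exact Or.inl (hn.2 hb'')
            · by_cases hbx : f b = x
              · rw [hbx, Equiv.swap_apply_left]
                rw [hbx] at hE
                exact Or.inl ((hdom _).2 hE)
              · rw [Equiv.swap_apply_of_ne_of_ne hbx hb'']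
                exact Or.inl hE
      · rw [ha, hb, Equiv.swap_apply_left, Equiv.swap_apply_of_ne_of_ne (Ne.symm hxz)
          (Ne.symm hxz'')]
        exact Or.inr ⟨rfl, rfl⟩
    · simp only [hfb0]
      exact Equiv.swap_apply_of_ne_of_ne (Ne.symm hxz) (Ne.symm hxz'')
    · simp only [hc0]
      exact Equiv.swap_apply_of_ne_of_ne hux hux''
    · rintro ⟨a, b, hab, hor⟩
      rw [mem_emb] at hfe
      have hE := hfe.2 a b hab
      rcases hor with ⟨ha, hb, hb'⟩ | ⟨hb, ha⟩
      · have hfa : f a = x := by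
          have := congrArg (Equiv.swap x x'') ha
          simpa using this
        rw [hfa] at hE
        rcases hE with hE | ⟨_, hbz⟩
        · have hb1 : f b ≠ x'' := by
            intro h; rw [h] at hE; exact h2 hE
          have hb2 : f b ≠ x := by
            intro h; rw [h] at hE; exact h1 hE
          simp only [Equiv.swap_apply_of_ne_of_ne hb2 hb1] at hb'
          exact hb' hE
        · simp only [hbz, Equiv.swap_apply_of_ne_of_ne (Ne.symm hxz) (Ne.symm hxz'')] at hb
          exact hb rfl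
      · have hfb : f b = x := by
          have := congrArg (Equiv.swap x x'') hb
          simpa using this
        rw [hfb] at hE
        rcases hE with hE | ⟨_, hbz⟩
        · have hb1 : f a ≠ x'' := by
            intro h; rw [h] at hE; exact h3 hE
          have hb2 : f a ≠ x := by
            intro h; rw [h] at hE; exact h1 hE
          simp only [Equiv.swap_apply_of_ne_of_ne hb2 hb1] at ha
          exact ha hE
        · exact hxz hbz
  omega

open Classical in
theorem move_le (R : W → W → Prop) (E : V → V → Prop) (x x'' z u : V)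
    (hdom : Dom E x x'') (h1 : ¬ E x x) (h2 : ¬ E x x'') (h3 : ¬ E x'' x) (h4 : ¬ E x'' x'')
    (h5 : ¬ E x z) (h6 : ¬ E x'' z)
    (hxz : x ≠ z) (hxz'' : x'' ≠ z) (hux : u ≠ x) (hux'' : u ≠ x'')
    (hno : ∀ f ∈ emb R (addArc E x'' z), Uses R x'' z f → (∃ a, f a = u) → ¬ UD R E x x'' z f) :
    cnt R (addArc E x'' z) u ≤ cnt R (addArc E x z) u := by
  rw [cnt_addArc R E x'' z h6, cnt_addArc R E x z h5]
  have hm := move_one R E x x'' z u hdom h1 h2 h3 h4 hxz hxz'' hux hux''
  have h0 : ((emb R (addArc E x'' z)).filter (fun f => (Uses R x'' z f ∧ ∃ a, f a = u) ∧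
      UD R E x x'' z f)).card = 0 := by
    rw [card_eq_zero, filter_eq_empty_iff]
    rintro f hf ⟨⟨hu, ha⟩, hd⟩
    exact hno f hf hu ha hd
  omega

open Classical in
/-- Embeddings through `(x,z)` that use at `x''` an arc not available at `x`. -/
noncomputable def badSet (R : W → W → Prop) (E : V → V → Prop) (x x'' z u : V) :
    Finset (W → V) :=
  (emb R (addArc E x z)).filter (fun f => (Uses R x z f ∧ ∃ a, f a = u) ∧
      UsesD R E x x'' f)

open Classical in
/-- Embeddings through `(x'',z)` that use at `x''` an arc not available at `x`. -/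
noncomputable def goodSet (R : W → W → Prop) (E : V → V → Prop) (x x'' z u : V) :
    Finset (W → V) :=
  (emb R (addArc E x'' z)).filter (fun f => (Uses R x'' z f ∧ ∃ a, f a = u) ∧
      UD R E x x'' z f)

theorem mem_goodSet {R : W → W → Prop} {E : V → V → Prop} {x x'' z u : V} {f : W → V} :
    f ∈ goodSet R E x x'' z u ↔ (Injective f ∧ ∀ a b, R a b → addArc E x'' z (f a) (f b)) ∧
      (Uses R x'' z f ∧ ∃ a, f a = u) ∧ UD R E x x'' z f := by
  classical
  unfold goodSet
  rw [mem_filter, mem_emb]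

open Classical in
theorem move_lt (R : W → W → Prop) (E : V → V → Prop) (x x'' z u : V)
    (hdom : Dom E x x'') (h1 : ¬ E x x) (h2 : ¬ E x x'') (h3 : ¬ E x'' x) (h4 : ¬ E x'' x'')
    (h5 : ¬ E x z) (h6 : ¬ E x'' z)
    (hxz : x ≠ z) (hxz'' : x'' ≠ z) (hxx : x ≠ x'') (hux : u ≠ x) (hux'' : u ≠ x'')
    (hlt : (badSet R E x x'' z u).card < (goodSet R E x x'' z u).card) :
    cnt R (addArc E x z) u < cnt R (addArc E x'' z) u := by
  unfold badSet goodSet at hlt
  rw [cnt_addArc R E x'' z h6, cnt_addArc R E x z h5]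
  have hm := move_two R E x x'' z u hdom h1 h2 h3 h4 hxz hxz'' hxx hux hux''
  omega

open Classical in
theorem bad_bound [Nonempty V] (R : W → W → Prop) (E : V → V → Prop) (x x'' z u : V)
    (D : Finset V) (hD : ∀ d, (E x'' d ∧ ¬ E x d) ∨ (E d x'' ∧ ¬ E d x) → d ∈ D)
    (hdist : ∀ d ∈ D, Injective ![x, x'', z, u, d]) (h6 : ¬ E x'' z)
    (hxx : x ≠ x'') (hxz'' : x'' ≠ z) :
    (badSet R E x x'' z u).card ≤ D.card * bd V W 5 := by
  unfold badSet
  have hsub : (emb R (addArc E x z)).filter (fun f => (Uses R x z f ∧ ∃ a, f a = u) ∧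
      UsesD R E x x'' f) ⊆ D.biUnion (fun d => univ.filter (fun f : W → V => Injective f ∧
        ∀ i, ∃ a, f a = ![x, x'', z, u, d] i)) := by
    intro f hf
    simp only [mem_filter, mem_emb] at hf
    obtain ⟨⟨hinj, hE⟩, ⟨⟨a0, b0, hab0, hfa0, hfb0⟩, c0, hc0⟩, a, b, hab, hor⟩ := hf
    rcases hor with ⟨ha, hb⟩ | ⟨hb, ha⟩
    · have hEab := hE a b hab
      rw [ha] at hEab
      rcases hEab with hEab | ⟨h, _⟩
      · have hd := hD (f b) (Or.inl ⟨hEab, hb⟩)
        rw [mem_biUnion]
        refine ⟨f b, hd, ?_⟩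
        simp only [mem_filter, mem_univ, true_and]
        refine ⟨hinj, ?_⟩
        intro i
        fin_cases i
        · exact ⟨a0, hfa0⟩
        · exact ⟨a, ha⟩
        · exact ⟨b0, hfb0⟩
        · exact ⟨c0, hc0⟩
        · exact ⟨b, rfl⟩
      · exact absurd h.symm hxx
    · have hEab := hE a b hab
      rw [hb] at hEab
      rcases hEab with hEab | ⟨_, h⟩
      · have hd := hD (f a) (Or.inr ⟨hEab, ha⟩)
        rw [mem_biUnion]
        refine ⟨f a, hd, ?_⟩
        simp only [mem_filter, mem_univ, true_and]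
        refine ⟨hinj, ?_⟩
        intro i
        fin_cases i
        · exact ⟨a0, hfa0⟩
        · exact ⟨b, hb⟩
        · exact ⟨b0, hfb0⟩
        · exact ⟨c0, hc0⟩
        · exact ⟨a, rfl⟩
      · exact absurd h hxz''
  calc _ ≤ (D.biUnion (fun d => univ.filter (fun f : W → V => Injective f ∧
        ∀ i, ∃ a, f a = ![x, x'', z, u, d] i))).card := card_le_card hsub
    _ ≤ ∑ d ∈ D, (univ.filter (fun f : W → V => Injective f ∧
        ∀ i, ∃ a, f a = ![x, x'', z, u, d] i)).card := card_biUnion_le
    _ ≤ ∑ d ∈ D, bd V W 5 := sum_le_sum (fun d hd => card_bound' 5 _ (hdist d hd))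
    _ = _ := by simp

end Pool.Agent.H48.FIrr
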