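import Mathlib
import Pool.Agent.H48.FIrrBase
import Pool.Agent.H48.FIrrMove
import Pool.Agent.H48.FIrrConfig

namespace Pool.Agent.H48.FIrr

open Finset Function

variable {W : Type*} [Fintype W]
variable {Γ : Type*} [AddCommGroup Γ] [Fintype Γ]

/-- Level of the tail of the `a`-th modification arc at time `m`. -/
def xl (h A m a : ℕ) : ℕ := 2 * h + (A - 1 - a) + min h (m - a * h)

theorem xl_lt {h A : ℕ} (hA : A ≤ h) (m a : ℕ) (ha : a < A) : xl h A m a < 4 * h := by
  unfold xl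
  have := min_le_left h (m - a * h)
  omega

theorem le_xl {h A : ℕ} (m a : ℕ) : 2 * h ≤ xl h A m a := by
  unfold xl
  omega

theorem xl_anti {h A : ℕ} (m a a' : ℕ) (ha : a < a') (ha' : a' < A) :
    xl h A m a' < xl h A m a := by
  unfold xl
  have h1 : a * h ≤ a' * h := Nat.mul_le_mul_right _ ha.le
  have h2 : m - a' * h ≤ m - a * h := by omega
  have h3 : min h (m - a' * h) ≤ min h (m - a * h) := min_le_min_left h h2
  omega

theorem xl_inj {h A : ℕ} (m a a' : ℕ) (ha : a < A) (ha' : a' < A)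
    (he : xl h A m a = xl h A m a') : a = a' := by
  rcases lt_trichotomy a a' with h1 | h1 | h1
  · have := xl_anti (h := h) m a a' h1 ha'; omega
  · exact h1
  · have := xl_anti (h := h) m a' a h1 ha; omega

theorem xl_succ_self {h A : ℕ} (m : ℕ) (hh : 0 < h) :
    xl h A (m + 1) (m / h) = xl h A m (m / h) + 1 := by
  unfold xl
  have h1 : m / h * h + m % h = m := Nat.div_add_mod' m h
  have h2 : m % h < h := Nat.mod_lt _ hh
  have h3 : m - m / h * h = m % h := by omega
  have h4 : m + 1 - m / h * h = m % h + 1 := by omega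
  rw [h3, h4, min_eq_right h2.le, min_eq_right (by omega)]
  omega

theorem xl_succ_ne {h A : ℕ} (m a : ℕ) (hh : 0 < h) (ha : a ≠ m / h) :
    xl h A (m + 1) a = xl h A m a := by
  unfold xl
  congr 1
  have h1 : m / h * h + m % h = m := Nat.div_add_mod' m h
  have h2 : m % h < h := Nat.mod_lt _ hh
  rcases lt_or_gt_of_ne ha with h3 | h3
  · have h4 : (a + 1) * h ≤ m / h * h := Nat.mul_le_mul_right _ h3
    have h5 : (a + 1) * h = a * h + h := by ring
    rw [min_eq_left (by omega), min_eq_left (by omega)]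
  · have h4 : (m / h + 1) * h ≤ a * h := Nat.mul_le_mul_right _ h3
    have h5 : (m / h + 1) * h = m / h * h + h := by ring
    have h6 : m - a * h = 0 := by omega
    have h7 : m + 1 - a * h = 0 := by omega
    rw [h6, h7]

variable {N : ℕ} [NeZero N]

/-- Tail of a modification arc. -/
def xv (N : ℕ) [NeZero N] (h A : ℕ) (q : Γ → ℕ) (ta : Γ × Fin A) : Fin N × Γ :=
  (Fin.ofNat N (xl h A (q ta.1) ta.2.val), ta.1)

/-- Head of a modification arc. -/
def zv (N : ℕ) [NeZero N] (h A : ℕ) (α : Γ) (ta : Γ × Fin A) : Fin N × Γ :=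
  (Fin.ofNat N (h + ta.2.val), ta.1 + α)

open Classical in
/-- The modification arcs. -/
noncomputable def MoS (N : ℕ) [NeZero N] (h A : ℕ) (α : Γ) (q : Γ → ℕ) :
    Finset ((Fin N × Γ) × (Fin N × Γ)) :=
  univ.image (fun ta : Γ × Fin A => (xv N h A q ta, zv N h A α ta))

/-- The graph with parameters `q`. -/
def Eq' (S al : Set Γ) (N : ℕ) [NeZero N] (h A : ℕ) (α : Γ) (q : Γ → ℕ) :
    Fin N × Γ → Fin N × Γ → Prop :=
  addSet (E0 S al N) (MoS N h A α q)

/-- Common part of the graphs at two consecutive times. -/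
def Ec (S al : Set Γ) (N : ℕ) [NeZero N] (h A : ℕ) (α : Γ) (q : Γ → ℕ) (ta0 : Γ × Fin A)
    (u v : Fin N × Γ) : Prop :=
  E0 S al N u v ∨ ∃ ta, ta ≠ ta0 ∧ u = xv N h A q ta ∧ v = zv N h A α ta

variable {h A : ℕ} (hN : N = 8 * h) (hA : A ≤ h) (hh : 1 ≤ h)

include hN hA in
theorem xv_val (q : Γ → ℕ) (ta : Γ × Fin A) :
    (xv N h A q ta).1.val = xl h A (q ta.1) ta.2.val := by
  have := xl_lt hA (q ta.1) ta.2.val ta.2.2
  simp only [xv, Fin.val_ofNat]
  exact Nat.mod_eq_of_lt (by omega)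

include hN hA in
theorem zv_val (α : Γ) (ta : Γ × Fin A) :
    (zv N h A α ta).1.val = h + ta.2.val := by
  have := ta.2.2
  simp only [zv, Fin.val_ofNat]
  exact Nat.mod_eq_of_lt (by omega)

include hN hA in
theorem xv_inj (q : Γ → ℕ) (ta ta' : Γ × Fin A) (he : xv N h A q ta = xv N h A q ta') :
    ta = ta' := by
  have h1 : ta.1 = ta'.1 := congrArg Prod.snd he
  have h2 := congrArg (fun x => x.1.val) he
  simp only [xv_val hN hA] at h2
  rw [h1] at h2
  have := xl_inj (h := h) (A := A) _ _ _ ta.2.2 ta'.2.2 h2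
  exact Prod.ext h1 (Fin.ext this)

include hN hA in
theorem zv_inj (α : Γ) (ta ta' : Γ × Fin A) (he : zv N h A α ta = zv N h A α ta') :
    ta = ta' := by
  have h1 : ta.1 + α = ta'.1 + α := congrArg Prod.snd he
  have h2 := congrArg (fun x => x.1.val) he
  simp only [zv_val hN hA] at h2
  exact Prod.ext (add_right_cancel h1) (Fin.ext (by omega))

include hN hA in
theorem xv_ne_zv (q : Γ → ℕ) (α : Γ) (ta ta' : Γ × Fin A) :
    xv N h A q ta ≠ zv N h A α ta' := by
  intro he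
  have h2 := congrArg (fun x => x.1.val) he
  simp only [xv_val hN hA, zv_val hN hA] at h2
  have := le_xl (h := h) (A := A) (q ta.1) ta.2.val
  have := ta'.2.2
  omega

theorem MoS_card (α : Γ) (q : Γ → ℕ) : (MoS N h A α q).card ≤ Fintype.card Γ * A := by
  classical
  unfold MoS
  refine card_image_le.trans ?_
  simp

theorem mem_MoS (α : Γ) (q : Γ → ℕ) (e) :
    e ∈ MoS N h A α q ↔ ∃ ta : Γ × Fin A, (xv N h A q ta, zv N h A α ta) = e := by
  classical
  simp [MoS]

include hN hA hh in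
theorem Eq_level_sep (R : W → W → Prop) (S al : Set Γ) (α : Γ)
    (hS : ∀ s ∈ S, -s ∉ S) (hα : α ∈ al) (hαS : α ∈ S)
    (ψ : W → Γ) (v0 w0 : W) (hc : Canon R S al α ψ v0 w0) (hne : v0 ≠ w0)
    (hk : 2 ≤ Fintype.card W) (q : Γ → ℕ)
    (hbd : (Fintype.card Γ * A + 4) * bd (Fin N × Γ) W 3 < N ^ (Fintype.card W - 2))
    (i : ℕ) (hi : i + 1 < N) (γ γ' : Γ) :
    cnt R (Eq' S al N h A α q) ((⟨i, by omega⟩ : Fin N), γ) <
      cnt R (Eq' S al N h A α q) ((⟨i + 1, hi⟩ : Fin N), γ') := by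
  unfold Eq'
  refine level_sep R S al N α hS hα hαS ψ v0 w0 hc hne hk (MoS N h A α q) ?_ ?_ ?_ ?_ ?_
    i hi γ γ'
  · intro e he
    rw [mem_MoS] at he
    obtain ⟨ta, rfl⟩ := he
    refine ⟨rfl, ?_⟩
    simp only [xv_val hN hA, zv_val hN hA]
    unfold xl
    have := min_le_left h (q ta.1 - ta.2.val * h)
    have := ta.2.2
    omega
  · intro e he e' he' hee
    rw [mem_MoS] at he he'
    obtain ⟨ta, rfl⟩ := he
    obtain ⟨ta', rfl⟩ := he'
    have := xv_inj hN hA q ta ta' hee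
    rw [this]
  · intro e he e' he' hee
    rw [mem_MoS] at he he'
    obtain ⟨ta, rfl⟩ := he
    obtain ⟨ta', rfl⟩ := he'
    have := zv_inj hN hA α ta ta' hee
    rw [this]
  · intro e he e' he' hee
    rw [mem_MoS] at he he'
    obtain ⟨ta, rfl⟩ := he
    obtain ⟨ta', rfl⟩ := he'
    exact xv_ne_zv hN hA q α ta ta' hee
  · refine lt_of_le_of_lt ?_ hbd
    apply Nat.mul_le_mul_right
    have := MoS_card (N := N) (h := h) (A := A) α q
    omega

theorem Eq_eq_addArc (S al : Set Γ) (α : Γ) (q : Γ → ℕ) (ta0 : Γ × Fin A) :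
    Eq' S al N h A α q =
      addArc (Ec S al N h A α q ta0) (xv N h A q ta0) (zv N h A α ta0) := by
  funext u v
  apply propext
  unfold Eq' addSet addArc Ec
  rw [mem_MoS]
  constructor
  · rintro (h1 | ⟨ta, hta⟩)
    · exact Or.inl (Or.inl h1)
    · by_cases h2 : ta = ta0
      · subst h2
        exact Or.inr ⟨(congrArg Prod.fst hta).symm, (congrArg Prod.snd hta).symm⟩
      · exact Or.inl (Or.inr ⟨ta, h2, (congrArg Prod.fst hta).symm,
          (congrArg Prod.snd hta).symm⟩)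
  · rintro ((h1 | ⟨ta, _, h3, h4⟩) | ⟨h3, h4⟩)
    · exact Or.inl h1
    · exact Or.inr ⟨ta, by rw [h3, h4]⟩
    · exact Or.inr ⟨ta0, by rw [h3, h4]⟩

include hh in
theorem xv_update [DecidableEq Γ] (q : Γ → ℕ) (t : Γ) (a0 : Fin A) (ha0 : a0.val = q t / h)
    (ta : Γ × Fin A) (hta : ta ≠ (t, a0)) :
    xv N h A (update q t (q t + 1)) ta = xv N h A q ta := by
  unfold xv
  by_cases h1 : ta.1 = t
  · have h2 : ta.2.val ≠ q t / h := by
      intro h3
      apply hta
      exact Prod.ext h1 (Fin.ext (by rw [h3, ha0]))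
    rw [h1, update_self, xl_succ_ne (q t) ta.2.val hh h2]
  · rw [update_of_ne h1]

include hh in
theorem Ec_update [DecidableEq Γ] (S al : Set Γ) (α : Γ) (q : Γ → ℕ) (t : Γ) (a0 : Fin A)
    (ha0 : a0.val = q t / h) :
    Ec S al N h A α (update q t (q t + 1)) (t, a0) = Ec S al N h A α q (t, a0) := by
  funext u v
  unfold Ec
  apply propext
  constructor
  · rintro (h1 | ⟨ta, h2, h3, h4⟩)
    · exact Or.inl h1
    · rw [xv_update hh q t a0 ha0 ta h2] at h3
      exact Or.inr ⟨ta, h2, h3, h4⟩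
  · rintro (h1 | ⟨ta, h2, h3, h4⟩)
    · exact Or.inl h1
    · rw [← xv_update hh q t a0 ha0 ta h2] at h3
      exact Or.inr ⟨ta, h2, h3, h4⟩

end Pool.Agent.H48.FIrr
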