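import Mathlib
import Pool.Agent.H48.FIrrGraph

namespace Pool.Agent.H48.FIrr

open Finset Function

variable {W : Type*} [Fintype W]
variable {Γ : Type*} [AddCommGroup Γ] [Fintype Γ]
variable {N : ℕ} [NeZero N] {h A : ℕ} (hN : N = 8 * h) (hA : A ≤ h) (hh : 1 ≤ h)

theorem E0_diff_left (S al : Set Γ) (x x'' d : Fin N × Γ) (h2 : x''.2 = x.2)
    (h1 : x''.1.val = x.1.val + 1) (ha : E0 S al N x'' d) (hb : ¬ E0 S al N x d) :
    d.2 - x.2 ∈ al ∧ x.1.val + d.1.val + 2 = N := by
  unfold E0 at ha hb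
  rw [h2] at ha
  have h3 : ¬ (d.2 - x.2 ∈ al → N ≤ x.1.val + d.1.val + 1) := fun h => hb ⟨ha.1, h⟩
  push Not at h3
  have h4 := ha.2 h3.1
  refine ⟨h3.1, ?_⟩
  omega

theorem E0_diff_right (S al : Set Γ) (x x'' d : Fin N × Γ) (h2 : x''.2 = x.2)
    (h1 : x''.1.val = x.1.val + 1) (ha : E0 S al N d x'') (hb : ¬ E0 S al N d x) :
    x.2 - d.2 ∈ al ∧ x.1.val + d.1.val + 2 = N := by
  unfold E0 at ha hb
  rw [h2] at ha
  have h3 : ¬ (x.2 - d.2 ∈ al → N ≤ d.1.val + x.1.val + 1) := fun h => hb ⟨ha.1, h⟩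
  push Not at h3
  have h4 := ha.2 h3.1
  refine ⟨h3.1, ?_⟩
  omega

section

variable (S al : Set Γ) (α : Γ) (q : Γ → ℕ)

include hN hA in
theorem Ec_xl (ta0 : Γ × Fin A) (v : Fin N × Γ)
    (he : Ec S al N h A α q ta0 (xv N h A q ta0) v) : E0 S al N (xv N h A q ta0) v := by
  rcases he with he | ⟨ta, h1, h2, _⟩
  · exact he
  · exact absurd (xv_inj hN hA q ta0 ta h2).symm h1

include hN hA in
theorem Ec_xr (q' : Γ → ℕ) (ta0 ta1 : Γ × Fin A) (v : Fin N × Γ)
    (he : Ec S al N h A α q ta0 v (xv N h A q' ta1)) : E0 S al N v (xv N h A q' ta1) := by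
  rcases he with he | ⟨ta, _, _, h2⟩
  · exact he
  · exact absurd h2 (xv_ne_zv hN hA q' α ta1 ta)

include hN hA in
theorem Ec_zl (ta0 ta1 : Γ × Fin A) (v : Fin N × Γ)
    (he : Ec S al N h A α q ta0 (zv N h A α ta1) v) : E0 S al N (zv N h A α ta1) v := by
  rcases he with he | ⟨ta, _, h2, _⟩
  · exact he
  · exact absurd h2.symm (xv_ne_zv hN hA q α ta ta1)

include hN hA in
theorem Ec_zr (ta0 : Γ × Fin A) (v : Fin N × Γ)
    (he : Ec S al N h A α q ta0 v (zv N h A α ta0)) : E0 S al N v (zv N h A α ta0) := by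
  rcases he with he | ⟨ta, h1, _, h2⟩
  · exact he
  · exact absurd (zv_inj hN hA α ta0 ta h2).symm h1

include hN hA hh in
theorem x''_val [DecidableEq Γ] (t : Γ) (a0 : Fin A) (ha0 : a0.val = q t / h) :
    (xv N h A (update q t (q t + 1)) (t, a0)).1.val = (xv N h A q (t, a0)).1.val + 1 := by
  rw [xv_val hN hA, xv_val hN hA]
  simp only [update_self]
  rw [ha0]
  exact xl_succ_self (q t) hh

include hN hA hh in
theorem Ec_dom [DecidableEq Γ] (t : Γ) (a0 : Fin A) (ha0 : a0.val = q t / h) :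
    Dom (Ec S al N h A α q (t, a0)) (xv N h A q (t, a0))
      (xv N h A (update q t (q t + 1)) (t, a0)) := by
  have hv := x''_val hN hA hh q t a0 ha0
  have hd : Dom (E0 S al N) (xv N h A q (t, a0))
      (xv N h A (update q t (q t + 1)) (t, a0)) := by
    have h1 : xv N h A q (t, a0) = ((xv N h A q (t, a0)).1, t) := rfl
    have h2 : xv N h A (update q t (q t + 1)) (t, a0) =
      ((xv N h A (update q t (q t + 1)) (t, a0)).1, t) := rfl
    rw [h1, h2]
    exact E0_dom S al N _ _ t (by omega)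
  intro v
  constructor
  · intro he
    exact Or.inl ((hd v).1 (Ec_xl hN hA S al α q _ v he))
  · intro he
    exact Or.inl ((hd v).2 (Ec_xr hN hA S al α q q _ _ v he))

include hN hA hh in
theorem step_le [DecidableEq Γ] (R : W → W → Prop) (hR : ∀ a b, R a b → ¬ R b a)
    (hS : ∀ s ∈ S, -s ∉ S) (hal : al ⊆ S) (hα : α ∈ al)
    (ψ0 : W → Γ) (v0 w0 y0 : W) (hc0 : Config R S al α ψ0 v0 w0 y0)
    (t : Γ) (a0 : Fin A) (ha0 : a0.val = q t / h) (i : Fin N) (τ : Γ)
    (hτ : ∀ (ψ' : W → Γ) (v' w' y' : W), Config R S al α ψ' v' w' y' →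
      ∀ b, ψ' b - ψ' v' ≠ τ) :
    cnt R (Eq' S al N h A α (update q t (q t + 1))) (i, t + τ) ≤
      cnt R (Eq' S al N h A α q) (i, t + τ) := by
  have hv := x''_val hN hA hh q t a0 ha0
  have hτ0 : τ ≠ 0 := by
    intro hτ0
    apply hτ ψ0 v0 w0 y0 hc0 v0
    rw [hτ0, sub_self]
  have h1x := xv_val hN hA q (t, a0)
  have h1z := zv_val hN hA α (t, a0)
  have hxlt := xl_lt hA (q t) a0.val a0.2
  have hxge := le_xl (h := h) (A := A) (q t) a0.val
  have ha0lt := a0.2
  rw [Eq_eq_addArc S al α (update q t (q t + 1)) (t, a0), Ec_update hh S al α q t a0 ha0,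
    Eq_eq_addArc S al α q (t, a0)]
  set x := xv N h A q (t, a0) with hx
  set x'' := xv N h A (update q t (q t + 1)) (t, a0) with hx''
  set z := zv N h A α (t, a0) with hz
  set E := Ec S al N h A α q (t, a0) with hE
  simp only at h1x h1z
  have hx2 : x.2 = t := rfl
  have hx''2 : x''.2 = t := rfl
  have hz2 : z.2 = t + α := rfl
  have hEx''l : ∀ v, E x'' v → E0 S al N x'' v := by
    intro v he
    rw [hE, ← Ec_update hh S al α q t a0 ha0] at he
    exact Ec_xl hN hA S al α _ _ v he
  have hEx''r : ∀ v, E v x'' → E0 S al N v x'' := fun v he =>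
    Ec_xr hN hA S al α q _ _ _ v he
  have hExl : ∀ v, E x v → E0 S al N x v := fun v he => Ec_xl hN hA S al α q _ v he
  have hExr : ∀ v, E v x → E0 S al N v x := fun v he => Ec_xr hN hA S al α q _ _ _ v he
  have hE0E : ∀ u v, E0 S al N u v → E u v := fun u v he => Or.inl he
  have hxx'' : x ≠ x'' := by
    intro he
    have := congrArg (fun p => p.1.val) he
    omega
  have hirr : ∀ a, ¬ R a a := fun a ha => hR a a ha ha
  refine move_le R E x x'' z (i, t + τ) (Ec_dom hN hA hh S al α q t a0 ha0) ?_ ?_ ?_ ?_ ?_ ?_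
    (xv_ne_zv hN hA q α _ _) (xv_ne_zv hN hA _ α _ _) ?_ ?_ ?_
  · exact fun he => E0_same S al hS N x x rfl (hExl _ he)
  · exact fun he => E0_same S al hS N x x'' rfl (hExl _ he)
  · exact fun he => E0_same S al hS N x'' x rfl (hEx''l _ he)
  · exact fun he => E0_same S al hS N x'' x'' rfl (hEx''l _ he)
  · intro he
    have := (hExl _ he).2 (by rw [hz2, hx2]; simpa using hα)
    omega
  · intro he
    have := (hEx''l _ he).2 (by rw [hz2, hx''2]; simpa using hα)
    omega
  · intro he
    have := congrArg Prod.snd he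
    rw [hx2] at this
    exact hτ0 (by simpa using this)
  · intro he
    have := congrArg Prod.snd he
    rw [hx''2] at this
    exact hτ0 (by simpa using this)
  · intro f hf huse hu hUD
    rw [mem_emb] at hf
    obtain ⟨hinj, hE'⟩ := hf
    obtain ⟨v', w', hvw', hfv', hfw'⟩ := huse
    obtain ⟨b0, hb0⟩ := hu
    -- all arcs have types in S
    have hom : ∀ a b, R a b → (f b).2 - (f a).2 ∈ S := by
      intro a b hab
      rcases hE' a b hab with (he | ⟨ta, _, h3, h4⟩) | ⟨h3, h4⟩
      · exact he.1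
      · rw [h3, h4]
        simp only [xv, zv, add_sub_cancel_left]
        exact hal hα
      · rw [h3, h4, hz2, hx''2, add_sub_cancel_left]
        exact hal hα
    have hdiff : (f w').2 - (f v').2 = α := by
      rw [hfw', hfv', hz2, hx''2, add_sub_cancel_left]
    have hfin : ∀ y', (R v' y' ∧ (f y').2 - (f v').2 ∈ al) ∨ (R y' v' ∧ (f v').2 - (f y').2 ∈ al) →
        y' ≠ w' → x.1.val + (f y').1.val + 2 = N → False := by
      intro y' hvy hyw hlev
      have hy'v' : y' ≠ v' := by
        rintro rfl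
        rcases hvy with ⟨h3, _⟩ | ⟨h3, _⟩ <;> exact hirr _ h3
      have hcfg : Config R S al α (fun b => (f b).2) v' w' y' := by
        refine ⟨hom, hvw', hdiff, hvy, hyw, ?_, ?_⟩
        · intro hwy hmem
          have hEz : E z (f y') := by
            rcases hE' w' y' hwy with he | ⟨h3, _⟩
            · rw [hfw'] at he; exact he
            · rw [hfw'] at h3
              exact absurd h3.symm (xv_ne_zv hN hA _ α _ _)
          have hE0z : E0 S al N z (f y') := Ec_zl hN hA S al α q _ _ _ hEz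
          rw [hfw'] at hmem
          have := hE0z.2 hmem
          omega
        · intro hyw' hmem
          have hEz : E (f y') z := by
            rcases hE' y' w' hyw' with he | ⟨h3, _⟩
            · rw [hfw'] at he; exact he
            · rw [← hfv'] at h3
              exact absurd (hinj h3) hy'v'
          have hE0z : E0 S al N (f y') z := Ec_zr hN hA S al α q _ _ hEz
          rw [hfw'] at hmem
          have := hE0z.2 hmem
          omega
      apply hτ _ _ _ _ hcfg b0
      rw [hb0, hfv', hx''2, add_sub_cancel_left]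
    obtain ⟨a, b, hab, ⟨ha, hbz, hnE⟩ | ⟨hb, hnE⟩⟩ := hUD
    · have hav' : a = v' := hinj (ha.trans hfv'.symm)
      subst hav'
      have hEb : E x'' (f b) := by
        rcases hE' a b hab with he | ⟨_, h3⟩
        · rw [ha] at he; exact he
        · exact absurd h3 hbz
      have hnE0 : ¬ E0 S al N x (f b) := fun he => hnE (hE0E _ _ he)
      obtain ⟨h3, h4⟩ := E0_diff_left S al x x'' (f b) rfl hv (hEx''l _ hEb) hnE0
      refine hfin b (Or.inl ⟨hab, ?_⟩) ?_ h4
      · rw [ha, hx''2]; exact h3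
      · rintro rfl
        exact hbz hfw'
    · have hbv' : b = v' := hinj (hb.trans hfv'.symm)
      subst hbv'
      have hEa : E (f a) x'' := by
        rcases hE' a b hab with he | ⟨_, h3⟩
        · rw [hb] at he; exact he
        · rw [hb] at h3
          exact absurd h3 (xv_ne_zv hN hA _ α _ _)
      have hnE0 : ¬ E0 S al N (f a) x := fun he => hnE (hE0E _ _ he)
      obtain ⟨h3, h4⟩ := E0_diff_right S al x x'' (f a) rfl hv (hEx''r _ hEa) hnE0
      refine hfin a (Or.inr ⟨hab, ?_⟩) ?_ h4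
      · rw [hb, hx''2]; exact h3
      · rintro rfl
        exact hR _ _ hab hvw'

end

end Pool.Agent.H48.FIrr
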