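import Mathlib
import Pool.Agent.H48.FIrrStep

namespace Pool.Agent.H48.FIrr

open Finset Function

variable {W : Type*} [Fintype W]
variable {Γ : Type*} [AddCommGroup Γ] [Fintype Γ]
variable {N : ℕ} [NeZero N] {h A : ℕ} (hN : N = 8 * h) (hA : A ≤ h) (hh : 1 ≤ h)

open Classical in
/-- Levels of the family of embeddings used for the lower bound. -/
noncomputable def lvl (N h B j s i a0 : ℕ) (idx : W → ℕ) (v w y u : W) (lev : W → Fin B)
    (a : W) : ℕ :=
  if a = v then j + 1 else if a = w then h + a0 else if a = y then N - 2 - j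
  else if a = u then i else N - 1 - (s + (idx a * B + (lev a).val))

theorem exists_s (N K i : ℕ) (hi : i < N) (h2 : 2 * K ≤ N) :
    ∃ s ≤ K, ∀ x < K, N - 1 - (s + x) ≠ i := by
  by_cases hc : N - 1 - i < K
  · refine ⟨K, le_refl _, ?_⟩
    intro x hx
    omega
  · refine ⟨0, Nat.zero_le _, ?_⟩
    intro x hx
    omega

include hN hA hh in
theorem lower_M3 [DecidableEq Γ] (S al : Set Γ) (α : Γ) (q : Γ → ℕ) (R : W → W → Prop)
    (hR : ∀ a b, R a b → ¬ R b a)
    (hS : ∀ s ∈ S, -s ∉ S) (hal : al ⊆ S) (hα : α ∈ al)
    (ψ : W → Γ) (v w y u : W) (hc : Config R S al α ψ v w y)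
    (huv : ψ u ≠ ψ v) (huw : ψ u ≠ ψ w) (huy : ψ u ≠ ψ y)
    (hu2 : ∀ b, (R u b → ψ b - ψ u ∉ al) ∧ (R b u → ψ u - ψ b ∉ al))
    (t : Γ) (a0 : Fin A) (ha0 : a0.val = q t / h) (i : Fin N)
    (B : ℕ) (hB : h = 2 * (Fintype.card W * B)) (idx : W → ℕ) (hinj : Injective idx)
    (hidx : ∀ a, idx a < Fintype.card W) :
    B ^ Fintype.card W ≤ (goodSet R (Ec S al N h A α q (t, a0)) (xv N h A q (t, a0))
      (xv N h A (update q t (q t + 1)) (t, a0)) (zv N h A α (t, a0))
      (i, t + (ψ u - ψ v))).card * B ^ 4 := by
  have hv := x''_val hN hA hh q t a0 ha0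
  have h1x := xv_val hN hA q (t, a0)
  have h1z := zv_val hN hA α (t, a0)
  have hxlt := xl_lt hA (q t) a0.val a0.2
  have hxge := le_xl (h := h) (A := A) (q t) a0.val
  have ha0lt := a0.2
  set x := xv N h A q (t, a0) with hx
  set x'' := xv N h A (update q t (q t + 1)) (t, a0) with hx''
  set z := zv N h A α (t, a0) with hz
  set E := Ec S al N h A α q (t, a0) with hE
  simp only at h1x h1z
  have hx2 : x.2 = t := rfl
  have hx''2 : x''.2 = t := rfl
  have hz2 : z.2 = t + α := rfl
  set j := x.1.val with hj
  have hirr : ∀ a, ¬ R a a := fun a ha => hR a a ha ha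
  have hvw : v ≠ w := by rintro rfl; exact hirr _ hc.arc
  have hvy : v ≠ y := by
    rintro rfl
    rcases hc.vy with ⟨h3, _⟩ | ⟨h3, _⟩ <;> exact hirr _ h3
  have huv' : u ≠ v := by rintro rfl; exact huv rfl
  have huw' : u ≠ w := by rintro rfl; exact huw rfl
  have huy' : u ≠ y := by rintro rfl; exact huy rfl
  obtain ⟨s, hs, hsi⟩ := exists_s N (Fintype.card W * B) i.val i.2 (by omega)
  have hxlmax : j + 1 < 4 * h := by
    have hlt := xl_lt hA (update q t (q t + 1) t) a0.val a0.2
    have := xv_val hN hA (update q t (q t + 1)) (t, a0)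
    simp only at this
    rw [← hx''] at this
    omega
  -- bound of the free offset
  have hfree : ∀ (lev : W → Fin B) (a : W), idx a * B + (lev a).val < Fintype.card W * B := by
    intro lev a
    have h1 := (lev a).2
    have h2 : (idx a + 1) * B ≤ Fintype.card W * B := Nat.mul_le_mul_right _ (hidx a)
    have h3 : (idx a + 1) * B = idx a * B + B := by ring
    omega
  -- values of the level function
  have lv_v : ∀ lev, lvl N h B j s i.val a0.val idx v w y u lev v = j + 1 := by
    intro lev; simp [lvl]
  have lv_w : ∀ lev, lvl N h B j s i.val a0.val idx v w y u lev w = h + a0.val := by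
    intro lev; simp [lvl, Ne.symm hvw]
  have lv_y : ∀ lev, lvl N h B j s i.val a0.val idx v w y u lev y = N - 2 - j := by
    intro lev; simp [lvl, Ne.symm hvy, hc.yw]
  have lv_u : ∀ lev, lvl N h B j s i.val a0.val idx v w y u lev u = i.val := by
    intro lev; simp [lvl, huv', huw', huy']
  have lv_f : ∀ lev a, a ≠ v → a ≠ w → a ≠ y → a ≠ u →
      lvl N h B j s i.val a0.val idx v w y u lev a =
        N - 1 - (s + (idx a * B + (lev a).val)) := by
    intro lev a h1 h2 h3 h4; simp [lvl, h1, h2, h3, h4]
  have lv_f' : ∀ lev a, a ≠ v → a ≠ w → a ≠ y → a ≠ u →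
      N ≤ lvl N h B j s i.val a0.val idx v w y u lev a + h := by
    intro lev a h1 h2 h3 h4
    rw [lv_f lev a h1 h2 h3 h4]
    have := hfree lev a
    omega
  have lv_h : ∀ lev a, a ≠ u → h ≤ lvl N h B j s i.val a0.val idx v w y u lev a := by
    intro lev a h4
    by_cases h1 : a = v
    · rw [h1, lv_v]; omega
    · by_cases h2 : a = w
      · rw [h2, lv_w]; omega
      · by_cases h3 : a = y
        · rw [h3, lv_y]; omega
        · have := lv_f' lev a h1 h2 h3 h4
          omega
  have lv_lt : ∀ lev a, lvl N h B j s i.val a0.val idx v w y u lev a < N := by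
    intro lev a
    by_cases h1 : a = v
    · rw [h1, lv_v]; omega
    · by_cases h2 : a = w
      · rw [h2, lv_w]; omega
      · by_cases h3 : a = y
        · rw [h3, lv_y]; omega
        · by_cases h4 : a = u
          · rw [h4, lv_u]; exact i.2
          · rw [lv_f lev a h1 h2 h3 h4]; omega
  let F : (W → Fin B) → W → Fin N × Γ := fun lev a =>
    (Fin.ofNat N (lvl N h B j s i.val a0.val idx v w y u lev a), t + (ψ a - ψ v))
  have hFval : ∀ lev a, (F lev a).1.val = lvl N h B j s i.val a0.val idx v w y u lev a := by
    intro lev a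
    simp only [F, Fin.val_ofNat]
    exact Nat.mod_eq_of_lt (lv_lt lev a)
  have hF2 : ∀ lev a, (F lev a).2 = t + (ψ a - ψ v) := fun _ _ => rfl
  have hFd : ∀ lev a b, (F lev b).2 - (F lev a).2 = ψ b - ψ a := by
    intro lev a b
    rw [hF2, hF2]; abel
  have hFv : ∀ lev, F lev v = x'' := by
    intro lev
    apply Prod.ext
    · apply Fin.ext
      rw [hFval, lv_v, hv]
    · rw [hF2, hx''2]; simp
  have hFw : ∀ lev, F lev w = z := by
    intro lev
    apply Prod.ext
    · apply Fin.ext
      rw [hFval, lv_w, h1z]
    · rw [hF2, hz2, hc.diff]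
  have hFu : ∀ lev, F lev u = (i, t + (ψ u - ψ v)) := by
    intro lev
    apply Prod.ext
    · apply Fin.ext
      rw [hFval, lv_u]
    · rw [hF2]
  have hal0 : ∀ r ∈ al, r ≠ 0 := by
    rintro r hr rfl
    have := hS 0 (hal hr)
    rw [neg_zero] at this
    exact this (hal hr)
  -- injectivity of each map
  have hFinj : ∀ lev, Injective (F lev) := by
    intro lev a b hab
    have e1 : lvl N h B j s i.val a0.val idx v w y u lev a =
        lvl N h B j s i.val a0.val idx v w y u lev b := by
      rw [← hFval, ← hFval, hab]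
    have e2 : ψ a = ψ b := by
      have := congrArg Prod.snd hab
      rw [hF2, hF2] at this
      exact sub_left_injective (add_left_cancel this)
    by_contra hne
    -- a general asymmetric statement
    have key : ∀ a b, a ≠ b → lvl N h B j s i.val a0.val idx v w y u lev a =
        lvl N h B j s i.val a0.val idx v w y u lev b → ψ a = ψ b →
        (a = v ∨ a = w ∨ a = y ∨ a = u) → False := by
      intro a b hne e1 e2 hor
      rcases hor with rfl | rfl | rfl | rfl
      · rw [lv_v] at e1
        by_cases b2 : b = w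
        · rw [b2, lv_w] at e1; omega
        · by_cases b3 : b = y
          · rw [b3, lv_y] at e1; omega
          · by_cases b4 : b = u
            · rw [b4] at e2; exact huv e2.symm
            · have := lv_f' lev b (Ne.symm hne) b2 b3 b4
              omega
      · rw [lv_w] at e1
        by_cases b1 : b = v
        · rw [b1, lv_v] at e1; omega
        · by_cases b3 : b = y
          · rw [b3, lv_y] at e1; omega
          · by_cases b4 : b = u
            · rw [b4] at e2; exact huw e2.symm
            · have := lv_f' lev b b1 (Ne.symm hne) b3 b4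
              omega
      · rw [lv_y] at e1
        by_cases b1 : b = v
        · rw [b1, lv_v] at e1; omega
        · by_cases b2 : b = w
          · rw [b2, lv_w] at e1; omega
          · by_cases b4 : b = u
            · rw [b4] at e2; exact huy e2.symm
            · have := lv_f' lev b b1 b2 (Ne.symm hne) b4
              omega
      · by_cases b1 : b = v
        · rw [b1] at e2; exact huv e2
        · by_cases b2 : b = w
          · rw [b2] at e2; exact huw e2
          · by_cases b3 : b = y
            · rw [b3] at e2; exact huy e2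
            · rw [lv_u, lv_f lev b b1 b2 b3 (Ne.symm hne)] at e1
              exact hsi _ (hfree lev b) e1.symm
    by_cases ha : a = v ∨ a = w ∨ a = y ∨ a = u
    · exact key a b hne e1 e2 ha
    · by_cases hb : b = v ∨ b = w ∨ b = y ∨ b = u
      · exact key b a (Ne.symm hne) e1.symm e2.symm hb
      · push Not at ha hb
        rw [lv_f lev a ha.1 ha.2.1 ha.2.2.1 ha.2.2.2,
          lv_f lev b hb.1 hb.2.1 hb.2.2.1 hb.2.2.2] at e1
        have f1 := hfree lev a
        have f2 := hfree lev b
        have e3 : idx a * B + (lev a).val = idx b * B + (lev b).val := by omega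
        have l1 := (lev a).2
        have l2 := (lev b).2
        apply hne
        apply hinj
        rcases lt_trichotomy (idx a) (idx b) with h5 | h5 | h5
        · have : (idx a + 1) * B ≤ idx b * B := Nat.mul_le_mul_right _ h5
          have h6 : (idx a + 1) * B = idx a * B + B := by ring
          omega
        · exact h5
        · have : (idx b + 1) * B ≤ idx a * B := Nat.mul_le_mul_right _ h5
          have h6 : (idx b + 1) * B = idx b * B + B := by ring
          omega
  -- arcs
  have hFarc : ∀ lev a b, R a b → addArc E x'' z (F lev a) (F lev b) := by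
    intro lev a b hab
    have hSab : ψ b - ψ a ∈ S := hc.hom a b hab
    by_cases hvwab : a = v ∧ b = w
    · obtain ⟨rfl, rfl⟩ := hvwab
      exact Or.inr ⟨hFv lev, hFw lev⟩
    · refine Or.inl (Or.inl ⟨by rw [hFd]; exact hSab, ?_⟩)
      rw [hFd, hFval, hFval]
      intro hmem
      have hau : a ≠ u := by rintro rfl; exact (hu2 b).1 hab hmem
      have hbu : b ≠ u := by rintro rfl; exact (hu2 a).2 hab hmem
      have hha := lv_h lev a hau
      have hhb := lv_h lev b hbu
      by_cases fa : a = v ∨ a = w ∨ a = y
      · by_cases fb : b = v ∨ b = w ∨ b = y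
        · rcases fa with rfl | rfl | rfl
          · rcases fb with rfl | rfl | rfl
            · exact absurd hab (hirr _)
            · exact absurd ⟨rfl, rfl⟩ hvwab
            · rw [lv_v, lv_y]; omega
          · rcases fb with rfl | rfl | rfl
            · exact absurd hab (hR _ _ hc.arc)
            · exact absurd hab (hirr _)
            · exact absurd hmem (hc.wy.1 hab)
          · rcases fb with rfl | rfl | rfl
            · rw [lv_v, lv_y]; omega
            · exact absurd hmem (hc.wy.2 hab)
            · exact absurd hab (hirr _)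
        · push Not at fb
          have := lv_f' lev b fb.1 fb.2.1 fb.2.2 hbu
          omega
      · push Not at fa
        have := lv_f' lev a fa.1 fa.2.1 fa.2.2 hau
        omega
  -- membership
  have hmem : ∀ lev, F lev ∈ goodSet R E x x'' z (i, t + (ψ u - ψ v)) := by
    intro lev
    rw [mem_goodSet]
    refine ⟨⟨hFinj lev, hFarc lev⟩, ⟨⟨v, w, hc.arc, hFv lev, hFw lev⟩, u, hFu lev⟩, ?_⟩
    rcases hc.vy with ⟨h3, h4⟩ | ⟨h3, h4⟩
    · refine ⟨v, y, h3, Or.inl ⟨hFv lev, ?_, ?_⟩⟩
      · intro he
        have := congrArg (fun p => p.1.val) he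
        rw [hFval, lv_y, h1z] at this
        omega
      · intro he
        have he0 := Ec_xl hN hA S al α q _ _ he
        have h5 : (F lev y).2 - x.2 = ψ y - ψ v := by
          rw [hF2, hx2]; abel
        have h6 := he0.2 (by rw [← hx, h5]; exact h4)
        rw [hFval, lv_y, ← hx] at h6
        omega
    · refine ⟨y, v, h3, Or.inr ⟨hFv lev, ?_⟩⟩
      intro he
      have he0 := Ec_xr hN hA S al α q q _ _ _ he
      have h5 : x.2 - (F lev y).2 = ψ v - ψ y := by
        rw [hF2, hx2]; abel
      have h6 := he0.2 (by rw [← hx, h5]; exact h4)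
      rw [hFval, lv_y, ← hx] at h6
      omega
  -- counting
  classical
  have key : (univ : Finset (W → Fin B)).card ≤
      ((goodSet R E x x'' z (i, t + (ψ u - ψ v))) ×ˢ
        (univ : Finset (Fin B × Fin B × Fin B × Fin B))).card := by
    refine card_le_card_of_injOn (fun lev => (F lev, (lev v, lev w, lev y, lev u))) ?_ ?_
    · intro lev _
      rw [coe_product, Set.mem_prod]
      exact ⟨hmem lev, by simp⟩
    · intro lev _ lev' _ hll
      simp only [Prod.mk.injEq] at hll
      obtain ⟨h1, h2, h3, h4, h5⟩ := hll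
      funext a
      by_cases a1 : a = v
      · rw [a1]; exact h2
      · by_cases a2 : a = w
        · rw [a2]; exact h3
        · by_cases a3 : a = y
          · rw [a3]; exact h4
          · by_cases a4 : a = u
            · rw [a4]; exact h5
            · have e := congrArg (fun g => (g a).1.val) h1
              rw [hFval, hFval, lv_f lev a a1 a2 a3 a4, lv_f lev' a a1 a2 a3 a4] at e
              have f1 := hfree lev a
              have f2 := hfree lev' a
              apply Fin.ext
              omega
  rw [card_product, card_univ, card_univ, Fintype.card_fun, Fintype.card_prod,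
    Fintype.card_prod, Fintype.card_prod, Fintype.card_fin] at key
  refine key.trans (le_of_eq ?_)
  congr 1
  ring

theorem inj5 {V : Type*} (a b c d e : V) (h1 : a ≠ b) (h2 : a ≠ c) (h3 : a ≠ d) (h4 : a ≠ e)
    (h5 : b ≠ c) (h6 : b ≠ d) (h7 : b ≠ e) (h8 : c ≠ d) (h9 : c ≠ e) (h10 : d ≠ e) :
    Injective ![a, b, c, d, e] := by
  intro i j hij
  fin_cases i <;> fin_cases j <;> simp_all

include hN hA hh in
theorem step_lt [DecidableEq Γ] (S al : Set Γ) (α : Γ) (q : Γ → ℕ) (R : W → W → Prop)
    (hR : ∀ a b, R a b → ¬ R b a)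
    (hS : ∀ s ∈ S, -s ∉ S) (hal : al ⊆ S) (hα : α ∈ al)
    (ψ : W → Γ) (v w y u : W) (hc : Config R S al α ψ v w y)
    (huv : ψ u ≠ ψ v) (huw : ψ u ≠ ψ w) (huy : ψ u ≠ ψ y)
    (hu2 : ∀ b, (R u b → ψ b - ψ u ∉ al) ∧ (R b u → ψ u - ψ b ∉ al))
    (D : Finset Γ) (hD : ∀ r ∈ al, r ∈ D ∧ -r ∈ D) (hD0 : (0 : Γ) ∉ D) (hDc : D.card ≤ 4)
    (huD : ψ u - ψ v ∉ D)
    (t : Γ) (a0 : Fin A) (ha0 : a0.val = q t / h) (i : Fin N)
    (B : ℕ) (hB : h = 2 * (Fintype.card W * B)) (idx : W → ℕ) (hinj : Injective idx)
    (hidx : ∀ a, idx a < Fintype.card W)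
    (hbd : 4 * bd (Fin N × Γ) W 5 * B ^ 4 < B ^ Fintype.card W) :
    cnt R (Eq' S al N h A α q) (i, t + (ψ u - ψ v)) <
      cnt R (Eq' S al N h A α (update q t (q t + 1))) (i, t + (ψ u - ψ v)) := by
  have hlow := lower_M3 hN hA hh S al α q R hR hS hal hα ψ v w y u hc huv huw huy hu2 t a0 ha0 i
    B hB idx hinj hidx
  have hv := x''_val hN hA hh q t a0 ha0
  have h1x := xv_val hN hA q (t, a0)
  have h1z := zv_val hN hA α (t, a0)
  have hxlt := xl_lt hA (q t) a0.val a0.2
  have hxge := le_xl (h := h) (A := A) (q t) a0.val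
  have ha0lt := a0.2
  rw [Eq_eq_addArc S al α (update q t (q t + 1)) (t, a0), Ec_update hh S al α q t a0 ha0,
    Eq_eq_addArc S al α q (t, a0)]
  set x := xv N h A q (t, a0) with hx
  set x'' := xv N h A (update q t (q t + 1)) (t, a0) with hx''
  set z := zv N h A α (t, a0) with hz
  set E := Ec S al N h A α q (t, a0) with hE
  simp only at h1x h1z
  have hx2 : x.2 = t := rfl
  have hx''2 : x''.2 = t := rfl
  have hz2 : z.2 = t + α := rfl
  set j := x.1.val with hj
  have hxlmax : j + 1 < 4 * h := by
    have hlt := xl_lt hA (update q t (q t + 1) t) a0.val a0.2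
    have := xv_val hN hA (update q t (q t + 1)) (t, a0)
    simp only at this
    rw [← hx''] at this
    omega
  have hEx''l : ∀ v, E x'' v → E0 S al N x'' v := by
    intro v he
    rw [hE, ← Ec_update hh S al α q t a0 ha0] at he
    exact Ec_xl hN hA S al α _ _ v he
  have hEx''r : ∀ v, E v x'' → E0 S al N v x'' := fun v he =>
    Ec_xr hN hA S al α q _ _ _ v he
  have hExl : ∀ v, E x v → E0 S al N x v := fun v he => Ec_xl hN hA S al α q _ v he
  have hExr : ∀ v, E v x → E0 S al N v x := fun v he => Ec_xr hN hA S al α q _ _ _ v he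
  have hE0E : ∀ u v, E0 S al N u v → E u v := fun u v he => Or.inl he
  have hxx'' : x ≠ x'' := by
    intro he
    have := congrArg (fun p => p.1.val) he
    omega
  have hal0 : ∀ r ∈ al, r ≠ 0 := by
    rintro r hr rfl
    have := hS 0 (hal hr)
    rw [neg_zero] at this
    exact this (hal hr)
  have h6 : ¬ E x'' z := by
    intro he
    have := (hEx''l _ he).2 (by rw [hz2, hx''2]; simpa using hα)
    omega
  have huv0 : ψ u - ψ v ≠ 0 := sub_ne_zero.2 huv
  have hbad : (badSet R E x x'' z (i, t + (ψ u - ψ v))).card ≤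
      4 * bd (Fin N × Γ) W 5 := by
    haveI : Nonempty (Fin N × Γ) := ⟨x⟩
    let Dset : Finset (Fin N × Γ) := D.image (fun r => (Fin.ofNat N (N - 2 - j), t + r))
    have hDset : Dset.card ≤ 4 := card_image_le.trans hDc
    have hmemD : ∀ d : Fin N × Γ, d.2 - t ∈ D → j + d.1.val + 2 = N → d ∈ Dset := by
      intro d h3 h4
      rw [mem_image]
      refine ⟨d.2 - t, h3, ?_⟩
      apply Prod.ext
      · apply Fin.ext
        simp only [Fin.val_ofNat]
        rw [Nat.mod_eq_of_lt (by omega)]
        omega
      · simp
    refine (bad_bound R E x x'' z (i, t + (ψ u - ψ v)) Dset ?_ ?_ h6 hxx''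
      (xv_ne_zv hN hA _ α _ _)).trans (Nat.mul_le_mul_right _ hDset)
    · rintro d (⟨h3, h4⟩ | ⟨h3, h4⟩)
      · obtain ⟨h5, h7⟩ := E0_diff_left S al x x'' d rfl hv (hEx''l _ h3)
          (fun he => h4 (hE0E _ _ he))
        exact hmemD d (hD _ h5).1 h7
      · obtain ⟨h5, h7⟩ := E0_diff_right S al x x'' d rfl hv (hEx''r _ h3)
          (fun he => h4 (hE0E _ _ he))
        refine hmemD d ?_ h7
        have := (hD _ h5).2
        rw [neg_sub] at this
        exact this
    · intro d hd
      rw [mem_image] at hd
      obtain ⟨r, hr, rfl⟩ := hd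
      have hr0 : r ≠ 0 := by rintro rfl; exact hD0 hr
      have hdval : (Fin.ofNat N (N - 2 - j) : Fin N).val = N - 2 - j := by
        simp only [Fin.val_ofNat]
        exact Nat.mod_eq_of_lt (by omega)
      refine inj5 _ _ _ _ _ hxx'' (xv_ne_zv hN hA q α _ _) ?_ ?_ (xv_ne_zv hN hA _ α _ _)
        ?_ ?_ ?_ ?_ ?_
      · intro he
        have := congrArg Prod.snd he
        rw [hx2] at this
        exact huv0 (by simpa using this)
      · intro he
        have := congrArg Prod.snd he
        rw [hx2] at this
        exact hr0 (by simpa using this)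
      · intro he
        have := congrArg Prod.snd he
        rw [hx''2] at this
        exact huv0 (by simpa using this)
      · intro he
        have := congrArg Prod.snd he
        rw [hx''2] at this
        exact hr0 (by simpa using this)
      · intro he
        have := congrArg Prod.snd he
        rw [hz2] at this
        simp only at this
        have h8 := add_left_cancel this
        rw [← hc.diff] at h8
        exact huw (sub_left_injective h8).symm
      · intro he
        have := congrArg (fun p => p.1.val) he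
        simp only [hdval] at this
        omega
      · intro he
        have := congrArg Prod.snd he
        simp only at this
        have h8 := add_left_cancel this
        rw [h8] at huD
        exact huD hr
  refine move_lt R E x x'' z (i, t + (ψ u - ψ v)) (Ec_dom hN hA hh S al α q t a0 ha0)
    ?_ ?_ ?_ ?_ ?_ h6
    (xv_ne_zv hN hA q α _ _) (xv_ne_zv hN hA _ α _ _) hxx'' ?_ ?_ ?_
  · exact fun he => E0_same S al hS N x x rfl (hExl _ he)
  · exact fun he => E0_same S al hS N x x'' rfl (hExl _ he)
  · exact fun he => E0_same S al hS N x'' x rfl (hEx''l _ he)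
  · exact fun he => E0_same S al hS N x'' x'' rfl (hEx''l _ he)
  · intro he
    have := (hExl _ he).2 (by rw [hz2, hx2]; simpa using hα)
    omega
  · intro he
    have := congrArg Prod.snd he
    rw [hx2] at this
    exact huv0 (by simpa using this)
  · intro he
    have := congrArg Prod.snd he
    rw [hx''2] at this
    exact huv0 (by simpa using this)
  · have h9 := Nat.mul_le_mul_right (B ^ 4) hbad
    have h10 := lt_of_le_of_lt h9 (lt_of_lt_of_le hbd hlow)
    exact lt_of_mul_lt_mul_right h10 (Nat.zero_le _)

end Pool.Agent.H48.FIrr
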