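import Mathlib

namespace Pool.Agent.H48.FIrr

open Finset Function

open Classical in
/-- Union bound: if each set `T x` meets every line in direction `t x` at most once and there
are fewer sets than points on a line, then some point lies in no set. -/
theorem union_bound {Γ I : Type*} [Fintype Γ] [Fintype I] (K : ℕ)
    (T : I → Finset (Γ → Fin K)) (t : I → Γ)
    (hT : ∀ x, ∀ q ∈ T x, ∀ q' ∈ T x, (∀ s, s ≠ t x → q s = q' s) → q = q')
    (hI : Fintype.card I < K) : ∃ q : Γ → Fin K, ∀ x, q ∉ T x := by
  have h1 : ∀ x, (T x).card * K ≤ Fintype.card (Γ → Fin K) := by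
    intro x
    have : ((T x) ×ˢ (univ : Finset (Fin K))).card ≤ (univ : Finset (Γ → Fin K)).card := by
      refine card_le_card_of_injOn (fun p => update p.1 (t x) p.2) (fun _ _ => by simp) ?_
      rintro ⟨q, m⟩ hq ⟨q', m'⟩ hq' he
      rw [coe_product, Set.mem_prod] at hq hq'
      simp only at he
      have e1 : m = m' := by
        have := congrFun he (t x)
        simpa using this
      have e2 : q = q' := by
        apply hT x q hq.1 q' hq'.1
        intro s hs
        have := congrFun he s
        rwa [update_of_ne hs, update_of_ne hs] at this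
      rw [e1, e2]
    rwa [card_product, card_univ, card_univ, Fintype.card_fin] at this
  by_contra hcon
  push Not at hcon
  have h2 : (univ : Finset (Γ → Fin K)) ⊆ univ.biUnion T := by
    intro q _
    obtain ⟨x, hx⟩ := hcon q
    rw [mem_biUnion]
    exact ⟨x, mem_univ _, hx⟩
  have h3 := (card_le_card h2).trans card_biUnion_le
  rw [card_univ] at h3
  have h4 : Fintype.card (Γ → Fin K) * K ≤ Fintype.card I * Fintype.card (Γ → Fin K) := by
    calc Fintype.card (Γ → Fin K) * K ≤ (∑ x : I, (T x).card) * K :=
          Nat.mul_le_mul_right _ h3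
      _ = ∑ x : I, (T x).card * K := by rw [sum_mul]
      _ ≤ ∑ x : I, Fintype.card (Γ → Fin K) := sum_le_sum (fun x _ => h1 x)
      _ = Fintype.card I * Fintype.card (Γ → Fin K) := by simp
  have hpos : 0 < Fintype.card (Γ → Fin K) := by
    haveI : Nonempty (Fin K) := ⟨⟨0, by omega⟩⟩
    exact Fintype.card_pos
  have h5 : Fintype.card I * Fintype.card (Γ → Fin K) <
      Fintype.card (Γ → Fin K) * K := by
    rw [mul_comm]
    exact Nat.mul_lt_mul_of_pos_left hI hpos
  omega

end Pool.Agent.H48.FIrr
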