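import Mathlib
import Pool.Agent.H48.FIrrUnion
import Pool.Agent.H48.FIrrStepLt
import Pool.Agent.H48.FIrrBest

namespace Pool.Agent.H48.FIrr

open Finset Function

variable {W : Type*} [Fintype W]

theorem Eq_asymm {Γ : Type*} [AddCommGroup Γ] [Fintype Γ] (S al : Set Γ)
    (hS : ∀ s ∈ S, -s ∉ S) (N : ℕ) [NeZero N] (h A : ℕ) (α : Γ) (hα : α ∈ S) (q : Γ → ℕ) :
    ∀ u v, Eq' S al N h A α q u v → ¬ Eq' S al N h A α q v u := by
  have key : ∀ u v, Eq' S al N h A α q u v → v.2 - u.2 ∈ S := by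
    intro u v he
    rcases he with he | he
    · exact he.1
    · rw [mem_MoS] at he
      obtain ⟨ta, hta⟩ := he
      have h1 : xv N h A q ta = u := congrArg Prod.fst hta
      have h2 : zv N h A α ta = v := congrArg Prod.snd hta
      rw [← h1, ← h2]
      simp only [xv, zv, add_sub_cancel_left]
      exact hα
  intro u v h1 h2
  have h3 := key _ _ h1
  have h4 := key _ _ h2
  rw [← neg_sub] at h4
  exact hS _ h3 h4

theorem num_b (k N g c b3 : ℕ) (hk : 2 ≤ k) (hg : 1 ≤ g) (hN1 : c * k ^ 3 * g ^ k < N)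
    (hb : b3 * (N * g) ^ 3 ≤ k ^ 3 * (N * g) ^ k) : c * b3 < N ^ (k - 2) := by
  have hN0 : 0 < N := by omega
  have h1 : c * b3 * (N * g) ^ 3 < N ^ (k - 2) * (N * g) ^ 3 := by
    calc c * b3 * (N * g) ^ 3 = c * (b3 * (N * g) ^ 3) := by ring
      _ ≤ c * (k ^ 3 * (N * g) ^ k) := Nat.mul_le_mul_left _ hb
      _ = (c * k ^ 3 * g ^ k) * N ^ k := by rw [mul_pow]; ring
      _ < N * N ^ k := Nat.mul_lt_mul_of_pos_right hN1 (by positivity)
      _ = N ^ (k - 2) * N ^ 3 := by
          rw [← pow_succ', ← pow_add]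
          congr 1
          omega
      _ ≤ N ^ (k - 2) * (N * g) ^ 3 := by
          apply Nat.mul_le_mul_left
          apply Nat.pow_le_pow_left
          exact Nat.le_mul_of_pos_right N hg
  exact lt_of_mul_lt_mul_right h1 (Nat.zero_le _)

theorem num_c (k B e b5 : ℕ) (he : 1 ≤ e) (hB : 4 * k ^ 5 * e ^ k < B)
    (hb : b5 * (e * B) ^ 5 ≤ k ^ 5 * (e * B) ^ k) : 4 * b5 * B ^ 4 < B ^ k := by
  have hB0 : 0 < B := by omega
  have h1 : 4 * b5 * B ^ 4 * (e * B) ^ 5 < B ^ k * (e * B) ^ 5 := by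
    calc 4 * b5 * B ^ 4 * (e * B) ^ 5 = 4 * B ^ 4 * (b5 * (e * B) ^ 5) := by ring
      _ ≤ 4 * B ^ 4 * (k ^ 5 * (e * B) ^ k) := Nat.mul_le_mul_left _ hb
      _ = (4 * k ^ 5 * e ^ k) * (B ^ 4 * B ^ k) := by rw [mul_pow]; ring
      _ < B * (B ^ 4 * B ^ k) := Nat.mul_lt_mul_of_pos_right hB (by positivity)
      _ = B ^ k * B ^ 5 := by ring
      _ ≤ B ^ k * (e * B) ^ 5 := by
          apply Nat.mul_le_mul_left
          apply Nat.pow_le_pow_left
          exact Nat.le_mul_of_pos_left B he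
  exact lt_of_mul_lt_mul_right h1 (Nat.zero_le _)

/-- Iterated level separation. -/
theorem levels_lt {Γ : Type*} {N : ℕ} (c : Fin N × Γ → ℕ)
    (h : ∀ (i : ℕ) (hi : i + 1 < N) (γ γ' : Γ),
      c ((⟨i, by omega⟩ : Fin N), γ) < c ((⟨i + 1, hi⟩ : Fin N), γ')) :
    ∀ (i j : Fin N) (γ γ' : Γ), i < j → c (i, γ) < c (j, γ') := by
  have key : ∀ (d i : ℕ) (hi : i + d + 1 < N) (γ γ' : Γ),
      c ((⟨i, by omega⟩ : Fin N), γ) < c ((⟨i + d + 1, hi⟩ : Fin N), γ') := by
    intro d
    induction d with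
    | zero => intro i hi γ γ'; exact h i hi γ γ'
    | succ d ih =>
      intro i hi γ γ'
      exact (ih i (by omega) γ γ').trans (h (i + d + 1) hi γ' γ')
  intro i j γ γ' hij
  have h1 : i.val < j.val := hij
  obtain ⟨d, hd⟩ := Nat.exists_eq_add_of_lt h1
  have := key d i.val (by omega) γ γ'
  have e : (⟨i.val + d + 1, by omega⟩ : Fin N) = j := Fin.ext hd.symm
  rwa [e] at this

open Classical in
theorem main4_aux (R : W → W → Prop) (hR : ∀ a b, R a b → ¬ R b a)
    (hconn : (SimpleGraph.fromRel R).Connected) (hk : 4 ≤ Fintype.card W)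
    (v0 w0 y0 : W) (h1 : R v0 w0) (h2 : R v0 y0 ∨ R y0 v0) (hyw : y0 ≠ w0) (m : ℕ) :
    ∃ n ≥ m, ∃ E : Fin n → Fin n → Prop, (∀ u v, E u v → ¬ E v u) ∧
      Injective (cnt R E) := by
  set k := Fintype.card W with hkdef
  -- parameters
  set P : ℕ := 8 * (2 ^ k * (k + 1)) + 1 with hPdef
  haveI : NeZero P := ⟨by omega⟩
  have hPo : Odd P := ⟨4 * (2 ^ k * (k + 1)), by rw [hPdef]; ring⟩
  have hP : 4 * (2 ^ k * (k + 1)) < P := by omega
  set Γ := ZMod P × ZMod P with hΓ
  set g : ℕ := Fintype.card Γ with hg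
  have hg1 : 1 ≤ g := Fintype.card_pos
  set A : ℕ := 8 * (g * g) with hAdef
  set c : ℕ := g * A + 4 with hcdef
  set B : ℕ := c * k ^ 3 * g ^ k + 4 * k ^ 5 * (16 * k * g) ^ k + A + m + 1 with hBdef
  set h : ℕ := 2 * (k * B) with hhdef
  set N : ℕ := 8 * h with hNdef
  have hkB : B ≤ k * B := Nat.le_mul_of_pos_left B (by omega)
  have hBA : A ≤ B := by omega
  have hA : A ≤ h := by omega
  have hB1 : 1 ≤ B := by omega
  have hh : 1 ≤ h := by omega
  haveI : NeZero N := ⟨by omega⟩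
  -- potential
  let e := Fintype.equivFin W
  let idx : W → ℕ := fun a => (e a).val
  have hinj : Injective idx := fun a b hab => e.injective (Fin.ext hab)
  have hidx : ∀ a, idx a < Fintype.card W := fun a => (e a).2
  set S := SS P R idx with hSdef
  set al := alS P R idx v0 w0 y0 with haldef
  set α := ty P idx v0 w0 with hαdef
  have hirr : ∀ a, ¬ R a a := fun a ha => hR a a ha ha
  have hS : ∀ s ∈ S, -s ∉ S := SS_neg R idx hinj hidx hP hR
  have hαal : α ∈ al := Or.inl rfl
  have halS : al ⊆ S := by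
    intro s hs
    rcases hs with rfl | rfl
    · exact ty_mem_SS R idx _ _ h1
    · split_ifs with h3
      · exact ty_mem_SS R idx _ _ h3
      · exact ty_mem_SS R idx _ _ (h2.resolve_left h3)
  have hal2 : ∀ s ∈ al, s.2 = 0 := alS_snd R idx v0 w0 y0
  have hα2 : α.2 = 0 := rfl
  have hcan := canon_exists R idx hinj hidx hP hR v0 w0 y0 h1 h2 hyw
  have hne : v0 ≠ w0 := by rintro rfl; exact hirr _ h1
  obtain ⟨ψ, v, w, y, u, hc, huv2, hu2, hbest⟩ :=
    best_config R idx hinj hidx hP hPo hR hconn v0 w0 y0 h1 h2 hyw hk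
  have hsnd := config_snd R hal2 hα2 hc
  have huv : ψ u ≠ ψ v := fun he => huv2 (congrArg Prod.snd he)
  have huw : ψ u ≠ ψ w := fun he => huv2 ((congrArg Prod.snd he).trans hsnd.1)
  have huy : ψ u ≠ ψ y := fun he => huv2 ((congrArg Prod.snd he).trans hsnd.2)
  have hu2' : ∀ b, (R u b → ψ b - ψ u ∉ al) ∧ (R b u → ψ u - ψ b ∉ al) := by
    intro b
    constructor
    · intro hb hmem
      have := hal2 _ hmem
      rw [Prod.snd_sub] at this
      exact hu2 b (Or.inl hb) (sub_eq_zero.1 this)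
    · intro hb hmem
      have := hal2 _ hmem
      rw [Prod.snd_sub] at this
      exact hu2 b (Or.inr hb) (sub_eq_zero.1 this).symm
  -- the set D
  set α2 : Γ := if R v0 y0 then ty P idx v0 y0 else ty P idx y0 v0 with hα2def
  let D : Finset Γ := {α, -α, α2, -α2}
  have hD2 : ∀ r ∈ D, r.2 = 0 := by
    intro r hr
    have hα22 : α2.2 = 0 := hal2 _ (Or.inr rfl)
    simp only [D, mem_insert, mem_singleton] at hr
    rcases hr with rfl | rfl | rfl | rfl
    · exact hα2
    · rw [Prod.snd_neg, hα2, neg_zero]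
    · exact hα22
    · rw [Prod.snd_neg, hα22, neg_zero]
  have hD : ∀ r ∈ al, r ∈ D ∧ -r ∈ D := by
    intro r hr
    rcases hr with hr | hr
    · have hr' : r = α := hr
      rw [hr']
      exact ⟨mem_insert_self _ _, mem_insert_of_mem (mem_insert_self _ _)⟩
    · have hr' : r = α2 := hr
      rw [hr']
      exact ⟨mem_insert_of_mem (mem_insert_of_mem (mem_insert_self _ _)),
        mem_insert_of_mem (mem_insert_of_mem (mem_insert_of_mem (mem_singleton_self _)))⟩
  have h0S : (0 : Γ) ∉ S := by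
    intro h0
    have := hS 0 h0
    rw [neg_zero] at this
    exact this h0
  have hD0 : (0 : Γ) ∉ D := by
    intro h0
    simp only [D, mem_insert, mem_singleton] at h0
    have hα0 : α ≠ 0 := fun he => h0S (he ▸ halS hαal)
    have hα20 : α2 ≠ 0 := fun he => h0S (he ▸ halS (Or.inr rfl))
    rcases h0 with h0 | h0 | h0 | h0
    · exact hα0 h0.symm
    · exact hα0 (neg_eq_zero.1 h0.symm)
    · exact hα20 h0.symm
    · exact hα20 (neg_eq_zero.1 h0.symm)
  have hDc : D.card ≤ 4 := card_le_four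
  have huD : ψ u - ψ v ∉ D := by
    intro hmem
    have := hD2 _ hmem
    rw [Prod.snd_sub] at this
    exact huv2 (sub_eq_zero.1 this)
  -- numerical conditions
  have hcardV : Fintype.card (Fin N × Γ) = N * g := by
    rw [Fintype.card_prod, Fintype.card_fin]
  have hbd3 : (g * A + 4) * bd (Fin N × Γ) W 3 < N ^ (k - 2) := by
    have := bd_mul_le (Fin N × Γ) W 3
    rw [hcardV] at this
    refine num_b k N g (g * A + 4) _ (by omega) hg1 ?_ this
    rw [← hcdef]
    have h3 : c * k ^ 3 * g ^ k < B := by omega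
    omega
  have hbd5 : 4 * bd (Fin N × Γ) W 5 * B ^ 4 < B ^ k := by
    have := bd_mul_le (Fin N × Γ) W 5
    rw [hcardV] at this
    have he : N * g = (16 * k * g) * B := by rw [hNdef, hhdef]; ring
    rw [he] at this
    refine num_c k B (16 * k * g) _ ?_ (by omega) this
    have : 1 ≤ 16 * k * g := Nat.mul_pos (by omega) hg1
    exact this
  -- steps
  have hstep : ∀ (q : Γ → ℕ) (t : Γ), q t < A * h → ∀ i : Fin N,
      cnt R (Eq' S al N h A α q) (i, t + (ψ u - ψ v)) <
        cnt R (Eq' S al N h A α (update q t (q t + 1))) (i, t + (ψ u - ψ v)) ∧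
      ∀ Δ : Γ, 0 < wt Δ →
        cnt R (Eq' S al N h A α (update q t (q t + 1))) (i, t + ((ψ u - ψ v) + Δ)) ≤
        cnt R (Eq' S al N h A α q) (i, t + ((ψ u - ψ v) + Δ)) := by
    intro q t hq i
    have ha0 : q t / h < A := (Nat.div_lt_iff_lt_mul hh).2 hq
    constructor
    · exact step_lt rfl hA hh S al α q R hR hS halS hαal ψ v w y u hc huv huw huy hu2' D hD hD0
        hDc huD t ⟨q t / h, ha0⟩ rfl i B rfl idx hinj hidx hbd5
    · intro Δ hΔ
      exact step_le rfl hA hh S al α q R hR hS halS hαal ψ v w y hc t ⟨q t / h, ha0⟩ rfl i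
        ((ψ u - ψ v) + Δ) (fun ψ' v' w' y' hc' b => hbest Δ hΔ ψ' v' w' y' hc' b)
  -- chains
  have hchain : ∀ (q : Γ → ℕ) (t : Γ) (d : ℕ), q t + d + 1 ≤ A * h → ∀ i : Fin N,
      cnt R (Eq' S al N h A α q) (i, t + (ψ u - ψ v)) <
        cnt R (Eq' S al N h A α (update q t (q t + d + 1))) (i, t + (ψ u - ψ v)) ∧
      ∀ Δ : Γ, 0 < wt Δ →
        cnt R (Eq' S al N h A α (update q t (q t + d + 1))) (i, t + ((ψ u - ψ v) + Δ)) ≤
        cnt R (Eq' S al N h A α q) (i, t + ((ψ u - ψ v) + Δ)) := by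
    intro q t d
    induction d with
    | zero => intro hd i; exact hstep q t (by omega) i
    | succ d ih =>
      intro hd i
      obtain ⟨i1, i2⟩ := ih (by omega) i
      have hs := hstep (update q t (q t + d + 1)) t (by rw [update_self]; omega) i
      rw [update_self, update_idem] at hs
      refine ⟨i1.trans hs.1, fun Δ hΔ => (hs.2 Δ hΔ).trans (i2 Δ hΔ)⟩
  have hchain' : ∀ (q q' : Γ → ℕ) (t : Γ), (∀ s, s ≠ t → q s = q' s) → q t < q' t →
      q' t ≤ A * h → ∀ i : Fin N,
      cnt R (Eq' S al N h A α q) (i, t + (ψ u - ψ v)) <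
        cnt R (Eq' S al N h A α q') (i, t + (ψ u - ψ v)) ∧
      ∀ Δ : Γ, 0 < wt Δ →
        cnt R (Eq' S al N h A α q') (i, t + ((ψ u - ψ v) + Δ)) ≤
        cnt R (Eq' S al N h A α q) (i, t + ((ψ u - ψ v) + Δ)) := by
    intro q q' t hqq hlt hle i
    obtain ⟨d, hd⟩ := Nat.exists_eq_add_of_lt hlt
    have hq' : q' = update q t (q t + d + 1) := by
      funext s
      by_cases hs : s = t
      · subst hs; rw [update_self, hd]
      · rw [update_of_ne hs, hqq s hs]
    rw [hq']
    exact hchain q t d (by omega) i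
  -- ties
  set K : ℕ := A * h + 1 with hKdef
  let tt : Fin N × Γ × Γ → Γ := fun x =>
    if 0 < wt (x.2.2 - x.2.1) then x.2.1 - (ψ u - ψ v) else x.2.2 - (ψ u - ψ v)
  let T : Fin N × Γ × Γ → Finset (Γ → Fin K) := fun x =>
    univ.filter (fun q => x.2.1 ≠ x.2.2 ∧
      cnt R (Eq' S al N h A α (fun s => (q s).val)) (x.1, x.2.1) =
        cnt R (Eq' S al N h A α (fun s => (q s).val)) (x.1, x.2.2))
  have hT : ∀ x, ∀ q ∈ T x, ∀ q' ∈ T x, (∀ s, s ≠ tt x → q s = q' s) → q = q' := by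
    rintro ⟨i, γ, γ'⟩ q hq q' hq' hqq
    simp only [T, mem_filter, mem_univ, true_and] at hq hq'
    -- a symmetric statement
    have key : ∀ (γ γ' : Γ) (q q' : Γ → Fin K), 0 < wt (γ' - γ) →
        cnt R (Eq' S al N h A α (fun s => (q s).val)) (i, γ) =
          cnt R (Eq' S al N h A α (fun s => (q s).val)) (i, γ') →
        cnt R (Eq' S al N h A α (fun s => (q' s).val)) (i, γ) =
          cnt R (Eq' S al N h A α (fun s => (q' s).val)) (i, γ') →
        (∀ s, s ≠ γ - (ψ u - ψ v) → q s = q' s) →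
        ¬ (q (γ - (ψ u - ψ v))).val < (q' (γ - (ψ u - ψ v))).val := by
      intro γ γ' q q' hw hq hq' hqq hlt
      have hle : (q' (γ - (ψ u - ψ v))).val ≤ A * h := by
        have := (q' (γ - (ψ u - ψ v))).2
        omega
      obtain ⟨c1, c2⟩ := hchain' (fun s => (q s).val) (fun s => (q' s).val)
        (γ - (ψ u - ψ v)) (fun s hs => by rw [hqq s hs]) hlt hle i
      have c3 := c2 (γ' - γ) hw
      have e1 : γ - (ψ u - ψ v) + (ψ u - ψ v) = γ := by abel
      have e2 : γ - (ψ u - ψ v) + ((ψ u - ψ v) + (γ' - γ)) = γ' := by abel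
      rw [e1] at c1
      rw [e2] at c3
      exact hq.not_lt (c1.trans_le (hq'.le.trans c3))
    funext s
    by_cases hs : s = tt (i, γ, γ')
    · rw [hs]
      simp only [tt] at hqq ⊢
      split_ifs at hqq ⊢ with hw
      · apply Fin.ext
        have k1 := key γ γ' q q' hw hq.2 hq'.2 hqq
        have k2 := key γ γ' q' q hw hq'.2 hq.2 (fun s hs => (hqq s hs).symm)
        exact le_antisymm (not_lt.1 k2) (not_lt.1 k1)
      · have hw' : 0 < wt (γ - γ') := by
          have e3 : γ - γ' = -(γ' - γ) := by abel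
          rw [e3, wt_neg hPo]
          have := wt_ne_zero hPo (γ' - γ) (sub_ne_zero.2 (Ne.symm hq.1))
          omega
        apply Fin.ext
        have k1 := key γ' γ q q' hw' hq.2.symm hq'.2.symm hqq
        have k2 := key γ' γ q' q hw' hq'.2.symm hq.2.symm (fun s hs => (hqq s hs).symm)
        exact le_antisymm (not_lt.1 k2) (not_lt.1 k1)
    · exact hqq s hs
  have hIcard : Fintype.card (Fin N × Γ × Γ) < K := by
    rw [Fintype.card_prod, Fintype.card_prod, Fintype.card_fin, ← hg]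
    have h3 : N * (g * g) = A * h := by rw [hNdef, hAdef]; ring
    rw [h3, hKdef]
    exact Nat.lt_succ_self _
  obtain ⟨q, hq⟩ := union_bound K T tt hT hIcard
  set E := Eq' S al N h A α (fun s => (q s).val) with hE
  have hlev := levels_lt (cnt R E) (fun i hi γ γ' =>
    Eq_level_sep rfl hA hh R S al α hS hαal (halS hαal) _ v0 w0 hcan hne (by omega)
      (fun s => (q s).val) hbd3 i hi γ γ')
  have hinjE : Injective (cnt R E) := by
    rintro ⟨i, γ⟩ ⟨j, γ'⟩ he
    rcases lt_trichotomy i j with hij | hij | hij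
    · exact absurd he (hlev i j γ γ' hij).ne
    · subst hij
      by_contra hne'
      have hγ : γ ≠ γ' := by rintro rfl; exact hne' rfl
      have := hq (i, γ, γ')
      apply this
      simp only [T, mem_filter, mem_univ, true_and]
      exact ⟨hγ, he⟩
    · exact absurd he.symm (hlev j i γ' γ hij).ne
  -- transport to `Fin n`
  let ee := Fintype.equivFin (Fin N × Γ)
  refine ⟨Fintype.card (Fin N × Γ), ?_, fun a b => E (ee.symm a) (ee.symm b), ?_, ?_⟩
  · rw [hcardV]
    have h3 : m ≤ N := by omega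
    calc m ≤ N := h3
      _ ≤ N * g := Nat.le_mul_of_pos_right N hg1
  · intro a b
    exact Eq_asymm S al hS N h A α (halS hαal) _ _ _
  · intro a b hab
    have hcong := cnt_congr_right ee.symm R (fun a b => E (ee.symm a) (ee.symm b)) E
      (fun a b => Iff.rfl)
    rw [hcong, hcong] at hab
    exact ee.symm.injective (hinjE hab)

end Pool.Agent.H48.FIrr
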