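import Mathlib
import Pool.Agent.H48.FIrrMain4

namespace Pool.Agent.H48.FIrr

open Finset Function

variable {W : Type*} [Fintype W]

/-- A connected graph on at least three vertices has a vertex with two distinct neighbours. -/
theorem exists_two_nbrs (G : SimpleGraph W) (hG : G.Connected) (hk : 3 ≤ Fintype.card W) :
    ∃ v w y, w ≠ y ∧ G.Adj v w ∧ G.Adj v y := by
  classical
  obtain ⟨a⟩ := hG.nonempty
  obtain ⟨b', hb'⟩ : ∃ b, b ∉ ({a} : Finset W) := by
    by_contra hcon
    push Not at hcon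
    have : Fintype.card W ≤ ({a} : Finset W).card := by
      rw [← Finset.card_univ]
      exact Finset.card_le_card (fun x _ => hcon x)
    simp at this
    omega
  obtain ⟨p⟩ := hG.preconnected a b'
  obtain ⟨d, _, hd1, hd2⟩ := p.exists_boundary_dart {a} (by simp) (by simpa using hb')
  simp only [Set.mem_singleton_iff] at hd1 hd2
  have hab : G.Adj a d.snd := by
    have := d.adj
    rwa [hd1] at this
  set b := d.snd with hb
  obtain ⟨c', hc'⟩ : ∃ c, c ∉ ({a, b} : Finset W) := by
    by_contra hcon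
    push Not at hcon
    have : Fintype.card W ≤ ({a, b} : Finset W).card := by
      rw [← Finset.card_univ]
      exact Finset.card_le_card (fun x _ => hcon x)
    have := Finset.card_le_two (a := a) (b := b)
    omega
  obtain ⟨p'⟩ := hG.preconnected a c'
  obtain ⟨d', _, hd1', hd2'⟩ := p'.exists_boundary_dart {a, b} (by simp) (by simpa using hc')
  simp only [Set.mem_insert_iff, Set.mem_singleton_iff, not_or] at hd1' hd2'
  rcases hd1' with h1 | h1
  · refine ⟨a, b, d'.snd, Ne.symm hd2'.2, hab, ?_⟩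
    have := d'.adj
    rwa [h1] at this
  · refine ⟨b, a, d'.snd, Ne.symm hd2'.1, hab.symm, ?_⟩
    have := d'.adj
    rwa [h1] at this

theorem fromRel_rev (R : W → W → Prop) :
    SimpleGraph.fromRel (fun a b => R b a) = SimpleGraph.fromRel R := by
  ext a b
  simp only [SimpleGraph.fromRel_adj]
  tauto

theorem main4 (R : W → W → Prop) (hR : ∀ a b, R a b → ¬ R b a)
    (hconn : (SimpleGraph.fromRel R).Connected) (hk : 4 ≤ Fintype.card W) (m : ℕ) :
    ∃ n ≥ m, ∃ E : Fin n → Fin n → Prop, (∀ u v, E u v → ¬ E v u) ∧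
      Injective (cnt R E) := by
  obtain ⟨v, w, y, hwy, h1, h2⟩ := exists_two_nbrs _ hconn (by omega)
  have h1' := fromRel_adj' h1
  have h2' := fromRel_adj' h2
  by_cases hvw : R v w
  · exact main4_aux R hR hconn hk v w y hvw h2' (Ne.symm hwy) m
  · by_cases hvy : R v y
    · exact main4_aux R hR hconn hk v y w hvy h1' hwy m
    · have hwv := h1'.resolve_left hvw
      have hyv := h2'.resolve_left hvy
      obtain ⟨n, hn, E, hE1, hE2⟩ := main4_aux (fun a b => R b a) (fun a b hab => hR b a hab)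
        (by rw [fromRel_rev]; exact hconn) hk v w y hwv (Or.inl hyv) (Ne.symm hwy) m
      refine ⟨n, hn, fun a b => E b a, fun u v huv => hE1 v u huv, ?_⟩
      intro p p' hpp
      apply hE2
      have h3 := cnt_swap R (fun a b => E b a) p
      have h4 := cnt_swap R (fun a b => E b a) p'
      rw [h3, h4]
      exact hpp

/-- From unbounded orders to an infinite family of pairwise non-isomorphic graphs. -/
theorem assemble {W : Type*} (F : OGraph W)
    (h : ∀ m : ℕ, ∃ n ≥ m, ∃ G : OGraph (Fin n), Irregular F G) :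
    ∃ (n : ℕ → ℕ) (G : (i : ℕ) → OGraph (Fin (n i))), StrictMono n ∧
      (∀ i, Irregular F (G i)) ∧ ∀ i j, i ≠ j → ¬ Iso (G i) (G j) := by
  classical
  let T : Set ℕ := {n | ∃ G : OGraph (Fin n), Irregular F G}
  have hT : T.Infinite := by
    apply Set.infinite_of_not_bddAbove
    rintro ⟨M, hM⟩
    obtain ⟨n, hn, G, hG⟩ := h (M + 1)
    have := hM (show n ∈ T from ⟨G, hG⟩)
    omega
  haveI : Infinite T := hT.to_subtype
  let e := Nat.orderEmbeddingOfSet T
  have he : ∀ i, e i ∈ T := fun i => Nat.orderEmbeddingOfSet_range T ▸ Set.mem_range_self i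
  choose G hG using he
  refine ⟨e, G, e.strictMono, hG, ?_⟩
  rintro i j hij ⟨f, _⟩
  apply hij
  apply e.injective
  simpa using Fintype.card_congr f

theorem final_of_k3
    (hk3 : ∀ (R : Fin 3 → Fin 3 → Prop), (∀ a b, R a b → ¬ R b a) →
      (SimpleGraph.fromRel R).Connected → ∀ m : ℕ, ∃ n ≥ m, ∃ E : Fin n → Fin n → Prop,
        (∀ u v, E u v → ¬ E v u) ∧ Injective (cnt R E))
    {W : Type*} [Finite W] (F : OGraph W) (hF : WeaklyConnected F) (hk : 3 ≤ Nat.card W) :
    ∃ (n : ℕ → ℕ) (G : (i : ℕ) → OGraph (Fin (n i))), StrictMono n ∧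
      (∀ i, Irregular F (G i)) ∧ ∀ i j, i ≠ j → ¬ Iso (G i) (G j) := by
  haveI := Fintype.ofFinite W
  rw [Nat.card_eq_fintype_card] at hk
  apply assemble
  intro m
  rcases Nat.lt_or_ge 3 (Fintype.card W) with h4 | h3
  · obtain ⟨n, hn, E, hE1, hE2⟩ := main4 F.Adj F.asymm hF h4 m
    exact ⟨n, hn, ⟨E, hE1⟩, irregular_of_cnt F ⟨E, hE1⟩ hE2⟩
  · have hcard : Fintype.card W = 3 := le_antisymm h3 hk
    let e : Fin 3 ≃ W := (Fintype.equivFinOfCardEq hcard).symm
    let R : Fin 3 → Fin 3 → Prop := fun a b => F.Adj (e a) (e b)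
    have hconn : (SimpleGraph.fromRel R).Connected := by
      have hiso : (SimpleGraph.fromRel R) ≃g (SimpleGraph.fromRel F.Adj) :=
        { toEquiv := e
          map_rel_iff' := by
            intro a b
            simp only [SimpleGraph.fromRel_adj, R, ne_eq, EmbeddingLike.apply_eq_iff_eq] }
      exact hiso.connected_iff.2 hF
    obtain ⟨n, hn, E, hE1, hE2⟩ := hk3 R (fun a b => F.asymm _ _) hconn m
    refine ⟨n, hn, ⟨E, hE1⟩, irregular_of_cnt F ⟨E, hE1⟩ ?_⟩
    have : cnt F.Adj E = cnt R E := by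
      funext p
      exact cnt_congr_left e F.Adj R (fun a b => Iff.rfl) E p
    simp only
    rw [this]
    exact hE2

end Pool.Agent.H48.FIrr
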