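import Mathlib
import Pool.Agent.H48.FIrrFinal

namespace Pool.Agent.H48.FIrr

open Function

/-- Directed path `0 → 1 → 2`. -/
def RP (a b : Fin 3) : Bool := (a == 0 && b == 1) || (a == 1 && b == 2)
/-- Transitive triangle. -/
def RT (a b : Fin 3) : Bool := decide (a < b)
/-- Cyclic triangle. -/
def RC (a b : Fin 3) : Bool := b == a + 1
/-- Out-star with centre `0`. -/
def RO (a b : Fin 3) : Bool := a == 0 && b != 0
/-- In-star with centre `0`. -/
def RI (a b : Fin 3) : Bool := b == 0 && a != 0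

/-- The relation with prescribed values. -/
def mkR (b01 b10 b02 b20 b12 b21 : Bool) (a b : Fin 3) : Bool :=
  ![![false, b01, b02], ![b10, false, b12], ![b20, b21, false]] a b

theorem class_bool : ∀ b01 b10 b02 b20 b12 b21 : Bool,
    ¬ (b01 = true ∧ b10 = true) → ¬ (b02 = true ∧ b20 = true) → ¬ (b12 = true ∧ b21 = true) →
    ((b01 || b10) && (b02 || b20) || (b01 || b10) && (b12 || b21) ||
      (b02 || b20) && (b12 || b21)) = true →
    ∃ x y z : Fin 3, (x ≠ y ∧ y ≠ z ∧ x ≠ z) ∧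
      ((∀ a b, RP a b = mkR b01 b10 b02 b20 b12 b21 (![x, y, z] a) (![x, y, z] b)) ∨
       (∀ a b, RT a b = mkR b01 b10 b02 b20 b12 b21 (![x, y, z] a) (![x, y, z] b)) ∨
       (∀ a b, RC a b = mkR b01 b10 b02 b20 b12 b21 (![x, y, z] a) (![x, y, z] b)) ∨
       (∀ a b, RO a b = mkR b01 b10 b02 b20 b12 b21 (![x, y, z] a) (![x, y, z] b)) ∨
       (∀ a b, RI a b = mkR b01 b10 b02 b20 b12 b21 (![x, y, z] a) (![x, y, z] b))) := by
  decide

theorem mkR_spec (R : Fin 3 → Fin 3 → Prop) [DecidableRel R] (hR : ∀ a, ¬ R a a) (a b : Fin 3) :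
    (R a b ↔ mkR (decide (R 0 1)) (decide (R 1 0)) (decide (R 0 2)) (decide (R 2 0))
      (decide (R 1 2)) (decide (R 2 1)) a b = true) := by
  fin_cases a <;> fin_cases b <;> simp [mkR, hR]

theorem two_pairs (R : Fin 3 → Fin 3 → Prop) [DecidableRel R]
    (hconn : (SimpleGraph.fromRel R).Connected) :
    ((decide (R 0 1) || decide (R 1 0)) && (decide (R 0 2) || decide (R 2 0)) ||
      (decide (R 0 1) || decide (R 1 0)) && (decide (R 1 2) || decide (R 2 1)) ||
      (decide (R 0 2) || decide (R 2 0)) && (decide (R 1 2) || decide (R 2 1))) = true := by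
  obtain ⟨v, w, y, hwy, h1, h2⟩ := exists_two_nbrs _ hconn (by simp)
  rw [SimpleGraph.fromRel_adj] at h1 h2
  obtain ⟨hvw, h1⟩ := h1
  obtain ⟨hvy, h2⟩ := h2
  simp only [Bool.or_eq_true, Bool.and_eq_true, decide_eq_true_eq]
  fin_cases v <;> fin_cases w <;> fin_cases y <;>
    first
    | exact absurd rfl hwy
    | exact absurd rfl hvw
    | exact absurd rfl hvy
    | (simp only [Fin.mk_zero, Fin.mk_one, Fin.reduceFinMk, Fin.zero_eta, Fin.isValue] at h1 h2; tauto)

theorem k3_of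
    (hP : ∀ m : ℕ, ∃ n ≥ m, ∃ E : Fin n → Fin n → Prop, (∀ u v, E u v → ¬ E v u) ∧
      Injective (cnt (fun a b => RP a b = true) E))
    (hT : ∀ m : ℕ, ∃ n ≥ m, ∃ E : Fin n → Fin n → Prop, (∀ u v, E u v → ¬ E v u) ∧
      Injective (cnt (fun a b => RT a b = true) E))
    (hC : ∀ m : ℕ, ∃ n ≥ m, ∃ E : Fin n → Fin n → Prop, (∀ u v, E u v → ¬ E v u) ∧
      Injective (cnt (fun a b => RC a b = true) E))
    (hO : ∀ m : ℕ, ∃ n ≥ m, ∃ E : Fin n → Fin n → Prop, (∀ u v, E u v → ¬ E v u) ∧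
      Injective (cnt (fun a b => RO a b = true) E))
    (R : Fin 3 → Fin 3 → Prop) (hR : ∀ a b, R a b → ¬ R b a)
    (hconn : (SimpleGraph.fromRel R).Connected) (m : ℕ) :
    ∃ n ≥ m, ∃ E : Fin n → Fin n → Prop, (∀ u v, E u v → ¬ E v u) ∧
      Injective (cnt R E) := by
  classical
  have hI : ∀ m : ℕ, ∃ n ≥ m, ∃ E : Fin n → Fin n → Prop, (∀ u v, E u v → ¬ E v u) ∧
      Injective (cnt (fun a b => RI a b = true) E) := by
    intro m
    obtain ⟨n, hn, E, h1, h2⟩ := hO m
    refine ⟨n, hn, fun a b => E b a, fun u v huv => h1 v u huv, ?_⟩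
    intro p p' hpp
    apply h2
    have h3 := cnt_swap (fun a b => RO a b = true) E p
    have h4 := cnt_swap (fun a b => RO a b = true) E p'
    rw [← h3, ← h4]
    exact hpp
  have hirr : ∀ a, ¬ R a a := fun a h => hR a a h h
  obtain ⟨x, y, z, ⟨hxy, hyz, hxz⟩, hor⟩ := class_bool (decide (R 0 1)) (decide (R 1 0))
    (decide (R 0 2)) (decide (R 2 0)) (decide (R 1 2)) (decide (R 2 1))
    (by simpa using fun h => hR 0 1 h) (by simpa using fun h => hR 0 2 h)
    (by simpa using fun h => hR 1 2 h) (two_pairs R hconn)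
  have hinj : Injective ![x, y, z] := by
    intro i j hij
    fin_cases i <;> fin_cases j <;> simp_all
  let e : Fin 3 ≃ Fin 3 := Equiv.ofBijective ![x, y, z] (Finite.injective_iff_bijective.1 hinj)
  have he : ∀ a, e a = ![x, y, z] a := fun a => rfl
  have key : ∀ Q : Fin 3 → Fin 3 → Bool, (∀ a b, Q a b = mkR (decide (R 0 1)) (decide (R 1 0))
      (decide (R 0 2)) (decide (R 2 0)) (decide (R 1 2)) (decide (R 2 1))
      (![x, y, z] a) (![x, y, z] b)) →
      (∃ n ≥ m, ∃ E : Fin n → Fin n → Prop, (∀ u v, E u v → ¬ E v u) ∧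
        Injective (cnt (fun a b => Q a b = true) E)) →
      ∃ n ≥ m, ∃ E : Fin n → Fin n → Prop, (∀ u v, E u v → ¬ E v u) ∧
        Injective (cnt R E) := by
    intro Q hQ hE
    obtain ⟨n, hn, E, h1, h2⟩ := hE
    refine ⟨n, hn, E, h1, ?_⟩
    have : cnt R E = cnt (fun a b => Q a b = true) E := by
      funext p
      apply cnt_congr_left e
      intro a b
      rw [hQ, he, he]
      exact (mkR_spec R hirr _ _).symm
    rw [this]
    exact h2
  rcases hor with h | h | h | h | h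
  · exact key RP h (hP m)
  · exact key RT h (hT m)
  · exact key RC h (hC m)
  · exact key RO h (hO m)
  · exact key RI h (hI m)

end Pool.Agent.H48.FIrr
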