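import Mathlib
import Pool.Agent.H64.FIrrT3
import Pool.Agent.H48.FIrrClass

namespace Pool.Agent.H48.FIrrP3

open Pool.Agent.H48.FIrr Pool.Agent.H64.FIrrCnt3 Pool.Agent.H64.FIrrT3 Finset

/-- The graph for the directed path: core `0 → 1`, `1 → A`, `B → 1`. -/
def GP (n : ℕ) : Vt n 2 → Vt n 2 → Bool :=
  G n ![false, false] ![false, true] ![false, true] ![false, false]
    ![![false, true], ![false, false]]

lemma GP_asymm (n : ℕ) (u v : Vt n 2) (h : GP n u v = true) : ¬ GP n v u = true :=
  G_asymm n _ _ _ _ _ (by decide) (by decide) (by decide) u v h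

/-- its counts -/
def valP (n : ℕ) : Vt n 2 → ℕ
  | .inl i => 2 * (i + 1) + n + 1
  | .inr (.inl j) => 2 * (n - j) + n
  | .inr (.inr k) => ![n, 2 * n * (n + 1)] k

lemma cntP (n : ℕ) (p : Vt n 2) :
    cnt (fun a b : Fin 3 => RP a b = true) (fun u v => GP n u v = true) p = valP n p := by
  classical
  rw [cnt_three _ _ p (fun x y z => GP n x y = true ∧ GP n y z = true)]
  · unfold GP
    rcases p with i | j | k
    · simp [Fintype.sum_sum_type, Fin.sum_univ_two, valP, sum_le, -Finset.sum_boole]
      omega
    · simp [Fintype.sum_sum_type, Fin.sum_univ_two, valP, sum_ge, -Finset.sum_boole]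
      omega
    · fin_cases k
      · simp [Fintype.sum_sum_type, Fin.sum_univ_two, valP, sum_le, -Finset.sum_boole]
      · simp [Fintype.sum_sum_type, Fin.sum_univ_two, valP, sum_le, -Finset.sum_boole]
        have hT := two_T n
        unfold T at hT
        have e : 2 * n * (n + 1) = n * (n + 1) + (n * n + n) := by ring
        rw [e, ← hT]
        ring
  · intro x y z
    have hne : ∀ u v, GP n u v = true → u ≠ v := by
      rintro u v h rfl
      exact GP_asymm n _ _ h h
    constructor
    · rintro ⟨h1, h3⟩
      have n1 := hne _ _ h1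
      have n3 := hne _ _ h3
      have n2 : x ≠ z := by
        rintro rfl
        exact GP_asymm n _ _ h1 h3
      constructor
      · intro a b hab
        fin_cases a <;> fin_cases b <;> simp_all
      · intro a b hab
        fin_cases a <;> fin_cases b <;> simp_all [RP]
    · rintro ⟨-, h⟩
      exact ⟨h 0 1 (by decide), h 1 2 (by decide)⟩

lemma valP_inj (n : ℕ) (hn : 6 ≤ n) : Function.Injective (valP n) := by
  have hT : 7 * n ≤ 2 * n * (n + 1) := by nlinarith
  intro u v h
  rcases u with i | i | k <;> rcases v with j | j | l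
  · simp only [valP] at h
    congr 1
    apply Fin.ext
    omega
  · simp only [valP] at h; omega
  · have := i.2
    fin_cases l <;> simp [valP] at h <;> omega
  · simp only [valP] at h; omega
  · simp only [valP] at h
    have := i.2
    have := j.2
    congr 2
    apply Fin.ext
    omega
  · have := i.2
    fin_cases l <;> simp [valP] at h <;> omega
  · have := j.2
    fin_cases k <;> simp [valP] at h <;> omega
  · have := j.2
    fin_cases k <;> simp [valP] at h <;> omega
  · congr 2
    fin_cases k <;> fin_cases l <;> simp [valP] at h ⊢ <;> omega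

/-- Infinitely many irregular oriented graphs for the directed path on three vertices. -/
theorem p3_main (m : ℕ) : ∃ n ≥ m, ∃ E : Fin n → Fin n → Prop, (∀ u v, E u v → ¬ E v u) ∧
    Function.Injective (cnt (fun a b : Fin 3 => RP a b = true) E) := by
  obtain ⟨E, h1, h2⟩ := transport (V := Vt (m + 6) 2) (fun a b : Fin 3 => RP a b = true)
    (fun u v => GP (m + 6) u v = true) (GP_asymm _) (by
      intro p q hpq
      rw [cntP, cntP] at hpq
      exact valP_inj _ (by omega) hpq)
  refine ⟨_, ?_, E, h1, h2⟩
  simp only [Fintype.card_sum, Fintype.card_fin]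
  omega

end Pool.Agent.H48.FIrrP3
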