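import Mathlib
import Pool.Agent.H64.FIrrT3
import Pool.Agent.H48.FIrrClass

namespace Pool.Agent.H48.FIrrSO

open Pool.Agent.H48.FIrr Pool.Agent.H64.FIrrCnt3 Pool.Agent.H64.FIrrT3 Finset

/-- The graph: transitive tournament on the first class, half graph between the classes and two
further vertices. -/
def GS (n : ℕ) : Vt n 2 → Vt n 2 → Bool
  | .inl i, .inl j => decide (i < j)
  | .inl i, .inr (.inl j) => decide (j ≤ i)
  | .inr (.inr 0), .inr (.inl _) => true
  | .inr (.inr 0), .inr (.inr 1) => true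
  | .inr (.inr 1), .inl _ => true
  | .inr (.inr 1), .inr (.inl _) => true
  | _, _ => false

section
variable (n : ℕ) (i j : Fin n) (k : Fin 2)
@[simp] lemma S1 : GS n (.inl i) (.inl j) = decide (i < j) := rfl
@[simp] lemma S2 : GS n (.inl i) (.inr (.inl j)) = decide (j ≤ i) := rfl
@[simp] lemma S3 : GS n (.inl i) (.inr (.inr k)) = false := rfl
@[simp] lemma S4 : GS n (.inr (.inl i)) (.inl j) = false := rfl
@[simp] lemma S5 : GS n (.inr (.inl i)) (.inr (.inl j)) = false := rfl
@[simp] lemma S6 : GS n (.inr (.inl i)) (.inr (.inr k)) = false := rfl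
@[simp] lemma S7 : GS n (.inr (.inr 0)) (.inl i) = false := rfl
@[simp] lemma S7' : GS n (.inr (.inr 1)) (.inl i) = true := rfl
@[simp] lemma S8 : GS n (.inr (.inr 0)) (.inr (.inl i)) = true := rfl
@[simp] lemma S8' : GS n (.inr (.inr 1)) (.inr (.inl i)) = true := rfl
@[simp] lemma S9 : GS n (.inr (.inr 0)) (.inr (.inr 0)) = false := rfl
@[simp] lemma S9' : GS n (.inr (.inr 0)) (.inr (.inr 1)) = true := rfl
@[simp] lemma S9'' : GS n (.inr (.inr 1)) (.inr (.inr 0)) = false := rfl
@[simp] lemma S9''' : GS n (.inr (.inr 1)) (.inr (.inr 1)) = false := rfl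
end

lemma GS_asymm (n : ℕ) (u v : Vt n 2) (h : GS n u v = true) : ¬ GS n v u = true := by
  rcases u with i | i | k <;> rcases v with j | j | l
  · simp only [S1, decide_eq_true_eq] at h ⊢; omega
  · simp
  · simp at h
  · simp at h
  · simp at h
  · simp at h
  · fin_cases k <;> simp at h ⊢
  · fin_cases k <;> simp at h ⊢
  · fin_cases k <;> fin_cases l <;> simp at h ⊢

/-- out-degree -/
def dg {V : Type} [Fintype V] (E : V → V → Bool) (x : V) : ℕ :=
  ∑ y : V, if E x y = true then 1 else 0

lemma inner {V : Type} [Fintype V] (E : V → V → Bool) (x y : V)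
    {inst : ∀ z, Decidable (E x y = true ∧ E x z = true ∧ y ≠ z)} :
    (∑ z : V, if (E x y = true ∧ E x z = true ∧ y ≠ z) then 1 else 0) =
      if E x y = true then dg E x - 1 else 0 := by
  classical
  by_cases h : E x y = true
  · rw [if_pos h]
    unfold dg
    rw [← Finset.card_filter, ← Finset.card_filter]
    have : (univ.filter fun z => E x y = true ∧ E x z = true ∧ y ≠ z) =
        (univ.filter fun z => E x z = true).erase y := by
      ext z
      simp only [mem_filter, mem_univ, true_and, mem_erase, h, ne_eq]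
      tauto
    rw [this, Finset.card_erase_of_mem (by simp [h])]
  · simp [h]

lemma inner2 {V : Type} [Fintype V] (E : V → V → Bool) (x p : V)
    {inst : ∀ y, Decidable (E x y = true ∧ E x p = true ∧ y ≠ p)} :
    (∑ y : V, if (E x y = true ∧ E x p = true ∧ y ≠ p) then 1 else 0) =
      if E x p = true then dg E x - 1 else 0 := by
  classical
  rw [← inner E x p (inst := fun _ => Classical.propDecidable _)]
  apply Finset.sum_congr rfl
  intro y _
  congr 1
  apply propext
  constructor
  · rintro ⟨h1, h2, h3⟩; exact ⟨h2, h1, Ne.symm h3⟩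
  · rintro ⟨h1, h2, h3⟩; exact ⟨h2, h1, Ne.symm h3⟩

open Classical in
lemma cnt_star {V : Type} [Fintype V] (E : V → V → Bool)
    (hE : ∀ u v, E u v = true → ¬ E v u = true) (p : V) :
    cnt (fun a b : Fin 3 => RO a b = true) (fun u v => E u v = true) p =
      (∑ y : V, if E p y = true then dg E p - 1 else 0) +
      2 * (∑ x : V, if E x p = true then dg E x - 1 else 0) := by
  rw [cnt_three _ _ p (fun x y z => E x y = true ∧ E x z = true ∧ y ≠ z)]
  · refine Eq.trans (congrArg₂ (· + ·) (congrArg₂ (· + ·)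
      (Finset.sum_congr rfl fun x _ => inner E p x)
      (Finset.sum_congr rfl fun x _ => inner E x p))
      (Finset.sum_congr rfl fun x _ => inner2 E x p)) ?_
    ring
  · intro x y z
    have hne : ∀ u v, E u v = true → u ≠ v := by
      rintro u v h rfl
      exact hE _ _ h h
    clear hE
    constructor
    · rintro ⟨h1, h2, h3⟩
      have n1 := hne _ _ h1
      have n2 := hne _ _ h2
      constructor
      · intro a b hab
        clear hne h1 h2
        fin_cases a <;> fin_cases b <;> simp_all
      · intro a b hab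
        fin_cases a <;> fin_cases b <;> simp_all [RO]
    · rintro ⟨hi, h⟩
      refine ⟨h 0 1 (by decide), h 0 2 (by decide), ?_⟩
      intro hyz
      have := @hi 1 2 hyz
      simp at this

lemma sum_lt (n : ℕ) (i : Fin n) : (∑ j : Fin n, if j < i then 1 else 0) = (i : ℕ) := by
  rw [← Finset.card_filter]
  have : (Finset.univ.filter fun j : Fin n => j < i) = Finset.Iio i := by
    ext j; simp
  rw [this, Fin.card_Iio]

lemma sum_gt (n : ℕ) (i : Fin n) : (∑ j : Fin n, if i < j then 1 else 0) = n - 1 - (i : ℕ) := by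
  rw [← Finset.card_filter]
  have : (Finset.univ.filter fun j : Fin n => i < j) = Finset.Ioi i := by
    ext j; simp
  rw [this, Fin.card_Ioi]

/-- out-degrees -/
def dv (n : ℕ) : Vt n 2 → ℕ
  | .inl _ => n
  | .inr (.inl _) => 0
  | .inr (.inr k) => ![n + 1, 2 * n] k

lemma dg_GS (n : ℕ) (p : Vt n 2) : dg (GS n) p = dv n p := by
  unfold dg
  rcases p with i | j | k
  · simp [Fintype.sum_sum_type, Fin.sum_univ_two, dv, sum_le, sum_gt, -Finset.sum_boole]
    have := i.2
    omega
  · simp [Fintype.sum_sum_type, Fin.sum_univ_two, dv, -Finset.sum_boole]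
  · fin_cases k
    · simp [Fintype.sum_sum_type, Fin.sum_univ_two, dv, -Finset.sum_boole]
    · simp [Fintype.sum_sum_type, Fin.sum_univ_two, dv, -Finset.sum_boole]
      ring

lemma sum_lt' (n : ℕ) (i : Fin n) (c : ℕ) : (∑ j : Fin n, if j < i then c else 0) = i * c := by
  rw [← sum_lt n i, Finset.sum_mul]
  apply Finset.sum_congr rfl
  intro j _
  split_ifs <;> simp

lemma sum_ge' (n : ℕ) (i : Fin n) (c : ℕ) :
    (∑ j : Fin n, if i ≤ j then c else 0) = (n - i) * c := by
  rw [← sum_ge n i, Finset.sum_mul]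
  apply Finset.sum_congr rfl
  intro j _
  split_ifs <;> simp

lemma sum_gt' (n : ℕ) (i : Fin n) (c : ℕ) :
    (∑ j : Fin n, if i < j then c else 0) = (n - 1 - i) * c := by
  rw [← sum_gt n i, Finset.sum_mul]
  apply Finset.sum_congr rfl
  intro j _
  split_ifs <;> simp

lemma sum_le' (n : ℕ) (i : Fin n) (c : ℕ) :
    (∑ j : Fin n, if j ≤ i then c else 0) = (i + 1) * c := by
  rw [← sum_le n i, Finset.sum_mul]
  apply Finset.sum_congr rfl
  intro j _
  split_ifs <;> simp

/-- the counts -/
def valS (n : ℕ) : Vt n 2 → ℕ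
  | .inl i => n * (n - 1) + 2 * (i * (n - 1) + (2 * n - 1))
  | .inr (.inl j) => 2 * ((n - j) * (n - 1) + n + (2 * n - 1))
  | .inr (.inr k) => ![(n + 1) * n, 2 * n * (2 * n - 1) + 2 * n] k

lemma cntS (n : ℕ) (p : Vt n 2) :
    cnt (fun a b : Fin 3 => RO a b = true) (fun u v => GS n u v = true) p = valS n p := by
  rw [cnt_star _ (GS_asymm n)]
  simp_rw [dg_GS]
  rcases p with i | j | k
  · simp [Fintype.sum_sum_type, Fin.sum_univ_two, dv, valS, sum_le', sum_gt', sum_lt', sum_ge', -Finset.sum_boole]
    have := i.2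
    rw [← add_mul]
    congr 1
    omega
  · simp [Fintype.sum_sum_type, Fin.sum_univ_two, dv, valS, sum_le', sum_gt', sum_lt', sum_ge', -Finset.sum_boole]
    ring
  · fin_cases k
    · simp [Fintype.sum_sum_type, Fin.sum_univ_two, dv, valS, -Finset.sum_boole]
      ring
    · simp [Fintype.sum_sum_type, Fin.sum_univ_two, dv, valS, -Finset.sum_boole]
      ring

lemma valS_a (d : ℕ) (i : Fin (d + 1)) : valS (d + 1) (.inl i) = d * (d + 5 + 2 * i) + 2 := by
  simp only [valS, Nat.add_sub_cancel]
  have : 2 * (d + 1) - 1 = 2 * d + 1 := by omega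
  rw [this]
  ring

lemma valS_b (d : ℕ) (j : Fin (d + 1)) :
    valS (d + 1) (.inr (.inl j)) = d * (2 * (d + 1 - j) + 6) + 4 := by
  simp only [valS, Nat.add_sub_cancel]
  have : 2 * (d + 1) - 1 = 2 * d + 1 := by omega
  rw [this]
  ring

lemma valS_c0 (d : ℕ) : valS (d + 1) (.inr (.inr 0)) = d * (d + 3) + 2 := by
  simp [valS]
  ring

lemma valS_c1 (d : ℕ) : valS (d + 1) (.inr (.inr 1)) = d * (4 * d + 8) + 4 := by
  simp [valS]
  have : 2 * (d + 1) - 1 = 2 * d + 1 := by omega
  rw [this]
  ring

lemma no_eq (d x y : ℕ) (hd : 5 ≤ d) : d * x + 2 ≠ d * y + 4 := by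
  intro h
  have h1 : (d : ℤ) ∣ 2 := ⟨(x : ℤ) - y, by
    have : (d * x + 2 : ℤ) = d * y + 4 := by exact_mod_cast h
    linarith⟩
  have := Int.le_of_dvd (by norm_num) h1
  omega

lemma valS_inj (n : ℕ) (hn : 6 ≤ n) : Function.Injective (valS n) := by
  obtain ⟨d, rfl⟩ : ∃ d, n = d + 1 := ⟨n - 1, by omega⟩
  have hd : 5 ≤ d := by omega
  have hd0 : 0 < d := by omega
  have hcancel : ∀ x y c : ℕ, d * x + c = d * y + c → x = y := fun x y c h =>
    Nat.eq_of_mul_eq_mul_left hd0 (by omega)
  intro u v h
  rcases u with i | i | k <;> rcases v with j | j | l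
  · rw [valS_a, valS_a] at h
    have := hcancel _ _ _ h
    congr 1
    apply Fin.ext
    omega
  · rw [valS_a, valS_b] at h
    exact absurd h (no_eq d _ _ hd)
  · fin_cases l
    · change valS (d + 1) (.inl i) = valS (d + 1) (.inr (.inr 0)) at h
      rw [valS_a, valS_c0] at h
      have := hcancel _ _ _ h
      omega
    · change valS (d + 1) (.inl i) = valS (d + 1) (.inr (.inr 1)) at h
      rw [valS_a, valS_c1] at h
      exact absurd h (no_eq d _ _ hd)
  · rw [valS_a, valS_b] at h
    exact absurd h.symm (no_eq d _ _ hd)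
  · rw [valS_b, valS_b] at h
    have := hcancel _ _ _ h
    have := i.2
    have := j.2
    congr 2
    apply Fin.ext
    omega
  · fin_cases l
    · change valS (d + 1) (.inr (.inl i)) = valS (d + 1) (.inr (.inr 0)) at h
      rw [valS_b, valS_c0] at h
      exact absurd h.symm (no_eq d _ _ hd)
    · change valS (d + 1) (.inr (.inl i)) = valS (d + 1) (.inr (.inr 1)) at h
      rw [valS_b, valS_c1] at h
      have := hcancel _ _ _ h
      omega
  · fin_cases k
    · change valS (d + 1) (.inr (.inr 0)) = valS (d + 1) (.inl j) at h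
      rw [valS_a, valS_c0] at h
      have := hcancel _ _ _ h
      omega
    · change valS (d + 1) (.inr (.inr 1)) = valS (d + 1) (.inl j) at h
      rw [valS_a, valS_c1] at h
      exact absurd h.symm (no_eq d _ _ hd)
  · fin_cases k
    · change valS (d + 1) (.inr (.inr 0)) = valS (d + 1) (.inr (.inl j)) at h
      rw [valS_b, valS_c0] at h
      exact absurd h (no_eq d _ _ hd)
    · change valS (d + 1) (.inr (.inr 1)) = valS (d + 1) (.inr (.inl j)) at h
      rw [valS_b, valS_c1] at h
      have := hcancel _ _ _ h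
      omega
  · fin_cases k <;> fin_cases l
    · rfl
    · change valS (d + 1) (.inr (.inr 0)) = valS (d + 1) (.inr (.inr 1)) at h
      rw [valS_c0, valS_c1] at h
      exact absurd h (no_eq d _ _ hd)
    · change valS (d + 1) (.inr (.inr 1)) = valS (d + 1) (.inr (.inr 0)) at h
      rw [valS_c0, valS_c1] at h
      exact absurd h.symm (no_eq d _ _ hd)
    · rfl

/-- Infinitely many irregular oriented graphs for the out-star on three vertices. -/
theorem so_main (m : ℕ) : ∃ n ≥ m, ∃ E : Fin n → Fin n → Prop, (∀ u v, E u v → ¬ E v u) ∧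
    Function.Injective (cnt (fun a b : Fin 3 => RO a b = true) E) := by
  obtain ⟨E, h1, h2⟩ := transport (V := Vt (m + 6) 2) (fun a b : Fin 3 => RO a b = true)
    (fun u v => GS (m + 6) u v = true) (GS_asymm _) (by
      intro p q hpq
      rw [cntS, cntS] at hpq
      exact valS_inj _ (by omega) hpq)
  refine ⟨_, ?_, E, h1, h2⟩
  simp only [Fintype.card_sum, Fintype.card_fin]
  omega

end Pool.Agent.H48.FIrrSO
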